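import Pool.Agent.EH.HierDef

set_option autoImplicit false

namespace Pool.Agent.HL

/-- The smallest class of groups which contains the trivial groups and is closed under
* actions on trees without inversions (all vertex stabilisers belong to the class),
* extensions by elementary amenable groups (the preimages of all finite subgroups of the quotient
  belong to the class),
* directed unions,
* the local step: a group belongs to the class if all its finitely generated subgroups without
  nontrivial homomorphisms to the integers belong to it. -/
inductive HierL : (G : Type) → [Group G] → Prop
  | triv (G : Type) [Group G] [Subsingleton G] : HierL G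
  | tree (G V : Type) [Group G] [MulAction G V] (T : SimpleGraph V) (hT : T.IsTree)
      (hadj : ∀ (g : G) (u v : V), T.Adj u v → T.Adj (g • u) (g • v))
      (hinv : ∀ (g : G) (u v : V), T.Adj u v → ¬ (g • u = v ∧ g • v = u))
      (h : ∀ v : V, HierL (MulAction.stabilizer G v)) : HierL G
  | ext (G A : Type) [Group G] [Group A] (p : G →* A) (hA : Pool.Agent.EH.EA A)
      (h : ∀ F : Subgroup A, Finite F → HierL (F.comap p)) : HierL G
  | union (G : Type) [Group G] (H : Finset G → Subgroup G) (hH : ∀ F, ∀ g ∈ F, g ∈ H F)
      (h : ∀ F : Finset G, HierL (H F)) : HierL G
  | loc (G : Type) [Group G]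
      (h : ∀ H : Subgroup G, H.FG → (∀ f : H →* Multiplicative ℤ, f = 1) → HierL H) : HierL G

end Pool.Agent.HL
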