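import Pool.Agent.HL.Defs

set_option autoImplicit false
set_option linter.unusedSectionVars false

noncomputable section

open scoped InnerProductSpace ENNReal Topology
open Classical Filter ContinuousLinearMap

namespace Pool.Agent.HL

open Pool.Agent.VN Pool.Agent.LFT Pool.Agent.HI Pool.Agent.HC Pool.Agent.HX

section A6

variable {G κ U : Type} [Group G] [Ring κ] [Ring U]

/-- the subring of values of expressions over a subgroup, times elements of the subgroup -/
def A6_V (D : Dat G κ U) (O : Type*) [CxS O] (L : Subgroup G) : Subring U where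
  carrier := {x | ∃ α : O, Cf D O L 1 0 α x}
  zero_mem' := ⟨0, Cf_zero D 0 0⟩
  one_mem' := ⟨1, Or.inr ⟨Ex.sc 1, 1, fun u hu => absurd hu (Set.notMem_empty u), le_refl _,
    L.one_mem, by
      show (1 : U) = D.sc 1 * D.ι (1 * 1 ^ (0 : ℤ))
      rw [map_one, one_zpow, mul_one, map_one, mul_one]⟩⟩
  add_mem' := by
    rintro x y ⟨α, hx⟩ ⟨β, hy⟩
    exact ⟨α + β, Cf_add D hx hy⟩
  neg_mem' := by
    rintro x ⟨α, hx⟩
    exact ⟨α, Cf_neg D hx⟩
  mul_mem' := by
    rintro x y ⟨α, hx⟩ ⟨β, hy⟩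
    have h := Cf_mul D (fun n hn => by simpa using hn) (fun n hn => by simpa using hn) hx hy
    rw [add_zero] at h
    exact ⟨α * β, h⟩

theorem A6_inverse (D : Dat G κ U) (O : Type*) [CxS O] (L : Subgroup G) {x : U}
    (hx : x ∈ A6_V D O L) : Ring.inverse x ∈ A6_V D O L := by
  obtain ⟨α, hx⟩ := hx
  have h := Cf_inv D (fun n hn => by simpa using hn) (fun n hn => by simpa using hn) hx
  rw [neg_zero] at h
  exact ⟨CxS.F α, h⟩

theorem A6_SN_le (D : Dat G κ U) (O : Type*) [CxS O] (L : Subgroup G) :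
    SN D L ≤ A6_V D O L := by
  refine Subring.closure_le.2 ?_
  rintro x (⟨c, rfl⟩ | ⟨g, hg, rfl⟩)
  · refine ⟨1, Or.inr ⟨Ex.sc c, 1, fun u hu => absurd hu (Set.notMem_empty u), le_refl _,
      L.one_mem, ?_⟩⟩
    show D.sc c = D.sc c * D.ι (1 * 1 ^ (0 : ℤ))
    rw [one_zpow, mul_one, map_one, mul_one]
  · refine ⟨1, Or.inr ⟨Ex.sc 1, g, fun u hu => absurd hu (Set.notMem_empty u), le_refl _,
      hg, ?_⟩⟩
    show D.ι g = D.sc 1 * D.ι (g * 1 ^ (0 : ℤ))
    rw [map_one, one_zpow, mul_one, one_mul]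

theorem A6_V_le (D : Dat G κ U) (O : Type*) [CxS O] (L : Subgroup G) :
    A6_V D O L ≤ RCs (SN D ⊤) := by
  rintro x ⟨α, h⟩
  rcases h with rfl | ⟨E, g, h1, -, h3, rfl⟩
  · exact (RCs (SN D ⊤)).zero_mem
  · exact (RCs (SN D ⊤)).mul_mem (val_mem_RCs D fun u _ => Subgroup.mem_top u)
      (RC_of_mem (ι_mem_SN D (Subgroup.mem_top _)))

/-- a matrix over a subring in which all nonzero elements are invertible has its inverse over the
subring -/
theorem A6_inv_matrix (V : Subring U) (hV : ∀ a : V, IsUnit a ∨ a = 0) [Nontrivial U] {n : ℕ}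
    (Q R : Matrix (Fin n) (Fin n) U) (hQ : ∀ i j, Q i j ∈ V) (hQR : Q * R = 1) (i j : Fin n) :
    R i j ∈ V := by
  letI : DivisionRing V := DivisionRing.ofIsUnitOrEqZero hV
  let Q' : Matrix (Fin n) (Fin n) V := Matrix.of fun i j => ⟨Q i j, hQ i j⟩
  have hval : ∀ w : Fin n → V, ∀ j, ((Matrix.vecMul w Q' j : V) : U) =
      Matrix.vecMul (fun i => (w i : U)) Q j := by
    intro w j
    show ((∑ i, w i * Q' i j : V) : U) = ∑ i, (w i : U) * Q i j
    rw [AddSubmonoidClass.coe_finsetSum]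
    rfl
  have hinj : Function.Injective (Matrix.vecMulLinear Q') := by
    intro w w' h
    have h' : ∀ j, Matrix.vecMul w Q' j = Matrix.vecMul w' Q' j := fun j => congrFun h j
    have h2 : Matrix.vecMul (fun i => (w i : U)) Q = Matrix.vecMul (fun i => (w' i : U)) Q := by
      funext j
      rw [← hval, ← hval, h' j]
    have h3 := congrArg (fun v => Matrix.vecMul v R) h2
    simp only [Matrix.vecMul_vecMul, hQR, Matrix.vecMul_one] at h3
    funext i
    exact Subtype.ext (congrFun h3 i)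
  have hsurj : Function.Surjective (Matrix.vecMulLinear Q') :=
    LinearMap.surjective_of_injective hinj
  obtain ⟨w, hw⟩ := hsurj (Pi.single i 1)
  have h1 : Matrix.vecMul (fun i => (w i : U)) Q = Pi.single i 1 := by
    funext k
    have h2 : Matrix.vecMul w Q' k = (Pi.single i 1 : Fin n → V) k := congrFun hw k
    rw [← hval, h2]
    by_cases hk : k = i
    · subst hk
      rw [Pi.single_eq_same, Pi.single_eq_same]
      rfl
    · rw [Pi.single_eq_of_ne hk, Pi.single_eq_of_ne hk]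
      rfl
  have h2 := congrArg (fun v => Matrix.vecMul v R) h1
  simp only [Matrix.vecMul_vecMul, hQR, Matrix.vecMul_one, Matrix.single_one_vecMul] at h2
  have h3 := congrFun h2 j
  have h4 : (w j : U) = R i j := h3
  rw [← h4]
  exact (w j).2

end A6

/-- A6: elements of the rational closure are values of expressions times group elements -/
theorem rc_form {G κ U : Type} [Group G] [Ring κ] [Ring U] (D : Dat G κ U)
    (hall : ∀ x ∈ RCs (SN D ⊤), x = 0 ∨ IsUnit x) (L : Subgroup G) (x : U)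
    (hx : x ∈ RCs (SN D L)) :
    x = 0 ∨ ∃ (E : Ex G κ) (g : G), (∀ u ∈ E.supp, u ∈ L) ∧ g ∈ L ∧ x = E.val D * D.ι g := by
  rcases subsingleton_or_nontrivial U with hU | hU
  · exact Or.inl (Subsingleton.elim _ _)
  obtain ⟨O, ⟨hO⟩⟩ := exists_CxS
  have hV : ∀ a : A6_V D O L, IsUnit a ∨ a = 0 := by
    rintro ⟨a, ha⟩
    rcases hall a (A6_V_le D O L ha) with h | h
    · right
      exact Subtype.ext h
    · left
      refine ⟨⟨⟨a, ha⟩, ⟨Ring.inverse a, A6_inverse D O L ha⟩, ?_, ?_⟩, rfl⟩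
      · exact Subtype.ext (Ring.mul_inverse_cancel a h)
      · exact Subtype.ext (Ring.inverse_mul_cancel a h)
  have hmem : x ∈ A6_V D O L := by
    obtain ⟨n, Q, b, c, v, hQ, hb, hc, hu, hv, rfl⟩ := hx
    obtain ⟨⟨Q, R, h1, h2⟩, rfl⟩ := hu
    simp only at hQ hv
    have hR := A6_inv_matrix (A6_V D O L) hV Q R (fun i j => A6_SN_le D O L (hQ i j)) h1
    have hv' : v = R.mulVec b := by
      have e1 : Q.mulVec v = b := funext hv
      rw [← e1, Matrix.mulVec_mulVec, h2, Matrix.one_mulVec]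
    refine Subring.sum_mem _ fun i _ => Subring.mul_mem _ (A6_SN_le D O L (hc i)) ?_
    rw [hv']
    show ∑ j, R i j * b j ∈ _
    exact Subring.sum_mem _ fun j _ => Subring.mul_mem _ (hR i j) (A6_SN_le D O L (hb j))
  obtain ⟨α, h⟩ := hmem
  rcases h with h | ⟨E, g, h1, -, h3, h4⟩
  · exact Or.inl h
  · refine Or.inr ⟨E, g, h1, h3, ?_⟩
    rw [h4, one_zpow, mul_one]

end Pool.Agent.HL
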