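import Pool.Agent.HL.Defs

set_option autoImplicit false
set_option linter.unusedSectionVars false

noncomputable section

open scoped InnerProductSpace ENNReal Topology
open Classical Filter ContinuousLinearMap

namespace Pool.Agent.HL

open Pool.Agent.VN Pool.Agent.LFT Pool.Agent.HI Pool.Agent.HC Pool.Agent.HX

variable {k : Subring ℂ} {A Ξ : Type} [Group A] [MulAction A Ξ]

/-- B10: the key estimate from the rationality of invariant subspaces -/
theorem key_of_pi (hInt : AtiyahOver k (Sd (Lett Ξ) A))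
    (hPI : ∀ (ι : Type) (_ : Fintype ι) (ξ : ι → Ξ) (Z : Submodule ℂ (L2 ι (Sd (Lett Ξ) A))),
      Rat k (fun _ : ι => ()) Z →
      (∀ n : ℕ, ∀ z ∈ Z, Uop (Γ := A) (fun i => mkL (ξ i) n) z ∈ Z) →
      (∀ n : ℕ, ∀ z ∈ Z, Uop' (Γ := A) (fun i => mkL (ξ i) n) z ∈ Z) → ∀ n : ℕ,
      Rat (M := TD (Lett Ξ) A) k (fun i => ((1 : FreeGroup (Lett Ξ)), mkL (ξ i) n, true)) Z) :
    KeyG k A Ξ := by
  intro ι _ ξ P hP hl u Y hY ε hε
  set f : A →* Sd (Lett Ξ) A := ir (Lett Ξ) A with hf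
  have hfi : Function.Injective f := ir_injective
  have hI0 : Int0 k (Sd (Lett Ξ) A) Unit := by
    intro ι' _ lab X hX
    exact Rat.int (fun m => AtiyahOver.of_injective hInt (Subgroup.subtype _)
      Subtype.val_injective) hX
  have hYI : Rat k (fun _ : ι => ()) (Ind f hfi Y) :=
    rat_ind f hfi (M := Unit) (M' := Unit) (fun _ => ()) (fun _ _ => rfl) hY
  have hPI' : CI (Ind f hfi P) := CI.ind f hfi hP
  obtain ⟨Z, hZ, hZmax, hZlarge⟩ := exists_max hI0 (fun _ : ι => ()) hPI' u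
  -- the maximiser is invariant
  have hinvar : ∀ (W W' : L2 ι (Sd (Lett Ξ) A) →L[ℂ] L2 ι (Sd (Lett Ξ) A)),
      (∀ z, W (W' z) = z) → (∀ z, W' (W z) = z) →
      LocOp k (fun _ : ι => ()) (fun _ : ι => ()) W →
      (∀ z ∈ Ind f hfi P, W z ∈ Ind f hfi P) → (∀ z ∈ Ind f hfi P, W' z ∈ Ind f hfi P) →
      ∀ z ∈ Z, W z ∈ Z := by
    intro W W' h1 h2 hW hWP hWP' z hz
    have hWe : Equivar W := hW.equivar
    have hker : kr W = ⊥ := by
      rw [eq_bot_iff]
      intro y hy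
      rw [Submodule.mem_bot, ← h2 y, mem_kr.mp hy, map_zero]
    have hdim : ∀ Q : Submodule ℂ (L2 ι (Sd (Lett Ξ) A)), CI Q → dm (imc W Q) = dm Q := by
      intro Q hQ
      have h3 := dm_imc hWe hQ
      rw [hker, inf_bot_eq, dm_bot, add_zero] at h3
      exact h3
    have hR : Rat k (fun _ : ι => ()) (imc W Z) := Rat.imc hW hZ
    have hge : dm (Ind f hfi P ⊓ Z) ≤ dm (Ind f hfi P ⊓ imc W Z) := by
      rw [← hdim _ (hPI'.inf hZ.ci)]
      apply dm_mono
      apply imc_le (hPI'.inf hR.ci).cl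
      intro y hy
      exact ⟨hWP y hy.1, mem_imc W hy.2⟩
    have h4 := hZmax _ hR
    rw [hdim _ hZ.ci] at h4
    have h5 : dm (Ind f hfi P ⊓ imc W Z) - u * dm (imc W Z)
        = dm (Ind f hfi P ⊓ Z) - u * dm Z := by
      rw [hdim _ hZ.ci]
      linarith
    exact hZlarge _ hR h5 (mem_imc W hz)
  have hPx : ∀ n : ℕ, Loc (pV fun i => mkL (ξ i) n) P := fun n =>
    loc_map (M := Ξ) (M' := Lett Ξ) (fun m : Ξ => mkL m n) (fun _ _ => rfl) (lab := ξ) hP hl
  have hUl : ∀ x : ι → Lett Ξ, LocOp k (fun _ : ι => ()) (fun _ : ι => ()) (Uop (Γ := A) x) :=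
    fun x => ⟨_, fun i p => coefIn_single k _ _ k.one_mem p, fun i p hp => rfl, rfl⟩
  have hUl' : ∀ x : ι → Lett Ξ, LocOp k (fun _ : ι => ()) (fun _ : ι => ()) (Uop' (Γ := A) x) :=
    fun x => ⟨_, fun i p => coefIn_single k _ _ k.one_mem p, fun i p hp => rfl, rfl⟩
  have hZd := hPI ι _ ξ Z hZ
    (fun n => hinvar (Uop fun i => mkL (ξ i) n) (Uop' fun i => mkL (ξ i) n) (Uop_Uop' _)
      (Uop'_Uop _) (hUl _) (Uop_ind _ hP (hPx n)) (Uop'_ind _ hP (hPx n)))
    (fun n => hinvar (Uop' fun i => mkL (ξ i) n) (Uop fun i => mkL (ξ i) n) (Uop'_Uop _)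
      (Uop_Uop' _) (hUl' _) (Uop'_ind _ hP (hPx n)) (Uop_ind _ hP (hPx n))) 0
  -- descent
  obtain ⟨R, hR, hZR⟩ := rat_desc f hfi
    (M := Ξ) (M' := TD (Lett Ξ) A)
    (fun m => ((1 : FreeGroup (Lett Ξ)), mkL m 0, true))
    (by
      intro γ m
      show ((1 : FreeGroup (Lett Ξ)), mkL (γ • m) 0, true)
        = ((1 : FreeGroup (Lett Ξ)) * phi (Lett Ξ) A γ 1, mkL (γ • m) 0, true)
      rw [map_one, mul_one])
    (by
      intro m m' h
      exact congrArg (fun q : TD (Lett Ξ) A => q.2.1.1) h)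
    (by
      intro g m m' h
      refine ⟨g.right, ?_⟩
      have h1 : g.left * phi (Lett Ξ) A g.right 1 = (1 : FreeGroup (Lett Ξ)) :=
        congrArg (fun q : TD (Lett Ξ) A => q.1) h
      rw [map_one, mul_one] at h1
      exact SemidirectProduct.ext h1.symm rfl)
    (lab := ξ) hZd
  refine ⟨R, hR, ?_⟩
  have h1 := hZmax _ hYI
  rw [hZR, ← Ind_inf, ← Ind_inf, dm_ind f hfi (hP.inf hY.ci), dm_ind f hfi hY.ci,
    dm_ind f hfi (hP.inf hR.ci), dm_ind f hfi hR.ci] at h1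
  linarith

end Pool.Agent.HL
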