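import Pool.Agent.HL.Defs

set_option autoImplicit false
set_option linter.unusedSectionVars false

noncomputable section

open scoped InnerProductSpace ENNReal Topology
open Classical Filter ContinuousLinearMap

namespace Pool.Agent.HL

open Pool.Agent.VN Pool.Agent.LFT Pool.Agent.HI Pool.Agent.HC Pool.Agent.HX

variable {k : Subring ℂ} {E U F : Type} [Group E] [Ring U] [DivisionRing F] (M : Mdl k E U F)

/-- B2: the entries of the matrix over the division ring -/
theorem mtK_emb {ι κ : Type} (A : κ → (ι × E →₀ ℂ)) (hA : ∀ j, CoefIn k (A j)) (j : κ) (i : ι) :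
    M.emb (M.mtK A j i) = M.mtx A j i := by
  have h : ∃ f : F, M.emb f = M.mtx A j i := by
    rw [← M.rng]
    refine RC_of_mem ?_
    show (A j).sum (fun p c => if p.1 = i then M.D.sc c * M.D.ι (p.2)⁻¹ else 0) ∈ _
    refine Subring.sum_mem _ fun p _ => ?_
    show (if p.1 = i then M.D.sc (A j p) * M.D.ι (p.2)⁻¹ else 0) ∈ _
    split_ifs
    · exact Subring.mul_mem _ (sc_mem_SN (M.D.restrict k) ⊤ ⟨A j p, hA j p⟩)
        (ι_mem_SN (M.D.restrict k) (N := ⊤) (Subgroup.mem_top _))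
    · exact Subring.zero_mem _
  show M.emb (if h : ∃ f : F, M.emb f = M.mtx A j i then h.choose else 0) = _
  rw [dif_pos h]
  exact h.choose_spec

/-- the value of a linear form -/
def B2_f {ι : Type} (i : ι) : (ι × E →₀ ℂ) →+ U :=
  Finsupp.liftAddHom fun p =>
    if p.1 = i then (AddMonoidHom.mulRight (M.D.ι (p.2)⁻¹)).comp M.D.sc.toAddMonoidHom else 0

theorem B2_f_single {ι : Type} (i : ι) (p : ι × E) (c : ℂ) :
    B2_f M i (Finsupp.single p c) = if p.1 = i then M.D.sc c * M.D.ι (p.2)⁻¹ else 0 := by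
  unfold B2_f
  rw [Finsupp.liftAddHom_apply_single]
  split_ifs
  · rfl
  · rfl

theorem B2_f_eq {ι κ : Type} (A : κ → (ι × E →₀ ℂ)) (j : κ) (i : ι) :
    M.mtx A j i = B2_f M i (A j) := by
  conv_rhs => rw [← Finsupp.sum_single (A j)]
  unfold Finsupp.sum
  rw [map_sum]
  show (A j).sum (fun p c => if p.1 = i then M.D.sc c * M.D.ι (p.2)⁻¹ else 0) = _
  exact Finset.sum_congr rfl fun p _ => (B2_f_single M i p _).symm

theorem B2_mul {ι κ μ : Type} [Fintype κ] (B : μ → (κ × E →₀ ℂ)) (A : κ → (ι × E →₀ ℂ))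
    (j : μ) (i : ι) : M.mtx (compF B A) j i = ∑ l, M.mtx B j l * M.mtx A l i := by
  rw [B2_f_eq]
  unfold compF
  rw [map_sum]
  have h1 : ∀ l, M.mtx B j l * M.mtx A l i = ∑ p ∈ (B j).support,
      (if p.1 = l then M.D.sc (B j p) * M.D.ι (p.2)⁻¹ else 0) * M.mtx A l i := by
    intro l
    rw [← Finset.sum_mul]
    rfl
  rw [Finset.sum_congr rfl fun l _ => h1 l, Finset.sum_comm]
  refine Finset.sum_congr rfl fun p _ => ?_
  rw [Finset.sum_eq_single p.1]
  · rw [if_pos rfl, map_sum, B2_f_eq]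
    conv_rhs => rw [← Finsupp.sum_single (A p.1)]
    unfold Finsupp.sum
    rw [map_sum, Finset.mul_sum]
    refine Finset.sum_congr rfl fun q _ => ?_
    rw [B2_f_single, B2_f_single]
    show (if q.1 = i then _ else _) = _
    split_ifs
    · rw [mul_inv_rev, map_mul, map_mul]
      show _ * (_ * _) = _
      rw [mul_assoc, mul_assoc, ← mul_assoc (M.D.ι (p.2)⁻¹), ← M.D.comm, mul_assoc]
    · rw [mul_zero]
  · intro l _ hl
    rw [if_neg (Ne.symm hl), zero_mul]
  · intro h
    exact absurd (Finset.mem_univ _) h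

/-- B2: products -/
theorem lin_comp {ι κ μ : Type} [Fintype ι] [Fintype κ] (B : μ → (κ × E →₀ ℂ))
    (A : κ → (ι × E →₀ ℂ)) (hB : ∀ j, CoefIn k (B j)) (hA : ∀ j, CoefIn k (A j)) :
    M.lin (compF B A) = M.lin B ∘ₗ M.lin A := by
  have hBA : ∀ j, CoefIn k (compF B A j) := by
    intro j
    exact coefIn_sum _ _ _ fun p _ => coefIn_sum _ _ _ fun q _ =>
      coefIn_single _ _ _ (k.mul_mem (hB j p) (hA p.1 q))
  have h1 : M.mtK (compF B A) = M.mtK B * M.mtK A := by
    funext j i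
    apply M.inj
    rw [mtK_emb M _ hBA, B2_mul, Matrix.mul_apply, map_sum]
    refine Finset.sum_congr rfl fun l _ => ?_
    rw [map_mul, mtK_emb M _ hB, mtK_emb M _ hA]
  refine LinearMap.ext fun v => ?_
  show (M.mtK (compF B A)).mulVec v = (M.mtK B).mulVec ((M.mtK A).mulVec v)
  rw [h1, Matrix.mulVec_mulVec]

/-- right vector spaces -/
def B2_e : F ≃ₗ[Fᵐᵒᵖ] Fᵐᵒᵖ where
  toFun := MulOpposite.op
  invFun := MulOpposite.unop
  map_add' _ _ := rfl
  map_smul' c x := by
    show MulOpposite.op (x * c.unop) = c * MulOpposite.op x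
    rw [MulOpposite.op_mul, MulOpposite.op_unop]
  left_inv _ := rfl
  right_inv _ := rfl

theorem B2_finrank (κ : Type) [Fintype κ] :
    Module.Finite Fᵐᵒᵖ (κ → F) ∧ Module.finrank Fᵐᵒᵖ (κ → F) = Fintype.card κ := by
  set e : (κ → F) ≃ₗ[Fᵐᵒᵖ] (κ → Fᵐᵒᵖ) := LinearEquiv.piCongrRight fun _ => B2_e with he
  refine ⟨Module.Finite.equiv e.symm, ?_⟩
  rw [e.finrank_eq, Module.finrank_fintype_fun_eq_card]

theorem B2_ker {κ μ : Type} [Fintype κ] [Fintype μ] {r : ℕ} (X : Matrix μ (Fin r) F)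
    (Y : Matrix (Fin r) κ F) (X' : Matrix (Fin r) μ F) (Y' : Matrix κ (Fin r) F)
    (hX : X' * X = 1) (hY : Y * Y' = 1) :
    Module.finrank Fᵐᵒᵖ (LinearMap.ker (Mdl.mv (X * Y))) + r = Fintype.card κ := by
  have h1 : LinearMap.ker (Mdl.mv (X * Y)) = LinearMap.ker (Mdl.mv Y) := by
    ext v
    rw [LinearMap.mem_ker, LinearMap.mem_ker]
    show (X * Y).mulVec v = 0 ↔ Y.mulVec v = 0
    constructor
    · intro h
      have h2 : X'.mulVec ((X * Y).mulVec v) = Y.mulVec v := by
        rw [Matrix.mulVec_mulVec, ← Matrix.mul_assoc, hX, Matrix.one_mul]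
      rw [← h2, h, Matrix.mulVec_zero]
    · intro h
      rw [← Matrix.mulVec_mulVec, h, Matrix.mulVec_zero]
  have h2 : LinearMap.range (Mdl.mv Y) = ⊤ := by
    rw [LinearMap.range_eq_top]
    intro w
    refine ⟨Y'.mulVec w, ?_⟩
    show Y.mulVec (Y'.mulVec w) = w
    rw [Matrix.mulVec_mulVec, hY, Matrix.one_mulVec]
  have hfin := (B2_finrank (F := F) κ).1
  have h3 := LinearMap.finrank_range_add_finrank_ker (Mdl.mv Y)
  rw [h2, finrank_top, (B2_finrank (F := F) (Fin r)).2, (B2_finrank (F := F) κ).2,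
    Fintype.card_fin] at h3
  rw [h1]
  omega

/-- the entries of a family of forms -/
def B2_a {κ : Type} (i : κ) : (κ × E →₀ ℂ) →+ (E →₀ ℂ) :=
  Finsupp.liftAddHom fun p => if p.1 = i then Finsupp.singleAddHom (p.2)⁻¹ else 0

theorem B2_a_single {κ : Type} (i : κ) (p : κ × E) (c : ℂ) :
    B2_a i (Finsupp.single p c) = if p.1 = i then Finsupp.single (p.2)⁻¹ c else 0 := by
  unfold B2_a
  rw [Finsupp.liftAddHom_apply_single]
  split_ifs
  · rfl
  · rfl

theorem B2_gr {κ : Type} (i : κ) (a : κ × E →₀ ℂ) : M.D.gr (B2_a i a) = B2_f M i a := by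
  induction a using Finsupp.induction_linear with
  | zero => rw [map_zero, map_zero, Dat.gr_zero]
  | add a b ha hb => rw [map_add, map_add, Dat.gr_add, ha, hb]
  | single p c =>
    rw [B2_a_single, B2_f_single]
    split_ifs
    · rw [Dat.gr_single]
    · exact M.D.gr_zero

theorem B2_colG {κ μ : Type} [Fintype κ] (A : μ → (κ × E →₀ ℂ)) (j : μ) :
    colG (fun j i => B2_a i (A j)) j = A j := by
  have h1 : ∀ a : κ × E →₀ ℂ,
      ∑ i, (B2_a i a).sum (fun g c => (Finsupp.single (i, g⁻¹) c : κ × E →₀ ℂ)) = a := by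
    intro a
    induction a using Finsupp.induction_linear with
    | zero => simp
    | add a b ha hb =>
      conv_rhs => rw [← ha, ← hb]
      rw [← Finset.sum_add_distrib]
      refine Finset.sum_congr rfl fun i _ => ?_
      rw [map_add, Finsupp.sum_add_index']
      · intro g; simp
      · intro g c c'; rw [Finsupp.single_add]
    | single p c =>
      rw [Finset.sum_eq_single p.1]
      · rw [B2_a_single, if_pos rfl, Finsupp.sum_single_index (by simp), inv_inv]
      · intro i _ hi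
        rw [B2_a_single, if_neg (Ne.symm hi), Finsupp.sum_zero_index]
      · intro h
        exact absurd (Finset.mem_univ _) h
  exact h1 (A j)

/-- B2: the dimension of a kernel -/
theorem dm_ker {κ μ : Type} [Fintype κ] [Fintype μ] (A : μ → (κ × E →₀ ℂ))
    (hA : ∀ j, CoefIn k (A j)) :
    dm (kr (mulR A)) = Module.finrank Fᵐᵒᵖ (LinearMap.ker (M.lin A)) := by
  have hkr : kr (mulR A) = Sol (Set.range A) := ker_mulR A
  have h1 := M.rk (fun (j : μ) (i : κ) => B2_a i (A j))
  have h2 : (colG fun (j : μ) (i : κ) => B2_a i (A j)) = A := funext fun j => B2_colG A j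
  rw [h2] at h1
  have h3 : (Matrix.of fun (j : μ) (i : κ) => M.D.gr (B2_a i (A j))) =
      (M.mtK A).map M.emb := by
    funext j i
    show M.D.gr (B2_a i (A j)) = M.emb (M.mtK A j i)
    rw [B2_gr, mtK_emb M A hA, B2_f_eq]
  obtain ⟨r, X, Y, X', Y', hXY, hX, hY⟩ := div_rank_fact (M.mtK A)
  have h4 : M.ρ.rk ((M.mtK A).map M.emb) = r := by
    refine rk_of_fact M.ρ (X := X.map M.emb) (Y := Y.map M.emb)
      (X' := X'.map M.emb) (Y' := Y'.map M.emb) ?_ ?_ ?_
    · rw [← Matrix.map_mul, ← hXY]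
    · rw [← Matrix.map_mul, hX]
      exact Matrix.map_one _ (map_zero _) (map_one _)
    · rw [← Matrix.map_mul, hY]
      exact Matrix.map_one _ (map_zero _) (map_one _)
  rw [h3, h4] at h1
  have h5 := B2_ker X Y X' Y' hX hY
  have h6 : M.lin A = Mdl.mv (X * Y) := by
    rw [← hXY]
    rfl
  have h7 : dm (kr (mulR A)) = vdim (Sol (Set.range A) : Set (L2 κ E)) := by
    rw [hkr]
    rfl
  rw [h7, h6]
  have h8 : ((Module.finrank Fᵐᵒᵖ (LinearMap.ker (Mdl.mv (X * Y))) : ℕ) : ℝ) + r =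
      Fintype.card κ := by exact_mod_cast h5
  linarith

end Pool.Agent.HL
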