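import Pool.Agent.HL.Defs
import Pool.Agent.HL.B2
import Pool.Agent.LFT.LF1

set_option autoImplicit false
set_option linter.unusedSectionVars false

noncomputable section

open scoped InnerProductSpace ENNReal Topology
open Classical Filter ContinuousLinearMap

namespace Pool.Agent.HL

open Pool.Agent.VN Pool.Agent.LFT Pool.Agent.HI Pool.Agent.HC Pool.Agent.HX

variable {k : Subring ℂ} {E U F : Type} [Group E] [Ring U] [DivisionRing F] {M : Mdl k E U F}
  {X X' : Type} [MulAction E X] [MulAction E X'] {ι ι' : Type} [Fintype ι] [Fintype ι']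

section Aux

/-- one row of the matrix -/
def B3_row (M : Mdl k E U F) {ι : Type} (a : ι × E →₀ ℂ) (i : ι) : U :=
  a.sum fun p c => if p.1 = i then M.D.sc c * M.D.ι (p.2)⁻¹ else 0

lemma B3_row_add (M : Mdl k E U F) {ι : Type} (a b : ι × E →₀ ℂ) (i : ι) :
    B3_row M (a + b) i = B3_row M a i + B3_row M b i := by
  unfold B3_row
  rw [Finsupp.sum_add_index']
  · intro p
    split_ifs
    · rw [map_zero, zero_mul]
    · rfl
  · intro p c d
    split_ifs
    · rw [map_add, add_mul]
    · rw [add_zero]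

lemma B3_emb_lin (M : Mdl k E U F) {ι κ : Type} [Fintype ι] (A : κ → (ι × E →₀ ℂ))
    (hA : ∀ j, CoefIn k (A j)) (v : ι → F) (j : κ) :
    M.emb (M.lin A v j) = ∑ i, B3_row M (A j) i * M.emb (v i) := by
  have h : M.lin A v j = ∑ i, M.mtK A j i * v i := rfl
  rw [h, map_sum]
  refine Finset.sum_congr rfl fun i _ => ?_
  rw [map_mul, mtK_emb M A hA]
  rfl

/-- a form on the left summand -/
def B3_L {κ κ' : Type} (a : κ × E →₀ ℂ) : (κ ⊕ κ') × E →₀ ℂ :=
  a.mapDomain fun p => (Sum.inl p.1, p.2)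

/-- a form on the right summand -/
def B3_R {κ κ' : Type} (a : κ' × E →₀ ℂ) : (κ ⊕ κ') × E →₀ ℂ :=
  a.mapDomain fun p => (Sum.inr p.1, p.2)

lemma B3_coefIn_map {α β : Type} (f : α → β) {a : α →₀ ℂ} (ha : CoefIn k a) :
    CoefIn k (a.mapDomain f) := by
  unfold Finsupp.mapDomain Finsupp.sum
  exact coefIn_sum _ _ _ fun p _ => coefIn_single _ _ _ (ha p)

lemma B3_ev_map {κ κ' : Type} (f : κ → κ') (a : κ × E →₀ ℂ) (x : κ' × E → ℂ) (g : E) :
    ev (a.mapDomain fun p => (f p.1, p.2)) x g = ev a (fun q => x (f q.1, q.2)) g := by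
  unfold ev
  rw [Finsupp.sum_mapDomain_index]
  · intro p
    rw [zero_mul]
  · intro p c d
    rw [add_mul]

lemma B3_ev_L {κ κ' : Type} [Fintype κ] [Fintype κ'] (a : κ × E →₀ ℂ) (x : L2 (κ ⊕ κ') E)
    (g : E) : ev (B3_L a) x g = ev a (prL x) g := by
  unfold B3_L
  rw [B3_ev_map]
  congr 1
  funext q
  rw [prL_apply]

lemma B3_ev_R {κ κ' : Type} [Fintype κ] [Fintype κ'] (a : κ' × E →₀ ℂ) (x : L2 (κ ⊕ κ') E)
    (g : E) : ev (B3_R a) x g = ev a (prR x) g := by
  unfold B3_R
  rw [B3_ev_map]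
  congr 1
  funext q
  rw [prR_apply]

lemma B3_lab_map {κ κ' : Type} (f : κ → κ') {labκ : κ → X} {labκ' : κ' → X}
    (hf : ∀ i, labκ' (f i) = labκ i) {a : κ × E →₀ ℂ} {m : X}
    (ha : ∀ p ∈ a.support, p.2⁻¹ • labκ p.1 = m) :
    ∀ p ∈ (a.mapDomain fun p => (f p.1, p.2)).support, p.2⁻¹ • labκ' p.1 = m := by
  intro p hp
  obtain ⟨q, hq, rfl⟩ := Finset.mem_image.1 (Finsupp.mapDomain_support hp)
  show q.2⁻¹ • labκ' (f q.1) = m
  rw [hf]
  exact ha q hq

lemma B3_row_map (M : Mdl k E U F) {κ κ' : Type} (f : κ → κ') (a : κ × E →₀ ℂ) (i : κ') :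
    B3_row M (a.mapDomain fun p => (f p.1, p.2)) i =
      a.sum fun p c => if f p.1 = i then M.D.sc c * M.D.ι (p.2)⁻¹ else 0 := by
  unfold B3_row
  rw [Finsupp.sum_mapDomain_index]
  · intro p
    split_ifs
    · rw [map_zero, zero_mul]
    · rfl
  · intro p c d
    split_ifs
    · rw [map_add, add_mul]
    · rw [add_zero]

lemma B3_sum_L (M : Mdl k E U F) {κ κ' : Type} [Fintype κ] [Fintype κ'] (a : κ × E →₀ ℂ)
    (v : κ ⊕ κ' → F) : ∑ i, B3_row M (B3_L a) i * M.emb (v i) =
      ∑ i, B3_row M a i * M.emb (v (Sum.inl i)) := by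
  rw [Fintype.sum_sum_type]
  have h1 : ∑ i : κ', B3_row M (B3_L a) (Sum.inr i) * M.emb (v (Sum.inr i)) = 0 := by
    refine Finset.sum_eq_zero fun i _ => ?_
    have : B3_row M (B3_L (κ' := κ') a) (Sum.inr i) = 0 := by
      unfold B3_L
      rw [B3_row_map]
      exact Finset.sum_eq_zero fun p _ => if_neg (by simp)
    rw [this, zero_mul]
  rw [h1, add_zero]
  refine Finset.sum_congr rfl fun i _ => ?_
  congr 1
  unfold B3_L
  rw [B3_row_map]
  unfold B3_row
  refine Finset.sum_congr rfl fun p _ => ?_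
  simp

lemma B3_sum_R (M : Mdl k E U F) {κ κ' : Type} [Fintype κ] [Fintype κ'] (a : κ' × E →₀ ℂ)
    (v : κ ⊕ κ' → F) : ∑ i, B3_row M (B3_R a) i * M.emb (v i) =
      ∑ i, B3_row M a i * M.emb (v (Sum.inr i)) := by
  rw [Fintype.sum_sum_type]
  have h1 : ∑ i : κ, B3_row M (B3_R a) (Sum.inl i) * M.emb (v (Sum.inl i)) = 0 := by
    refine Finset.sum_eq_zero fun i _ => ?_
    have : B3_row M (B3_R (κ := κ) a) (Sum.inl i) = 0 := by
      unfold B3_R
      rw [B3_row_map]
      exact Finset.sum_eq_zero fun p _ => if_neg (by simp)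
    rw [this, zero_mul]
  rw [h1, zero_add]
  refine Finset.sum_congr rfl fun i _ => ?_
  congr 1
  unfold B3_R
  rw [B3_row_map]
  unfold B3_row
  refine Finset.sum_congr rfl fun p _ => ?_
  simp

lemma B3_imc_both {κ κ' : Type} [Fintype κ] [Fintype κ'] {X : Submodule ℂ (L2 κ E)}
    {Y : Submodule ℂ (L2 κ' E)} (T : L2 κ E →L[ℂ] L2 ι E) (T' : L2 κ' E →L[ℂ] L2 ι E) :
    imc (T ∘L prL + T' ∘L prR) (LF1_both X Y) = csup (imc T X) (imc T' Y) := by
  symm
  apply le_antisymm
  · apply csup_le (Submodule.isClosed_topologicalClosure _)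
    · apply imc_le (Submodule.isClosed_topologicalClosure _)
      intro x hx
      have h := mem_imc (T ∘L prL + T' ∘L prR) (X := LF1_both X Y)
        (x := inL x) (LF1_mem_both.mpr ⟨by rw [prL_inL]; exact hx,
          by rw [prR_inL]; exact Submodule.zero_mem _⟩)
      rw [_root_.add_apply, ContinuousLinearMap.comp_apply, ContinuousLinearMap.comp_apply,
        prL_inL, prR_inL, map_zero, add_zero] at h
      exact h
    · apply imc_le (Submodule.isClosed_topologicalClosure _)
      intro x hx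
      have h := mem_imc (T ∘L prL + T' ∘L prR) (X := LF1_both X Y)
        (x := inR x) (LF1_mem_both.mpr ⟨by rw [prL_inR]; exact Submodule.zero_mem _,
          by rw [prR_inR]; exact hx⟩)
      rw [_root_.add_apply, ContinuousLinearMap.comp_apply, ContinuousLinearMap.comp_apply,
        prL_inR, prR_inR, map_zero, zero_add] at h
      exact h
  · apply imc_le (Submodule.isClosed_topologicalClosure _)
    intro z hz
    rw [LF1_mem_both] at hz
    rw [_root_.add_apply, ContinuousLinearMap.comp_apply, ContinuousLinearMap.comp_apply]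
    exact Submodule.add_mem _ (le_csup_left _ _ (mem_imc T hz.1))
      (le_csup_right _ _ (mem_imc T' hz.2))

instance B3_finite : Module.Finite Fᵐᵒᵖ F :=
  ⟨⟨{1}, by
    rw [eq_top_iff]
    intro x _
    have h : x = (MulOpposite.op x) • (1 : F) := by
      rw [MulOpposite.smul_eq_mul_unop, MulOpposite.unop_op, one_mul]
    rw [h]
    exact Submodule.smul_mem _ _ (Submodule.subset_span (by simp))⟩⟩

lemma B3_ker_elim (M : Mdl k E U F) {κ μ μ' : Type} [Fintype κ] (As : μ → (κ × E →₀ ℂ))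
    (At : μ' → (κ × E →₀ ℂ)) :
    LinearMap.ker (M.lin (Sum.elim As At)) = LinearMap.ker (M.lin As) ⊓ LinearMap.ker (M.lin At) := by
  ext v
  rw [Submodule.mem_inf, LinearMap.mem_ker, LinearMap.mem_ker, LinearMap.mem_ker]
  constructor
  · intro h
    constructor
    · funext j
      exact congrFun h (Sum.inl j)
    · funext j
      exact congrFun h (Sum.inr j)
  · rintro ⟨h1, h2⟩
    funext j
    rcases j with j | j
    · exact congrFun h1 j
    · exact congrFun h2 j

lemma B3_kr_elim {κ μ μ' : Type} [Fintype μ] [Fintype μ'] (As : μ → (κ × E →₀ ℂ))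
    (At : μ' → (κ × E →₀ ℂ)) :
    kr (mulR (Sum.elim As At)) = kr (mulR As) ⊓ kr (mulR At) := by
  ext z
  rw [Submodule.mem_inf, mem_kr, mem_kr, mem_kr]
  constructor
  · intro h
    constructor
    · ext ⟨j, g⟩
      have h1 := congrArg (fun y : L2 (μ ⊕ μ') E => y (Sum.inl j, g)) h
      simp only [mulR_apply, Sum.elim_inl] at h1
      rw [mulR_apply]
      exact h1
    · ext ⟨j, g⟩
      have h1 := congrArg (fun y : L2 (μ ⊕ μ') E => y (Sum.inr j, g)) h
      simp only [mulR_apply, Sum.elim_inr] at h1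
      rw [mulR_apply]
      exact h1
  · rintro ⟨h1, h2⟩
    ext ⟨j, g⟩
    rw [mulR_apply]
    rcases j with j | j
    · have h3 := congrArg (fun y : L2 μ E => y (j, g)) h1
      simp only [mulR_apply] at h3
      exact h3
    · have h3 := congrArg (fun y : L2 μ' E => y (j, g)) h2
      simp only [mulR_apply] at h3
      exact h3

end Aux

/-- B3 -/
theorem rr_rat {lab : ι → X} {Z : Submodule ℂ (L2 ι E)} {W : Submodule Fᵐᵒᵖ (ι → F)}
    (h : M.RR lab Z W) : Rat k lab Z := by
  obtain ⟨κ, μ, _, _, labκ, labμ, As, At, h1, h2, h3, h4, rfl, rfl⟩ := h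
  exact ⟨κ, μ, inferInstance, inferInstance, labκ, labμ, mulR As, mulR At, ⟨As, h1, h2, rfl⟩,
    ⟨At, h3, h4, rfl⟩, rfl⟩

/-- B3 -/
theorem rr_exists (M : Mdl k E U F) {lab : ι → X} {Z : Submodule ℂ (L2 ι E)} (h : Rat k lab Z) :
    ∃ W, M.RR lab Z W := by
  obtain ⟨κ, μ, _, _, labκ, labμ, S, T, ⟨As, h1, h2, rfl⟩, ⟨At, h3, h4, rfl⟩, rfl⟩ := h
  exact ⟨_, κ, μ, inferInstance, inferInstance, labκ, labμ, As, At, h1, h2, h3, h4, rfl, rfl⟩

/-- B3 -/
theorem rr_map (f : X → X') (hf : Eqv E f) {lab : ι → X} {Z : Submodule ℂ (L2 ι E)}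
    {W : Submodule Fᵐᵒᵖ (ι → F)} (h : M.RR lab Z W) : M.RR (fun i => f (lab i)) Z W := by
  obtain ⟨κ, μ, _, _, labκ, labμ, As, At, h1, h2, h3, h4, h5, h6⟩ := h
  refine ⟨κ, μ, inferInstance, inferInstance, fun i => f (labκ i), fun j => f (labμ j), As, At,
    h1, fun j p hp => ?_, h3, fun j p hp => ?_, h5, h6⟩
  · rw [← hf, h2 j p hp]
  · rw [← hf, h4 j p hp]

/-- B3 -/
theorem rr_imc {lab : ι → X} {lab' : ι' → X} (A : ι' → (ι × E →₀ ℂ)) (hA : ∀ j, CoefIn k (A j))
    (hl : ∀ j, ∀ p ∈ (A j).support, p.2⁻¹ • lab p.1 = lab' j) {Z : Submodule ℂ (L2 ι E)}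
    {W : Submodule Fᵐᵒᵖ (ι → F)} (h : M.RR lab Z W) :
    M.RR lab' (imc (mulR A) Z) (W.map (M.lin A)) := by
  obtain ⟨κ, μ, _, _, labκ, labμ, As, At, h1, h2, h3, h4, rfl, rfl⟩ := h
  refine ⟨κ, μ, inferInstance, inferInstance, labκ, labμ, As, compF A At, h1, h2, ?_, ?_, ?_, ?_⟩
  · intro j
    exact coefIn_sum _ _ _ fun p _ => coefIn_sum _ _ _ fun q _ =>
      coefIn_single _ _ _ (k.mul_mem (hA j p) (h3 p.1 q))
  · intro j r hr
    obtain ⟨p, hp, q, hq, rfl⟩ := support_compF A At j hr
    simp only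
    rw [mul_inv_rev, mul_smul, h4 p.1 q hq, hl j p hp]
  · rw [imc_imc, mulR_compF]
  · rw [lin_comp M A At hA h3, Submodule.map_comp]

/-- B3 -/
theorem rr_csup {lab : ι → X} {Z Z' : Submodule ℂ (L2 ι E)} {W W' : Submodule Fᵐᵒᵖ (ι → F)}
    (h : M.RR lab Z W) (h' : M.RR lab Z' W') : M.RR lab (csup Z Z') (W ⊔ W') := by
  obtain ⟨κ, μ, _, _, labκ, labμ, As, At, h1, h2, h3, h4, rfl, rfl⟩ := h
  obtain ⟨κ', μ', _, _, labκ', labμ', As', At', h1', h2', h3', h4', rfl, rfl⟩ := h'
  set S : μ ⊕ μ' → ((κ ⊕ κ') × E →₀ ℂ) :=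
    Sum.elim (fun j => B3_L (As j)) (fun j => B3_R (As' j)) with hS
  set T : ι → ((κ ⊕ κ') × E →₀ ℂ) := fun j => B3_L (At j) + B3_R (At' j) with hT
  have hSc : ∀ j, CoefIn k (S j) := by
    rintro (j | j)
    · exact B3_coefIn_map _ (h1 j)
    · exact B3_coefIn_map _ (h1' j)
  have hTc : ∀ j, CoefIn k (T j) := by
    intro j p
    rw [hT, Finsupp.add_apply]
    exact k.add_mem (B3_coefIn_map _ (h3 j) p) (B3_coefIn_map _ (h3' j) p)
  refine ⟨κ ⊕ κ', μ ⊕ μ', inferInstance, inferInstance, Sum.elim labκ labκ', Sum.elim labμ labμ',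
    S, T, hSc, ?_, hTc, ?_, ?_, ?_⟩
  · rintro (j | j)
    · exact B3_lab_map Sum.inl (fun _ => rfl) (h2 j)
    · exact B3_lab_map Sum.inr (fun _ => rfl) (h2' j)
  · intro j p hp
    rcases Finset.mem_union.mp (Finsupp.support_add hp) with h | h
    · exact B3_lab_map (labκ' := Sum.elim labκ labκ') Sum.inl (fun _ => rfl) (h4 j) p h
    · exact B3_lab_map (labκ' := Sum.elim labκ labκ') Sum.inr (fun _ => rfl) (h4' j) p h
  · have e1 : kr (mulR S) = LF1_both (kr (mulR As)) (kr (mulR As')) := by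
      ext z
      rw [LF1_mem_both, mem_kr, mem_kr, mem_kr]
      constructor
      · intro h
        constructor
        · ext ⟨j, g⟩
          have h5 := congrArg (fun y : L2 (μ ⊕ μ') E => y (Sum.inl j, g)) h
          simp only [mulR_apply, hS, Sum.elim_inl, B3_ev_L] at h5
          rw [mulR_apply]
          exact h5
        · ext ⟨j, g⟩
          have h5 := congrArg (fun y : L2 (μ ⊕ μ') E => y (Sum.inr j, g)) h
          simp only [mulR_apply, hS, Sum.elim_inr, B3_ev_R] at h5
          rw [mulR_apply]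
          exact h5
      · rintro ⟨h5, h6⟩
        ext ⟨j, g⟩
        rw [mulR_apply]
        rcases j with j | j
        · have h7 := congrArg (fun y : L2 μ E => y (j, g)) h5
          simp only [mulR_apply] at h7
          simp only [hS, Sum.elim_inl, B3_ev_L]
          exact h7
        · have h7 := congrArg (fun y : L2 μ' E => y (j, g)) h6
          simp only [mulR_apply] at h7
          simp only [hS, Sum.elim_inr, B3_ev_R]
          exact h7
    have e2 : mulR T = mulR At ∘L prL + mulR At' ∘L prR := by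
      ext x q
      rw [mulR_apply, _root_.add_apply, lp.coeFn_add, Pi.add_apply,
        ContinuousLinearMap.comp_apply, ContinuousLinearMap.comp_apply, mulR_apply, mulR_apply]
      show ev (B3_L (At q.1) + B3_R (At' q.1)) x q.2 = _
      rw [ev_add, B3_ev_L, B3_ev_R]
    rw [e1, e2, B3_imc_both]
  · have hker : ∀ v : κ ⊕ κ' → F, M.lin S v = 0 ↔
        M.lin As (fun i => v (Sum.inl i)) = 0 ∧ M.lin As' (fun i => v (Sum.inr i)) = 0 := by
      intro v
      have a1 : ∀ j, M.lin S v (Sum.inl j) = M.lin As (fun i => v (Sum.inl i)) j := by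
        intro j
        apply M.inj
        rw [B3_emb_lin M S hSc, B3_emb_lin M As h1]
        exact B3_sum_L M (As j) v
      have a2 : ∀ j, M.lin S v (Sum.inr j) = M.lin As' (fun i => v (Sum.inr i)) j := by
        intro j
        apply M.inj
        rw [B3_emb_lin M S hSc, B3_emb_lin M As' h1']
        exact B3_sum_R M (As' j) v
      constructor
      · intro h
        constructor
        · funext j
          rw [← a1, h]
          rfl
        · funext j
          rw [← a2, h]
          rfl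
      · rintro ⟨h5, h6⟩
        funext j
        rcases j with j | j
        · rw [a1, h5]
          rfl
        · rw [a2, h6]
          rfl
    have hlin : ∀ v : κ ⊕ κ' → F, M.lin T v =
        M.lin At (fun i => v (Sum.inl i)) + M.lin At' (fun i => v (Sum.inr i)) := by
      intro v
      funext j
      apply M.inj
      rw [Pi.add_apply, map_add, B3_emb_lin M T hTc, B3_emb_lin M At h3, B3_emb_lin M At' h3',
        ← B3_sum_L, ← B3_sum_R, ← Finset.sum_add_distrib]
      refine Finset.sum_congr rfl fun i _ => ?_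
      rw [← add_mul, ← B3_row_add]
    apply le_antisymm
    · refine sup_le ?_ ?_
      · rintro _ ⟨w, hw, rfl⟩
        refine ⟨Sum.elim w 0, ?_, ?_⟩
        · show M.lin S (Sum.elim w 0) = 0
          rw [hker]
          exact ⟨hw, map_zero (M.lin As')⟩
        · rw [hlin]
          have : M.lin At' (fun i => Sum.elim w 0 (Sum.inr i)) = 0 := map_zero (M.lin At')
          rw [this, add_zero]
          rfl
      · rintro _ ⟨w, hw, rfl⟩
        refine ⟨Sum.elim 0 w, ?_, ?_⟩
        · show M.lin S (Sum.elim 0 w) = 0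
          rw [hker]
          exact ⟨map_zero (M.lin As), hw⟩
        · rw [hlin]
          have : M.lin At (fun i => Sum.elim 0 w (Sum.inl i)) = 0 := map_zero (M.lin At)
          rw [this, zero_add]
          rfl
    · rintro _ ⟨v, hv, rfl⟩
      have hv' : M.lin S v = 0 := hv
      rw [hker] at hv'
      rw [hlin]
      exact Submodule.add_mem_sup ⟨_, hv'.1, rfl⟩ ⟨_, hv'.2, rfl⟩

/-- B3 -/
theorem rr_top (M : Mdl k E U F) (lab : ι → X) : M.RR lab ⊤ ⊤ := by
  have hc : ∀ j : ι, CoefIn k (Finsupp.single (j, (1 : E)) (1 : ℂ)) := fun j =>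
    coefIn_single _ _ _ k.one_mem
  refine ⟨ι, Empty, inferInstance, inferInstance, lab, Empty.elim, Empty.elim,
    fun j => Finsupp.single (j, 1) 1, fun j => j.elim, fun j => j.elim, hc, ?_, ?_, ?_⟩
  · intro j p hp
    have h1 := Finset.mem_singleton.mp (Finsupp.support_single_subset hp)
    subst h1
    simp
  · have e1 : mulR (fun j : ι => Finsupp.single (j, (1 : E)) (1 : ℂ)) =
        ContinuousLinearMap.id ℂ (L2 ι E) := by
      ext x q
      rw [mulR_apply, ev_single]
      simp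
    rw [e1, imc_id (kr_closed _)]
    symm
    rw [eq_top_iff]
    intro x _
    rw [mem_kr]
    ext ⟨j, g⟩
    exact j.elim
  · symm
    rw [eq_top_iff]
    intro v _
    refine ⟨v, ?_, ?_⟩
    · show M.lin Empty.elim v = 0
      funext j
      exact j.elim
    · funext j
      apply M.inj
      rw [B3_emb_lin M _ hc, Finset.sum_eq_single j]
      · have : B3_row M (Finsupp.single (j, (1 : E)) (1 : ℂ)) j = 1 := by
          unfold B3_row
          rw [Finsupp.sum_single_index]
          · rw [if_pos rfl, map_one, inv_one, map_one, one_mul]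
          · rw [if_pos rfl, map_zero, zero_mul]
        rw [this, one_mul]
      · intro i _ hi
        have : B3_row M (Finsupp.single (j, (1 : E)) (1 : ℂ)) i = 0 := by
          unfold B3_row
          rw [Finsupp.sum_single_index]
          · exact if_neg (Ne.symm hi)
          · exact if_neg (Ne.symm hi)
        rw [this, zero_mul]
      · intro h
        exact absurd (Finset.mem_univ j) h

/-- B3 -/
theorem rr_bot (M : Mdl k E U F) (lab : ι → X) : M.RR lab ⊥ ⊥ := by
  refine ⟨Empty, Empty, inferInstance, inferInstance, Empty.elim, Empty.elim, Empty.elim,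
    fun _ => 0, fun j => j.elim, fun j => j.elim, ?_, ?_, ?_, ?_⟩
  · intro j p
    exact p.1.elim
  · intro j p
    exact p.1.elim
  · symm
    rw [eq_bot_iff]
    refine imc_le ?_ ?_
    · rw [Submodule.bot_coe]
      exact isClosed_singleton
    · intro x _
      rw [Submodule.mem_bot]
      ext q
      rw [mulR_apply, ev_zero]
      rfl
  · symm
    rw [eq_bot_iff]
    rintro _ ⟨v, -, rfl⟩
    have : v = 0 := by
      funext i
      exact i.elim
    rw [this, map_zero]
    exact Submodule.zero_mem _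

/-- B3 -/
theorem rr_dim {lab : ι → X} {Z : Submodule ℂ (L2 ι E)} {W : Submodule Fᵐᵒᵖ (ι → F)}
    (h : M.RR lab Z W) : dm Z = Module.finrank Fᵐᵒᵖ W := by
  obtain ⟨κ, μ, _, _, labκ, labμ, As, At, h1, h2, h3, h4, rfl, rfl⟩ := h
  have e1 := dm_imc (mulR_equivar At) (CI.kr (mulR_equivar As))
  have e2 := dm_ker M As h1
  have e3 := dm_ker M (Sum.elim As At) (by
    rintro (j | j)
    · exact h1 j
    · exact h3 j)
  rw [B3_kr_elim, B3_ker_elim] at e3
  have e4 := LinearMap.finrank_range_add_finrank_ker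
    ((M.lin At).domRestrict (LinearMap.ker (M.lin As)))
  rw [LinearMap.range_domRestrict, LinearMap.ker_domRestrict] at e4
  have e5 : Module.finrank Fᵐᵒᵖ (Submodule.comap (LinearMap.ker (M.lin As)).subtype
      (LinearMap.ker (M.lin At))) =
      Module.finrank Fᵐᵒᵖ (LinearMap.ker (M.lin As) ⊓ LinearMap.ker (M.lin At) : Submodule _ _) := by
    rw [← Submodule.map_comap_subtype]
    exact (LinearEquiv.finrank_eq (Submodule.equivMapOfInjective _
      (Submodule.injective_subtype _) _))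
  rw [e5] at e4
  rw [e2, e3] at e1
  have e6 : ((Module.finrank Fᵐᵒᵖ (Submodule.map (M.lin At) (LinearMap.ker (M.lin As))) : ℕ) : ℝ) +
      (Module.finrank Fᵐᵒᵖ (LinearMap.ker (M.lin As) ⊓ LinearMap.ker (M.lin At) :
        Submodule _ _) : ℕ) = (Module.finrank Fᵐᵒᵖ (LinearMap.ker (M.lin As)) : ℕ) := by
    exact_mod_cast e4
  linarith

end Pool.Agent.HL
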