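import Pool.Agent.HL.Defs
import Pool.Agent.HL.B3

set_option autoImplicit false
set_option linter.unusedSectionVars false

noncomputable section

open scoped InnerProductSpace ENNReal Topology
open Classical Filter ContinuousLinearMap

namespace Pool.Agent.HL

open Pool.Agent.VN Pool.Agent.LFT Pool.Agent.HI Pool.Agent.HC Pool.Agent.HX

variable {k : Subring ℂ} {E U F : Type} [Group E] [Ring U] [DivisionRing F] {M : Mdl k E U F}
  {X X' : Type} [MulAction E X] [MulAction E X'] {ι ι' : Type} [Fintype ι] [Fintype ι']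

private instance B4_fin1 : Module.Finite Fᵐᵒᵖ F := ⟨⟨{1}, by
  rw [eq_top_iff]
  intro x _
  rw [Finset.coe_singleton, Submodule.mem_span_singleton]
  exact ⟨MulOpposite.op x, one_mul x⟩⟩⟩

/-- B4 -/
theorem rr_le {lab : ι → X} {lab' : ι → X'} {Z Z' : Submodule ℂ (L2 ι E)}
    {W W' : Submodule Fᵐᵒᵖ (ι → F)} (h : M.RR lab Z W) (h' : M.RR lab' Z' W') :
    Z ≤ Z' ↔ W ≤ W' := by
  have g : M.RR (fun _ : ι => ()) Z W := rr_map (fun _ => ()) (fun _ _ => rfl) h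
  have g' : M.RR (fun _ : ι => ()) Z' W' := rr_map (fun _ => ()) (fun _ _ => rfl) h'
  have s := rr_csup g g'
  have cZ := (rr_rat g).ci
  have cZ' := (rr_rat g').ci
  have d1 := rr_dim s
  have d2 := rr_dim g'
  constructor
  · intro hZ
    have e : csup Z Z' = Z' := le_antisymm (csup_le cZ'.cl hZ le_rfl) (le_csup_right _ _)
    rw [e, d2] at d1
    have e1 : Module.finrank Fᵐᵒᵖ W' = Module.finrank Fᵐᵒᵖ (W ⊔ W' : Submodule Fᵐᵒᵖ (ι → F)) := by
      exact_mod_cast d1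
    have e2 : W' = W ⊔ W' := Submodule.eq_of_le_of_finrank_le le_sup_right e1.ge
    rw [e2]
    exact le_sup_left
  · intro hW
    have e : W ⊔ W' = W' := sup_eq_right.2 hW
    rw [e] at d1
    have e1 : dm (csup Z Z') = dm Z' := d1.trans d2.symm
    have e2 : Z' = csup Z Z' :=
      eq_of_le_of_dm cZ' (CI.csup cZ.inv cZ'.inv) (le_csup_right _ _) e1.le
    rw [e2]
    exact le_csup_left _ _

/-- B4 -/
theorem rr_inf {lab : ι → X} {Z Z' : Submodule ℂ (L2 ι E)} {W W' : Submodule Fᵐᵒᵖ (ι → F)}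
    (h : M.RR lab Z W) (h' : M.RR lab Z' W') : M.RR lab (Z ⊓ Z') (W ⊓ W') := by
  have r : Rat k lab (Z ⊓ Z') := (rr_rat h).inf (rr_rat h')
  obtain ⟨W'', hW''⟩ := rr_exists M r
  have l1 : W'' ≤ W := (rr_le hW'' h).1 inf_le_left
  have l2 : W'' ≤ W' := (rr_le hW'' h').1 inf_le_right
  have s := rr_csup h h'
  have e1 := dm_csup (rr_rat h).ci (rr_rat h').ci
  rw [rr_dim s, rr_dim hW'', rr_dim h, rr_dim h'] at e1
  have e2 := Submodule.finrank_sup_add_finrank_inf_eq W W'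
  have e3 : Module.finrank Fᵐᵒᵖ (W ⊔ W' : Submodule Fᵐᵒᵖ (ι → F)) + Module.finrank Fᵐᵒᵖ W'' =
      Module.finrank Fᵐᵒᵖ W + Module.finrank Fᵐᵒᵖ W' := by exact_mod_cast e1
  have e : W'' = W ⊓ W' := Submodule.eq_of_le_of_finrank_le (le_inf l1 l2) (by omega)
  rw [← e]
  exact hW''

private lemma B4_dim (f : (ι → F) →ₗ[Fᵐᵒᵖ] (ι' → F)) (W : Submodule Fᵐᵒᵖ (ι' → F)) :
    Module.finrank Fᵐᵒᵖ (W.comap f) =
      Module.finrank Fᵐᵒᵖ (LinearMap.ker f) +
        Module.finrank Fᵐᵒᵖ ((⊤ : Submodule Fᵐᵒᵖ (ι → F)).map f ⊓ W : Submodule Fᵐᵒᵖ (ι' → F)) := by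
  have h1 := LinearMap.finrank_range_add_finrank_ker (f.domRestrict (W.comap f))
  have h2 : LinearMap.range (f.domRestrict (W.comap f)) = (⊤ : Submodule Fᵐᵒᵖ (ι → F)).map f ⊓ W := by
    rw [LinearMap.range_domRestrict, Submodule.map_comap_eq, Submodule.map_top]
  have h3 : LinearMap.ker f ≤ W.comap f := by
    intro x hx
    rw [Submodule.mem_comap, LinearMap.mem_ker.1 hx]
    exact zero_mem _
  have h4 : LinearMap.ker (f.domRestrict (W.comap f)) =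
      (LinearMap.ker f).comap (W.comap f).subtype := by
    rw [LinearMap.ker_domRestrict]
  have h5 : Module.finrank Fᵐᵒᵖ ((LinearMap.ker f).comap (W.comap f).subtype) =
      Module.finrank Fᵐᵒᵖ (LinearMap.ker f) :=
    (Submodule.comapSubtypeEquivOfLe h3).finrank_eq
  rw [h2, h4, h5] at h1
  omega

/-- B4 -/
theorem rr_comap {lab : ι → X} {lab' : ι' → X} (A : ι' → (ι × E →₀ ℂ))
    (hA : ∀ j, CoefIn k (A j)) (hl : ∀ j, ∀ p ∈ (A j).support, p.2⁻¹ • lab p.1 = lab' j)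
    {Z : Submodule ℂ (L2 ι' E)} {W : Submodule Fᵐᵒᵖ (ι' → F)} (h : M.RR lab' Z W) :
    M.RR lab (Z.comap (mulR A : L2 ι E →L[ℂ] L2 ι' E).toLinearMap) (W.comap (M.lin A)) := by
  have hloc : LocOp k lab lab' (mulR A : L2 ι E →L[ℂ] L2 ι' E) := ⟨A, hA, hl, rfl⟩
  have cZ : CI Z := (rr_rat h).ci
  have r : Rat k lab (Z.comap (mulR A : L2 ι E →L[ℂ] L2 ι' E).toLinearMap) :=
    rat_comap hloc (rr_rat h)
  obtain ⟨W1, hW1⟩ := rr_exists M r
  have himc : imc (mulR A : L2 ι E →L[ℂ] L2 ι' E)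
      (Z.comap (mulR A : L2 ι E →L[ℂ] L2 ι' E).toLinearMap) ≤ Z := imc_le cZ.cl (fun x hx => hx)
  have m1 := rr_imc A hA hl hW1
  have l1 : W1.map (M.lin A) ≤ W := (rr_le m1 h).1 himc
  have l2 : W1 ≤ W.comap (M.lin A) := Submodule.map_le_iff_le_comap.1 l1
  have d1 := dm_comap hloc.equivar (CI.top) cZ
  have m2 := rr_inf (rr_imc A hA hl (rr_top M lab)) h
  rw [top_inf_eq, top_inf_eq, rr_dim hW1, rr_dim m2, dm_ker M A hA] at d1
  have d2 := B4_dim (M.lin A) W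
  have d3 : Module.finrank Fᵐᵒᵖ W1 = Module.finrank Fᵐᵒᵖ (LinearMap.ker (M.lin A)) +
      Module.finrank Fᵐᵒᵖ
        ((⊤ : Submodule Fᵐᵒᵖ (ι → F)).map (M.lin A) ⊓ W : Submodule Fᵐᵒᵖ (ι' → F)) := by
    exact_mod_cast d1
  have e : W1 = W.comap (M.lin A) := Submodule.eq_of_le_of_finrank_le l2 (by omega)
  rw [← e]
  exact hW1

end Pool.Agent.HL
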