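import Pool.Agent.HL.Defs
import Pool.Agent.HL.B3

set_option autoImplicit false
set_option linter.unusedSectionVars false

noncomputable section

open scoped InnerProductSpace ENNReal Topology
open Classical Filter ContinuousLinearMap

namespace Pool.Agent.HL

open Pool.Agent.VN Pool.Agent.LFT Pool.Agent.HI Pool.Agent.HC Pool.Agent.HX

variable {k : Subring ℂ} {E U F : Type} [Group E] [Ring U] [DivisionRing F]

/-- the form on the coordinate `i` attached to an element of the group ring -/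
def B5_F {κ : Type} (i : κ) (a : E →₀ ℂ) : κ × E →₀ ℂ :=
  a.sum fun h c => Finsupp.single (i, h⁻¹) c

/-- the entry of a form in a column -/
def B5_ent (M : Mdl k E U F) {κ : Type} (f : κ × E →₀ ℂ) (i : κ) : U :=
  f.sum fun p c => if p.1 = i then M.D.sc c * M.D.ι (p.2)⁻¹ else 0

lemma B5_ent_add (M : Mdl k E U F) {κ : Type} (f f' : κ × E →₀ ℂ) (i : κ) :
    B5_ent M (f + f') i = B5_ent M f i + B5_ent M f' i := by
  unfold B5_ent
  rw [Finsupp.sum_add_index']
  · intro p; simp
  · intro p c c'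
    split_ifs
    · rw [map_add, add_mul]
    · rw [add_zero]

lemma B5_ent_zero (M : Mdl k E U F) {κ : Type} (i : κ) :
    B5_ent M (0 : κ × E →₀ ℂ) i = 0 := by
  unfold B5_ent
  rw [Finsupp.sum_zero_index]

lemma B5_ent_neg (M : Mdl k E U F) {κ : Type} (f : κ × E →₀ ℂ) (i : κ) :
    B5_ent M (-f) i = -B5_ent M f i := by
  have h := B5_ent_add M (-f) f i
  rw [neg_add_cancel, B5_ent_zero] at h
  exact eq_neg_of_add_eq_zero_left h.symm

lemma B5_ent_sum (M : Mdl k E U F) {κ σ : Type} (s : Finset σ) (f : σ → (κ × E →₀ ℂ)) (i : κ) :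
    B5_ent M (∑ a ∈ s, f a) i = ∑ a ∈ s, B5_ent M (f a) i := by
  induction s using Finset.induction_on with
  | empty => rw [Finset.sum_empty, Finset.sum_empty, B5_ent_zero]
  | insert a s ha ih => rw [Finset.sum_insert ha, Finset.sum_insert ha, B5_ent_add, ih]

lemma B5_ent_single (M : Mdl k E U F) {κ : Type} (i i' : κ) (h : E) (c : ℂ) :
    B5_ent M (Finsupp.single (i, h) c) i' = if i = i' then M.D.sc c * M.D.ι h⁻¹ else 0 := by
  unfold B5_ent
  rw [Finsupp.sum_single_index]
  simp

lemma B5_ent_F (M : Mdl k E U F) {κ : Type} (i i' : κ) (a : E →₀ ℂ) :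
    B5_ent M (B5_F i a) i' = if i = i' then M.D.gr a else 0 := by
  unfold B5_F Dat.gr Finsupp.sum
  rw [B5_ent_sum]
  split_ifs with h
  · refine Finset.sum_congr rfl fun g _ => ?_
    rw [B5_ent_single, if_pos h, inv_inv]
  · refine Finset.sum_eq_zero fun g _ => ?_
    rw [B5_ent_single, if_neg h]

lemma B5_F_support {κ : Type} (i : κ) (a : E →₀ ℂ) {p : κ × E} (hp : p ∈ (B5_F i a).support) :
    p.1 = i ∧ (p.2)⁻¹ ∈ a.support := by
  by_contra hcon
  rw [Finsupp.mem_support_iff] at hp
  apply hp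
  unfold B5_F Finsupp.sum
  rw [Finsupp.finsetSum_apply]
  refine Finset.sum_eq_zero fun g hg => ?_
  rw [Finsupp.single_apply, if_neg]
  rintro rfl
  exact hcon ⟨rfl, by rw [inv_inv]; exact hg⟩

lemma B5_F_coef {κ : Type} (i : κ) (a : E →₀ ℂ) (ha : ∀ g, a g ∈ k) : CoefIn k (B5_F i a) := by
  intro p
  unfold B5_F Finsupp.sum
  rw [Finsupp.finsetSum_apply]
  refine k.sum_mem fun g _ => ?_
  rw [Finsupp.single_apply]
  split_ifs
  · exact ha g
  · exact k.zero_mem

lemma B5_map_coef (g : E) (a : E →₀ ℂ) (ha : ∀ g, a g ∈ k) (h : E) :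
    Finsupp.mapDomain (fun x => x * g) a h ∈ k := by
  have e : h = (fun x => x * g) (h * g⁻¹) := by simp
  rw [e, Finsupp.mapDomain_apply (mul_left_injective g)]
  exact ha _

lemma B5_RC_mono {S T : Subring U} (h : S ≤ T) {x : U} (hx : x ∈ RC S) : x ∈ RC T := by
  obtain ⟨n, Q, b, c, v, hQ, hb, hc, hu, hv, hx⟩ := hx
  exact ⟨n, Q, b, c, v, fun i j => h (hQ i j), fun i => h (hb i), fun i => h (hc i), hu, hv, hx⟩

lemma B5_SN_mono {G κ : Type} [Group G] [Ring κ] (D : Dat G κ U) {N N' : Subgroup G}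
    (h : N ≤ N') : SN D N ≤ SN D N' :=
  Subring.closure_mono (Set.union_subset_union_right _ (Set.image_mono h))

lemma B5_lin (M : Mdl k E U F) {κ μ : Type} [Fintype κ] (A : μ → (κ × E →₀ ℂ))
    (hA : ∀ j, CoefIn k (A j)) (w : κ → F) (j : μ) :
    M.emb (M.lin A w j) = ∑ i, B5_ent M (A j) i * M.emb (w i) := by
  show M.emb (∑ i, M.mtK A j i * w i) = _
  rw [map_sum]
  refine Finset.sum_congr rfl fun i _ => ?_
  rw [map_mul, mtK_emb M A hA j i]
  rfl

/-- B5: graphs of homogeneous values are rational -/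
theorem rr_graph (M : Mdl k E U F) {X : Type} [MulAction E X] (d : Bool → X) (g : E)
    (hg : g • d false = d true) {z : U}
    (hz : z ∈ RCs (SN (M.D.restrict k) (MulAction.stabilizer E (d true)))) :
    ∃ Z, M.RR d Z (M.gS (z * M.D.ι g)) := by
  obtain ⟨n, Q, b, c, v, hQ, hb, hc, hu, hv, hx⟩ := hz
  choose aQ hQ1 hQ2 hQ3 using fun i j => M.D.SN_form k _ (hQ i j)
  choose ab hb1 hb2 hb3 using fun i => M.D.SN_form k _ (hb i)
  choose ac hc1 hc2 hc3 using fun i => M.D.SN_form k _ (hc i)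
  have hC : ∀ h : E, h ∈ MulAction.stabilizer E (d true) → h • d true = d true := fun h hh => hh
  -- the solutions are values
  have hvF : ∀ i, ∃ f : F, M.emb f = v i := by
    intro i
    rw [← M.rng]
    apply B5_RC_mono (B5_SN_mono _ le_top)
    refine ⟨n, Q, b, fun j => if j = i then 1 else 0, v, hQ, hb, fun j => ?_, hu, hv, ?_⟩
    · show (if j = i then (1 : U) else 0) ∈ _
      split_ifs
      · exact Subring.one_mem _
      · exact Subring.zero_mem _
    · simp
  choose fv hfv using hvF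
  obtain ⟨fg, hfg⟩ : ∃ f : F, M.emb f = M.D.ι g := by
    rw [← M.rng]
    exact RC_of_mem (ι_mem_SN (M.D.restrict k) (Subgroup.mem_top g))
  -- uniqueness of solutions
  have huniq : ∀ (y : Fin n → U) (u : U), (∀ i, ∑ j, Q i j * y j = b i * u) →
      ∀ i, y i = v i * u := by
    obtain ⟨⟨A, B, e1, e2⟩, hA⟩ := hu
    simp only at hA
    subst hA
    intro y u hy
    have h1 : A.mulVec y = A.mulVec (fun i => v i * u) := by
      funext i
      show ∑ j, A i j * y j = ∑ j, A i j * (v j * u)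
      rw [hy i, ← hv i, Finset.sum_mul]
      exact Finset.sum_congr rfl fun j _ => mul_assoc _ _ _
    have h2 : B.mulVec (A.mulVec y) = B.mulVec (A.mulVec fun i => v i * u) := by rw [h1]
    rw [Matrix.mulVec_mulVec, Matrix.mulVec_mulVec, e2, Matrix.one_mulVec, Matrix.one_mulVec] at h2
    exact congrFun h2
  -- the forms
  let As : Fin n → ((Unit ⊕ Fin n) × E →₀ ℂ) := fun j =>
    (∑ i, B5_F (Sum.inr i) (aQ j i)) +
      -B5_F (Sum.inl ()) (Finsupp.mapDomain (fun x => x * g) (ab j))
  let At : Bool → ((Unit ⊕ Fin n) × E →₀ ℂ) := fun s =>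
    if s = true then ∑ i, B5_F (Sum.inr i) (ac i) else B5_F (Sum.inl ()) (Finsupp.single 1 1)
  let lk : Unit ⊕ Fin n → X := Sum.elim (fun _ => d false) (fun _ => d true)
  have hAs1 : ∀ j, CoefIn k (As j) := by
    intro j p
    show ((∑ i, B5_F (Sum.inr i) (aQ j i)) +
      -B5_F (Sum.inl ()) (Finsupp.mapDomain (fun x => x * g) (ab j)) :
        (Unit ⊕ Fin n) × E →₀ ℂ) p ∈ k
    rw [Finsupp.add_apply, Finsupp.neg_apply, Finsupp.finsetSum_apply]
    refine k.add_mem (k.sum_mem fun i _ => B5_F_coef _ _ (hQ2 j i) p) (k.neg_mem ?_)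
    exact B5_F_coef _ _ (B5_map_coef g _ (hb2 j)) p
  have hAt1 : ∀ j, CoefIn k (At j) := by
    rintro (_ | _)
    · show CoefIn k (B5_F (Sum.inl ()) (Finsupp.single 1 1))
      refine B5_F_coef _ _ fun h => ?_
      rw [Finsupp.single_apply]
      split_ifs
      · exact k.one_mem
      · exact k.zero_mem
    · intro p
      show (∑ i, B5_F (Sum.inr i) (ac i)) p ∈ k
      rw [Finsupp.finsetSum_apply]
      exact k.sum_mem fun i _ => B5_F_coef _ _ (hc2 i) p
  have hAs2 : ∀ j, ∀ p ∈ (As j).support, p.2⁻¹ • lk p.1 = d true := by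
    intro j p hp
    rcases Finset.mem_union.mp (Finsupp.support_add hp) with h | h
    · obtain ⟨i, _, hi⟩ := Finset.mem_biUnion.mp (Finsupp.support_finsetSum h)
      obtain ⟨h1, h2⟩ := B5_F_support _ _ hi
      rw [h1]
      exact hC _ (hQ1 j i _ h2)
    · rw [Finsupp.support_neg] at h
      obtain ⟨h1, h2⟩ := B5_F_support _ _ h
      obtain ⟨x, hx1, hx2⟩ := Finset.mem_image.mp (Finsupp.mapDomain_support h2)
      rw [h1, ← hx2]
      show (x * g) • d false = d true
      rw [mul_smul, hg]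
      exact hC _ (hb1 j _ hx1)
  have hAt2 : ∀ j, ∀ p ∈ (At j).support, p.2⁻¹ • lk p.1 = d j := by
    rintro (_ | _) p hp
    · obtain ⟨h1, h2⟩ := B5_F_support (Sum.inl () : Unit ⊕ Fin n) (Finsupp.single 1 1) hp
      have h3 := Finset.mem_singleton.mp (Finsupp.support_single_subset h2)
      rw [h1, h3, one_smul]
      rfl
    · have hp' : p ∈ (∑ i, B5_F (Sum.inr i : Unit ⊕ Fin n) (ac i)).support := hp
      obtain ⟨i, _, hi⟩ := Finset.mem_biUnion.mp (Finsupp.support_finsetSum hp')
      obtain ⟨h1, h2⟩ := B5_F_support _ _ hi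
      rw [h1]
      exact hC _ (hc1 i _ h2)
  -- the maps
  have hSl : ∀ j, B5_ent M (As j) (Sum.inl ()) = -(b j * M.D.ι g) := by
    intro j
    show B5_ent M ((∑ i, B5_F (Sum.inr i) (aQ j i)) +
      -B5_F (Sum.inl ()) (Finsupp.mapDomain (fun x => x * g) (ab j))) (Sum.inl ()) = _
    rw [B5_ent_add, B5_ent_neg, B5_ent_sum, B5_ent_F, if_pos rfl, ← Dat.gr_mul_ι, ← hb3 j,
      Finset.sum_eq_zero, zero_add]
    intro i _
    rw [B5_ent_F, if_neg (by simp)]
  have hSr : ∀ j i, B5_ent M (As j) (Sum.inr i) = Q j i := by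
    intro j i
    show B5_ent M ((∑ i, B5_F (Sum.inr i) (aQ j i)) +
      -B5_F (Sum.inl ()) (Finsupp.mapDomain (fun x => x * g) (ab j))) (Sum.inr i) = _
    rw [B5_ent_add, B5_ent_neg, B5_ent_sum, B5_ent_F, if_neg (by simp), neg_zero, add_zero,
      Finset.sum_eq_single i, B5_ent_F, if_pos rfl, ← hQ3 j i]
    · intro i' _ hi'
      rw [B5_ent_F, if_neg]
      intro h
      exact hi' (Sum.inr_injective h)
    · intro h; exact absurd (Finset.mem_univ _) h
  have hfl : ∀ i : Unit ⊕ Fin n, B5_ent M (At false) i = if i = Sum.inl () then 1 else 0 := by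
    intro i
    show B5_ent M (B5_F (Sum.inl ()) (Finsupp.single 1 1)) i = _
    rw [B5_ent_F, Dat.gr_single, map_one, map_one, one_mul]
    by_cases h : i = Sum.inl ()
    · rw [if_pos h, if_pos h.symm]
    · rw [if_neg h, if_neg fun h' => h h'.symm]
  have hTl : B5_ent M (At true) (Sum.inl ()) = 0 := by
    show B5_ent M (∑ i, B5_F (Sum.inr i) (ac i)) (Sum.inl ()) = 0
    rw [B5_ent_sum, Finset.sum_eq_zero]
    intro i _
    rw [B5_ent_F, if_neg (by simp)]
  have hTr : ∀ i, B5_ent M (At true) (Sum.inr i) = c i := by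
    intro i
    show B5_ent M (∑ i, B5_F (Sum.inr i) (ac i)) (Sum.inr i) = _
    rw [B5_ent_sum, Finset.sum_eq_single i, B5_ent_F, if_pos rfl, ← hc3 i]
    · intro i' _ hi'
      rw [B5_ent_F, if_neg]
      intro h
      exact hi' (Sum.inr_injective h)
    · intro h; exact absurd (Finset.mem_univ _) h
  have hS : ∀ (w : Unit ⊕ Fin n → F) (j : Fin n), M.emb (M.lin As w j) =
      -(b j * M.D.ι g) * M.emb (w (Sum.inl ())) + ∑ i, Q j i * M.emb (w (Sum.inr i)) := by
    intro w j
    rw [B5_lin M As hAs1, Fintype.sum_sum_type, Fintype.sum_unique]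
    simp only [hSr]
    rw [← hSl j]
  have hT0 : ∀ w : Unit ⊕ Fin n → F, M.emb (M.lin At w false) = M.emb (w (Sum.inl ())) := by
    intro w
    rw [B5_lin M At hAt1, Fintype.sum_sum_type, Fintype.sum_unique]
    simp only [hfl]
    simp
  have hT1 : ∀ w : Unit ⊕ Fin n → F, M.emb (M.lin At w true) =
      ∑ i, c i * M.emb (w (Sum.inr i)) := by
    intro w
    rw [B5_lin M At hAt1, Fintype.sum_sum_type, Fintype.sum_unique]
    simp only [hTr]
    have e : B5_ent M (At true) (Sum.inl default) = 0 := hTl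
    rw [e, zero_mul, zero_add]
  refine ⟨imc (mulR At) (kr (mulR As)), Unit ⊕ Fin n, Fin n, inferInstance, inferInstance, lk,
    fun _ => d true, As, At, hAs1, hAs2, hAt1, hAt2, rfl, ?_⟩
  ext u
  rw [Submodule.mem_map]
  constructor
  · intro hu'
    have hu2 : M.emb (u true) = z * M.D.ι g * M.emb (u false) := hu'
    refine ⟨Sum.elim (fun _ => u false) (fun i => fv i * fg * u false), ?_, ?_⟩
    · rw [LinearMap.mem_ker]
      funext j
      apply M.inj
      rw [hS]
      show -(b j * M.D.ι g) * M.emb (u false) + ∑ i, Q j i * M.emb (fv i * fg * u false)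
        = M.emb 0
      have e : ∑ i, Q j i * M.emb (fv i * fg * u false) = b j * M.D.ι g * M.emb (u false) := by
        rw [← hv j, Finset.sum_mul, Finset.sum_mul]
        refine Finset.sum_congr rfl fun i _ => ?_
        rw [map_mul, map_mul, hfv, hfg]
        simp only [mul_assoc]
      rw [e, map_zero, neg_mul, neg_add_cancel]
    · funext s
      apply M.inj
      cases s
      · rw [hT0]
        rfl
      · rw [hT1, hu2, hx, Finset.sum_mul, Finset.sum_mul]
        refine Finset.sum_congr rfl fun i _ => ?_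
        show c i * M.emb (fv i * fg * u false) = _
        rw [map_mul, map_mul, hfv, hfg]
        simp only [mul_assoc]
  · rintro ⟨w, hw, rfl⟩
    rw [LinearMap.mem_ker] at hw
    show M.emb (M.lin At w true) = z * M.D.ι g * M.emb (M.lin At w false)
    rw [hT0, hT1]
    have hy : ∀ i, M.emb (w (Sum.inr i)) = v i * (M.D.ι g * M.emb (w (Sum.inl ()))) := by
      apply huniq
      intro j
      have h1 := hS w j
      rw [hw] at h1
      have h2 : M.emb ((0 : Fin n → F) j) = 0 := map_zero M.emb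
      rw [h2] at h1
      rw [neg_mul] at h1
      rw [← mul_assoc]
      exact (neg_add_eq_zero.1 h1.symm).symm
    rw [hx, Finset.sum_mul, Finset.sum_mul]
    refine Finset.sum_congr rfl fun i _ => ?_
    rw [hy i]
    simp only [mul_assoc]

end Pool.Agent.HL
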