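import Pool.Agent.HL.Defs
import Pool.Agent.HL.B2

set_option autoImplicit false
set_option linter.unusedSectionVars false

noncomputable section

open scoped InnerProductSpace ENNReal Topology
open Classical Filter ContinuousLinearMap

namespace Pool.Agent.HL

open Pool.Agent.VN Pool.Agent.LFT Pool.Agent.HI Pool.Agent.HC Pool.Agent.HX

variable {k : Subring ℂ} {E U F : Type} [Group E] [Ring U] [DivisionRing F]

section B6aux

/-- a left linear functional with values in a division subring -/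
lemma B6_phi (K : Subfield F) (f : F) (hf : f ≠ 0) :
    ∃ φ : F →+ F, (∀ a, φ a ∈ K) ∧ (∀ c ∈ K, ∀ a, φ (c * a) = c * φ a) ∧ φ f = 1 := by
  obtain ⟨g, hg⟩ := LinearMap.exists_leftInverse_of_injective (LinearMap.toSpanSingleton K F f) (by
    rw [LinearMap.ker_eq_bot']
    intro c hc
    have h1 : (c : F) * f = 0 := hc
    rcases mul_eq_zero.1 h1 with h2 | h2
    · exact Subtype.ext h2
    · exact absurd h2 hf)
  refine ⟨(K.subtype : K →+* F).toAddMonoidHom.comp g.toAddMonoidHom, fun a => (g a).2, ?_, ?_⟩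
  · intro c hc a
    have h1 : g ((⟨c, hc⟩ : K) • a) = (⟨c, hc⟩ : K) • g a := g.map_smul _ _
    have h2 : ((g (c * a) : K) : F) = c * ((g a : K) : F) := congrArg Subtype.val h1
    exact h2
  · have h1 := LinearMap.congr_fun hg 1
    have h2 : g ((1 : K) • f) = 1 := h1
    rw [one_smul] at h2
    show ((g f : K) : F) = 1
    rw [h2]
    rfl

variable (M : Mdl k E U F)

/-- the value of a group element -/
def B6_io (g : E) : F :=
  ((M.rng (M.D.ι g)).1 (RC_of_mem (ι_mem_SN (M.D.restrict k) (Subgroup.mem_top g)))).choose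

lemma B6_io_emb (g : E) : M.emb (B6_io M g) = M.D.ι g :=
  ((M.rng (M.D.ι g)).1
    (RC_of_mem (ι_mem_SN (M.D.restrict k) (Subgroup.mem_top g)))).choose_spec

lemma B6_io_mul (g h : E) : B6_io M (g * h) = B6_io M g * B6_io M h := by
  apply M.inj
  rw [map_mul, B6_io_emb, B6_io_emb, B6_io_emb, map_mul]

lemma B6_io_one : B6_io M 1 = 1 := by
  apply M.inj
  rw [map_one, B6_io_emb, map_one]

/-- the values over a subgroup -/
def B6_K (C : Subgroup E) : Subfield F where
  toSubring := (RCs (SN (M.D.restrict k) C)).comap M.emb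
  inv_mem' := by
    intro a ha
    show M.emb a⁻¹ ∈ RCs (SN (M.D.restrict k) C)
    by_cases h : a = 0
    · subst h
      rw [inv_zero, map_zero]
      exact (RCs _).zero_mem
    · have h1 : M.emb a⁻¹ = Ring.inverse (M.emb a) := by
        symm
        have h2 : M.emb a * M.emb a⁻¹ = 1 := by rw [← map_mul, mul_inv_cancel₀ h, map_one]
        have h3 : M.emb a⁻¹ * M.emb a = 1 := by rw [← map_mul, inv_mul_cancel₀ h, map_one]
        exact Ring.inverse_unit ⟨M.emb a, M.emb a⁻¹, h2, h3⟩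
      rw [h1]
      exact RCs_inverse ha

lemma B6_mem_K {C : Subgroup E} {a : F} :
    a ∈ B6_K M C ↔ M.emb a ∈ RCs (SN (M.D.restrict k) C) := Iff.rfl

lemma B6_io_K {C : Subgroup E} {g : E} (hg : g ∈ C) : B6_io M g ∈ B6_K M C := by
  rw [B6_mem_K, B6_io_emb]
  exact RC_of_mem (ι_mem_SN (M.D.restrict k) hg)

lemma B6_sc {c : ℂ} (hc : c ∈ k) : ∃ e : F, M.emb e = M.D.sc c := by
  refine (M.rng (M.D.sc c)).1 (RC_of_mem ?_)
  exact sc_mem_SN (M.D.restrict k) ⊤ ⟨c, hc⟩

variable {X : Type} [MulAction E X] (x1 : X) (φ : F →+ F)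

/-- the projection to the value space of a place -/
def B6_top (y : X) (a : F) : F :=
  if h : ∃ g : E, g • x1 = y then B6_io M h.choose * φ (B6_io M h.choose⁻¹ * a) else 0

variable {φ} {x1}
variable (hφ1 : ∀ a, φ a ∈ B6_K M (MulAction.stabilizer E x1))
  (hφ2 : ∀ c ∈ B6_K M (MulAction.stabilizer E x1), ∀ a, φ (c * a) = c * φ a)

include hφ2 in
lemma B6_top_eq {y : X} {g : E} (hg : g • x1 = y) (a : F) :
    B6_top M x1 φ y a = B6_io M g * φ (B6_io M g⁻¹ * a) := by
  have h : ∃ g : E, g • x1 = y := ⟨g, hg⟩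
  unfold B6_top
  rw [dif_pos h]
  set g' := h.choose with hg'
  have h1 : g' • x1 = y := h.choose_spec
  have h2 : g⁻¹ * g' ∈ MulAction.stabilizer E x1 := by
    rw [MulAction.mem_stabilizer_iff, mul_smul, h1, ← hg, inv_smul_smul]
  have h3 : B6_io M g' = B6_io M g * B6_io M (g⁻¹ * g') := by
    rw [← B6_io_mul, mul_inv_cancel_left]
  rw [h3, mul_assoc, ← hφ2 _ (B6_io_K M h2), ← mul_assoc, ← B6_io_mul]
  congr 4
  group

lemma B6_top_not {y : X} (hy : ¬ ∃ g : E, g • x1 = y) (a : F) : B6_top M x1 φ y a = 0 := by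
  unfold B6_top
  rw [dif_neg hy]

lemma B6_top_zero (y : X) : B6_top M x1 φ y 0 = 0 := by
  unfold B6_top
  split_ifs
  · rw [mul_zero, map_zero, mul_zero]
  · rfl

lemma B6_top_add (y : X) (a b : F) :
    B6_top M x1 φ y (a + b) = B6_top M x1 φ y a + B6_top M x1 φ y b := by
  unfold B6_top
  split_ifs
  · rw [mul_add, map_add, mul_add]
  · rw [add_zero]

lemma B6_top_sum (y : X) {ι : Type} (s : Finset ι) (f : ι → F) :
    B6_top M x1 φ y (∑ i ∈ s, f i) = ∑ i ∈ s, B6_top M x1 φ y (f i) := by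
  induction s using Finset.induction_on with
  | empty => rw [Finset.sum_empty, Finset.sum_empty, B6_top_zero]
  | insert a s ha ih => rw [Finset.sum_insert ha, Finset.sum_insert ha, B6_top_add, ih]

include hφ2 in
/-- a homogeneous monomial commutes with the projections -/
lemma B6_mono {y y' : X} {h : E} (hh : h • y = y') {c : ℂ} (hc : c ∈ k) :
    ∃ e : F, M.emb e = M.D.sc c * M.D.ι h ∧
      ∀ a, B6_top M x1 φ y' (e * a) = e * B6_top M x1 φ y a := by
  obtain ⟨cF, hcF⟩ := B6_sc M hc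
  have hcK : cF ∈ B6_K M (MulAction.stabilizer E x1) := by
    rw [B6_mem_K, hcF]
    exact RC_of_mem (sc_mem_SN (M.D.restrict k) _ ⟨c, hc⟩)
  have hcomm : ∀ g : E, cF * B6_io M g = B6_io M g * cF := by
    intro g
    apply M.inj
    rw [map_mul, map_mul, hcF, B6_io_emb]
    exact M.D.comm c g
  refine ⟨cF * B6_io M h, by rw [map_mul, hcF, B6_io_emb], ?_⟩
  intro a
  by_cases hy : ∃ g : E, g • x1 = y
  · obtain ⟨g, hg⟩ := hy
    have hg' : (h * g) • x1 = y' := by rw [mul_smul, hg, hh]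
    rw [B6_top_eq M hφ2 hg, B6_top_eq M hφ2 hg']
    have e1 : B6_io M (h * g)⁻¹ * (cF * B6_io M h * a) = cF * (B6_io M g⁻¹ * a) := by
      rw [hcomm h, mul_inv_rev, B6_io_mul]
      rw [show B6_io M g⁻¹ * B6_io M h⁻¹ * (B6_io M h * cF * a) =
        B6_io M g⁻¹ * (B6_io M h⁻¹ * B6_io M h) * (cF * a) by simp only [mul_assoc]]
      rw [← B6_io_mul, inv_mul_cancel, B6_io_one, mul_one, ← mul_assoc, ← hcomm, mul_assoc]
    rw [e1, hφ2 _ hcK, B6_io_mul]
    rw [show B6_io M h * B6_io M g * (cF * φ (B6_io M g⁻¹ * a)) =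
      B6_io M h * (B6_io M g * cF) * φ (B6_io M g⁻¹ * a) by simp only [mul_assoc], ← hcomm g,
      ← mul_assoc, ← hcomm h]
    simp only [mul_assoc]
  · have hy' : ¬ ∃ g : E, g • x1 = y' := by
      rintro ⟨g, hg⟩
      exact hy ⟨h⁻¹ * g, by rw [mul_smul, hg, ← hh, inv_smul_smul]⟩
    rw [B6_top_not M hy, B6_top_not M hy', mul_zero]

include hφ2 in
/-- the entries of a homogeneous matrix commute with the projections -/
lemma B6_entry {ι κ : Type} (A : κ → (ι × E →₀ ℂ)) (hA : ∀ j, CoefIn k (A j)) {labι : ι → X}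
    {labκ : κ → X} (hl : ∀ j, ∀ p ∈ (A j).support, p.2⁻¹ • labι p.1 = labκ j) (j : κ) (i : ι)
    (a : F) :
    B6_top M x1 φ (labκ j) (M.mtK A j i * a) = M.mtK A j i * B6_top M x1 φ (labι i) a := by
  let Q : AddSubgroup U :=
    { carrier := {u | ∃ e : F, M.emb e = u ∧
        ∀ a, B6_top M x1 φ (labκ j) (e * a) = e * B6_top M x1 φ (labι i) a}
      add_mem' := by
        rintro u v ⟨e, he, h1⟩ ⟨f, hf, h2⟩
        refine ⟨e + f, by rw [map_add, he, hf], fun a => ?_⟩
        rw [add_mul, B6_top_add, h1, h2, add_mul]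
      zero_mem' := ⟨0, map_zero _, fun a => by rw [zero_mul, zero_mul, B6_top_zero]⟩
      neg_mem' := by
        rintro u ⟨e, he, h1⟩
        refine ⟨-e, by rw [map_neg, he], fun a => ?_⟩
        have h2 := B6_top_add M (x1 := x1) (φ := φ) (labκ j) (-e * a) (e * a)
        rw [neg_mul, neg_add_cancel, B6_top_zero, h1] at h2
        rw [neg_mul, neg_mul]
        exact eq_neg_of_add_eq_zero_left h2.symm }
  have hQ : M.mtx A j i ∈ Q := by
    show (A j).sum (fun p c => if p.1 = i then M.D.sc c * M.D.ι (p.2)⁻¹ else 0) ∈ Q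
    unfold Finsupp.sum
    refine Q.sum_mem fun p hp => ?_
    show (if p.1 = i then M.D.sc (A j p) * M.D.ι (p.2)⁻¹ else 0) ∈ Q
    split_ifs with hpi
    · have h1 := hl j p hp
      rw [hpi] at h1
      exact B6_mono M hφ2 h1 (hA j p)
    · exact Q.zero_mem
  obtain ⟨e, he, h1⟩ := hQ
  have h2 : e = M.mtK A j i := M.inj (he.trans (mtK_emb M A hA j i).symm)
  rw [← h2]
  exact h1 a

include hφ2 in
lemma B6_lin {ι κ : Type} [Fintype ι] (A : κ → (ι × E →₀ ℂ)) (hA : ∀ j, CoefIn k (A j))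
    {labι : ι → X} {labκ : κ → X}
    (hl : ∀ j, ∀ p ∈ (A j).support, p.2⁻¹ • labι p.1 = labκ j) (v : ι → F) (j : κ) :
    M.lin A (fun i => B6_top M x1 φ (labι i) (v i)) j =
      B6_top M x1 φ (labκ j) (M.lin A v j) := by
  show ∑ i, M.mtK A j i * B6_top M x1 φ (labι i) (v i) =
    B6_top M x1 φ (labκ j) (∑ i, M.mtK A j i * v i)
  rw [B6_top_sum]
  exact Finset.sum_congr rfl fun i _ => (B6_entry M hφ2 A hA hl j i (v i)).symm

end B6aux

/-- B6: values with rational graphs are homogeneous -/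
theorem rr_graph_inv (M : Mdl k E U F) {X : Type} [MulAction E X] (d : Bool → X) {x : U}
    (hx : x ≠ 0) (hxF : ∃ f : F, M.emb f = x) {Z : Submodule ℂ (L2 Bool E)}
    (h : M.RR d Z (M.gS x)) :
    ∃ g : E, g • d false = d true ∧
      ∃ z ∈ RCs (SN (M.D.restrict k) (MulAction.stabilizer E (d true))), x = z * M.D.ι g := by
  obtain ⟨f0, hf0⟩ := hxF
  have hf0' : f0 ≠ 0 := by
    rintro rfl
    exact hx (by rw [← hf0, map_zero])
  obtain ⟨φ, hφ1, hφ2, hφ3⟩ := B6_phi (B6_K M (MulAction.stabilizer E (d true))) f0 hf0'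
  obtain ⟨κ, μ, _, _, labκ, labμ, As, At, hAs, hAsl, hAt, hAtl, -, hW⟩ := h
  -- the element of the graph
  let w : Bool → F := fun b => if b then f0 else 1
  have hw : w ∈ M.gS x := by
    show M.emb (w true) = x * M.emb (w false)
    show M.emb f0 = x * M.emb 1
    rw [map_one, mul_one, hf0]
  rw [hW] at hw
  obtain ⟨v, hv, hvw⟩ := hw
  have hv' : M.lin As v = 0 := hv
  let v' : κ → F := fun i => B6_top M (d true) φ (labκ i) (v i)
  have h1 : M.lin As v' = 0 := by
    funext j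
    have := B6_lin M hφ2 As hAs hAsl v j
    rw [hv'] at this
    rw [this]
    exact B6_top_zero M (labμ j)
  have h2 : M.lin At v' ∈ M.gS x := by
    rw [hW]
    exact ⟨v', h1, rfl⟩
  have h3 : M.emb (M.lin At v' true) = x * M.emb (M.lin At v' false) := h2
  have h4 : M.lin At v' true = 1 := by
    have := B6_lin M hφ2 At hAt hAtl v true
    rw [hvw] at this
    rw [this, B6_top_eq M hφ2 (one_smul E (d true)), inv_one, B6_io_one, one_mul, one_mul]
    exact hφ3
  have h5 : M.lin At v' false = B6_top M (d true) φ (d false) 1 := by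
    have := B6_lin M hφ2 At hAt hAtl v false
    rw [hvw] at this
    exact this
  rw [h4, h5, map_one] at h3
  have h6 : ∃ g : E, g • d true = d false := by
    by_contra hcon
    rw [B6_top_not M hcon, map_zero, mul_zero] at h3
    have h7 : M.emb 1 = M.emb 0 := by rw [map_one, map_zero]; exact h3
    exact one_ne_zero (M.inj h7)
  obtain ⟨g, hg⟩ := h6
  rw [B6_top_eq M hφ2 hg] at h3
  set a : F := φ (B6_io M g⁻¹ * 1) with ha
  have h8 : (1 : F) = f0 * (B6_io M g * a) := by
    apply M.inj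
    rw [map_one, map_mul, hf0]
    exact h3
  have ha0 : a ≠ 0 := by
    intro h0
    rw [h0, mul_zero, mul_zero] at h8
    exact one_ne_zero h8
  have h9 : f0 = a⁻¹ * B6_io M g⁻¹ := by
    have e1 : f0 * B6_io M g = a⁻¹ := by
      refine eq_inv_of_mul_eq_one_left ?_
      rw [mul_assoc]
      exact h8.symm
    rw [← e1, mul_assoc, ← B6_io_mul, mul_inv_cancel, B6_io_one, mul_one]
  refine ⟨g⁻¹, by rw [← hg, inv_smul_smul], M.emb a⁻¹, ?_, ?_⟩
  · exact (B6_mem_K M).1 ((B6_K M _).inv_mem (hφ1 _))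
  · rw [← hf0, h9, map_mul, B6_io_emb]

end Pool.Agent.HL
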