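import Pool.Agent.HL.Defs
import Pool.Agent.HL.B4
import Pool.Agent.HL.B5
import Pool.Agent.HL.B6
import Pool.Agent.HC.Trans
import Pool.Agent.HX.Base

set_option autoImplicit false
set_option linter.unusedSectionVars false

noncomputable section

open scoped InnerProductSpace ENNReal Topology
open Classical Filter ContinuousLinearMap

namespace Pool.Agent.HL

open Pool.Agent.VN Pool.Agent.LFT Pool.Agent.HI Pool.Agent.HC Pool.Agent.HX

variable {k : Subring ℂ} {E U F : Type} [Group E] [Ring U] [DivisionRing F]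

/-- locality for two families of labels -/
lemma B7_loc {G X Y : Type} [Group G] [MulAction G X] [MulAction G Y] {ι : Type} {d1 : ι → X}
    {d2 : ι → Y} {P : Submodule ℂ (L2 ι G)} (h1 : Loc (pV d1) P) (h2 : Loc (pV d2) P) :
    Loc (pV fun i => (d1 i, d2 i)) P := by
  intro x hx w
  have h3 := h1 _ (h2 x hx w.2) w.1
  have e : cutF (pV d1) w.1 (cutF (pV d2) w.2 x) = cutF (pV fun i => (d1 i, d2 i)) w x := by
    ext q
    rw [cutF_apply, cutF_apply, cutF_apply]
    have e1 : pV (G := G) (fun i => (d1 i, d2 i)) q = (pV d1 q, pV d2 q) := rfl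
    rw [e1]
    by_cases h4 : pV d1 q = w.1
    · by_cases h5 : pV d2 q = w.2
      · rw [if_pos h4, if_pos h5, if_pos (Prod.ext h4 h5)]
      · rw [if_pos h4, if_neg h5, if_neg fun h6 => h5 (congrArg Prod.snd h6)]
    · rw [if_neg h4, if_neg fun h6 => h4 (congrArg Prod.fst h6)]
  rwa [e] at h3

/-- the action of the subgroup `K` on the fibre over the trivial coset -/
@[instance_reducible]
def B7_act (K : Subgroup E) {D : Type} [MulAction E D] (a : D → E ⧸ K) (ha : Eqv E a) :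
    MulAction K {δ : D // a δ = (QuotientGroup.mk (1 : E) : E ⧸ K)} where
  smul s δ := ⟨(s : E) • δ.1, by
    rw [ha, δ.2, MulAction.Quotient.smul_coe, smul_eq_mul, mul_one, eq_comm, QuotientGroup.eq]
    simp⟩
  one_smul δ := Subtype.ext (one_smul E δ.1)
  mul_smul g h δ := Subtype.ext (mul_smul (g : E) (h : E) δ.1)

/-- the key estimate for subspaces rational over the image labels -/
lemma B7_key (N0 K L L' : Subgroup E) [N0.Normal]
    (hkey : ∀ C : Subgroup K, N0.subgroupOf K ≤ C → KeyP k K C) (hNL : N0 ≤ L) (hNL' : N0 ≤ L')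
    (hLK : L ≤ K) {ι : Type} [Fintype ι] (d : ι → (E ⧸ L) × (E ⧸ L'))
    (hd : ∀ i, (d i).1 = QuotientGroup.mk (1 : E))
    (P : Submodule ℂ (L2 ι E)) (hP : CI P) (hl : Loc (pV d) P) (u : ℝ)
    (Y : Submodule ℂ (L2 ι E)) (hY : Rat k (fun i => (d i).1) Y) (ε : ℝ) (hε : 0 < ε) :
    ∃ S, Rat k d S ∧ dm (P ⊓ Y) - u * dm Y - ε ≤ dm (P ⊓ S) - u * dm S := by
  set a : (E ⧸ L) × (E ⧸ L') → E ⧸ K := fun δ => Subgroup.quotientMapOfLE hLK δ.1 with haa
  have ha : Eqv E a := fun g δ => quo_smul hLK g δ.1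
  let i1 : MulAction K {δ : (E ⧸ L) × (E ⧸ L') // a δ = (QuotientGroup.mk (1 : E) : E ⧸ K)} :=
    B7_act K a ha
  have hkg : KeyG k K {δ : (E ⧸ L) × (E ⧸ L') // a δ = (QuotientGroup.mk (1 : E) : E ⧸ K)} := by
    apply keyG_of_orbits
    intro ξ
    apply hkey
    intro n hn
    rw [Subgroup.mem_subgroupOf] at hn
    rw [MulAction.mem_stabilizer_iff]
    apply Subtype.ext
    show ((n : E) • (ξ.1 : (E ⧸ L) × (E ⧸ L'))) = ξ.1
    obtain ⟨g1, h1⟩ := QuotientGroup.mk_surjective ξ.1.1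
    obtain ⟨g2, h2⟩ := QuotientGroup.mk_surjective ξ.1.2
    have hn1 : ∀ g : E, (n : E)⁻¹ ∈ N0 → g⁻¹ * (n : E)⁻¹ * g ∈ N0 := by
      intro g hn'
      have := ‹N0.Normal›.conj_mem _ hn' g⁻¹
      rwa [inv_inv] at this
    have hninv : (n : E)⁻¹ ∈ N0 := N0.inv_mem hn
    refine Prod.ext ?_ ?_
    · show (n : E) • ξ.1.1 = ξ.1.1
      rw [← h1, MulAction.Quotient.smul_coe, smul_eq_mul, QuotientGroup.eq, mul_inv_rev]
      exact hNL (hn1 g1 hninv)
    · show (n : E) • ξ.1.2 = ξ.1.2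
      rw [← h2, MulAction.Quotient.smul_coe, smul_eq_mul, QuotientGroup.eq, mul_inv_rev]
      exact hNL' (hn1 g2 hninv)
  refine keyS_orbit' (k := k) a ha (QuotientGroup.mk (1 : E)) (H := K)
    (Φ := {δ : (E ⧸ L) × (E ⧸ L') // a δ = (QuotientGroup.mk (1 : E) : E ⧸ K)}) K.subtype
    Subtype.val_injective
    (fun g => by
      rw [MulAction.Quotient.smul_coe, smul_eq_mul, mul_one, eq_comm, QuotientGroup.eq]
      simp)
    Subtype.val (fun s φ => rfl) Subtype.val_injective (fun δ hδ => ⟨⟨δ, hδ⟩, rfl⟩)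
    hkg ι inferInstance d (fun i => ⟨1, ?_⟩) P hP hl u Y ?_ ε hε
  · rw [one_smul]
    show Subgroup.quotientMapOfLE hLK (d i).1 = _
    rw [hd i]
    rfl
  · exact hY.mapLab (Subgroup.quotientMapOfLE hLK) (quo_smul hLK)

lemma B7_int (hE : AtiyahOver k E) {X ι : Type} [MulAction E X] [Fintype ι] {lab : ι → X}
    {Z : Submodule ℂ (L2 ι E)} (h : Rat k lab Z) : ∃ z : ℤ, dm Z = z := by
  have h1 : Rat k (fun _ : ι => ()) Z := h.mapLab (fun _ => ()) fun _ _ => rfl
  refine Rat.int (fun m => ?_) h1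
  exact hE.of_injective (MulAction.stabilizer E m).subtype Subtype.val_injective

/-- B7: the key estimate implies the intersection property -/
theorem ip_base (hE : AtiyahOver k E) (M : Mdl k E U F) (N0 K : Subgroup E) [N0.Normal]
    (hNK : N0 ≤ K) (hkey : ∀ C : Subgroup K, N0.subgroupOf K ≤ C → KeyP k K C) :
    IPat (M.D.restrict k) N0 K := by
  intro L L' hNL hNL' hLK hLK' x hx y hy g hg hxy hx0
  have st1 : MulAction.stabilizer E (QuotientGroup.mk (1 : E) : E ⧸ L) = L :=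
    MulAction.stabilizer_quotient L
  have st2 : MulAction.stabilizer E (QuotientGroup.mk (1 : E) : E ⧸ L') = L' :=
    MulAction.stabilizer_quotient L'
  set d1 : Bool → E ⧸ L := fun _ => QuotientGroup.mk (1 : E) with hd1
  set d2 : Bool → E ⧸ L' := fun b => QuotientGroup.mk (if b then (1 : E) else g⁻¹) with hd2
  obtain ⟨Z1, h1⟩ := rr_graph M d1 1 (one_smul E _) (z := x) (by
    show x ∈ RCs (SN (M.D.restrict k)
      (MulAction.stabilizer E (QuotientGroup.mk (1 : E) : E ⧸ L)))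
    rw [st1]
    exact hx)
  rw [map_one, mul_one] at h1
  obtain ⟨Z2, h2⟩ := rr_graph M d2 g (by
    show g • (QuotientGroup.mk (g⁻¹) : E ⧸ L') = QuotientGroup.mk (1 : E)
    rw [MulAction.Quotient.smul_coe, smul_eq_mul, mul_inv_cancel]) (z := y) (by
    show y ∈ RCs (SN (M.D.restrict k)
      (MulAction.stabilizer E (QuotientGroup.mk (1 : E) : E ⧸ L')))
    rw [st2]
    exact hy)
  have hxy' : y * M.D.ι g = x := hxy.symm
  rw [hxy'] at h2
  have hZ : Z1 = Z2 := le_antisymm ((rr_le h1 h2).2 le_rfl) ((rr_le h2 h1).2 le_rfl)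
  subst hZ
  have r1 := rr_rat h1
  have r2 := rr_rat h2
  set d : Bool → (E ⧸ L) × (E ⧸ L') := fun i => (d1 i, d2 i) with hdd
  have hl : Loc (pV d) Z1 := B7_loc r1.loc r2.loc
  obtain ⟨S, hS, hSe⟩ := B7_key (k := k) N0 K L L' hkey hNL hNL' hLK d (fun i => rfl) Z1
    r1.ci hl (7 / 8) Z1 r1 (1 / 64) (by norm_num)
  rw [inf_idem] at hSe
  obtain ⟨p, hp⟩ := B7_int hE r1
  obtain ⟨s, hs⟩ := B7_int hE hS
  obtain ⟨q, hq⟩ := B7_int hE ((r1.mapLab (fun _ => ()) fun _ _ => rfl).inf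
    (hS.mapLab (fun _ => ()) fun _ _ => rfl))
  have b1 : dm (Z1 ⊓ S) ≤ dm Z1 := dm_mono inf_le_left
  have b2 : dm (Z1 ⊓ S) ≤ dm S := dm_mono inf_le_right
  have b3 : dm S ≤ 2 := by
    have := dm_le_card S
    rwa [Fintype.card_bool] at this
  have b4 := dm_nonneg Z1
  have b5 : s < q + 1 := by
    have : (s : ℝ) < q + 1 := by linarith
    exact_mod_cast this
  have b6 : q ≤ s := by
    rw [hq, hs] at b2
    exact_mod_cast b2
  have b7 : (q : ℝ) = s := by
    have : q = s := by omega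
    exact_mod_cast this
  have b8 : p < q + 1 := by
    have : (p : ℝ) < q + 1 := by linarith
    exact_mod_cast this
  have b9 : q ≤ p := by
    rw [hq, hp] at b1
    exact_mod_cast b1
  have b10 : (q : ℝ) = p := by
    have : q = p := by omega
    exact_mod_cast this
  have e1 : Z1 ⊓ S = Z1 :=
    eq_of_le_of_dm (r1.ci.inf hS.ci) r1.ci inf_le_left (by rw [hp, hq, b10])
  have e2 : Z1 ⊓ S = S :=
    eq_of_le_of_dm (r1.ci.inf hS.ci) hS.ci inf_le_right (by rw [hs, hq, b7])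
  have e3 : S = Z1 := e2.symm.trans e1
  rw [e3] at hS
  obtain ⟨W, hW⟩ := rr_exists M hS
  have eW : W = M.gS x := le_antisymm ((rr_le hW h1).1 le_rfl) ((rr_le h1 hW).1 le_rfl)
  rw [eW] at hW
  have hxF : ∃ f : F, M.emb f = x := by
    rw [← M.rng]
    exact RC_hom (RingHom.id U) (fun _ hy => Subring.closure_mono
      (Set.union_subset_union_right _ (Set.image_mono (fun _ _ => trivial))) hy) hx
  obtain ⟨l, hl1, z, hz, hxz⟩ := rr_graph_inv M d hx0 hxF hW
  have hst : MulAction.stabilizer E (d true) = L ⊓ L' := by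
    ext h
    rw [MulAction.mem_stabilizer_iff, Subgroup.mem_inf]
    conv_rhs => rw [← st1, ← st2, MulAction.mem_stabilizer_iff, MulAction.mem_stabilizer_iff]
    exact Prod.ext_iff
  rw [hst] at hz
  refine ⟨z, hz, l, ?_, ?_, hxz⟩
  · have h3 : l • (QuotientGroup.mk (1 : E) : E ⧸ L) = QuotientGroup.mk (1 : E) :=
      congrArg Prod.fst hl1
    rw [← st1, MulAction.mem_stabilizer_iff]
    exact h3
  · have h3 : l • (QuotientGroup.mk (g⁻¹) : E ⧸ L') = QuotientGroup.mk (1 : E) :=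
      congrArg Prod.snd hl1
    rw [MulAction.Quotient.smul_coe, smul_eq_mul, eq_comm, QuotientGroup.eq] at h3
    simpa using h3

end Pool.Agent.HL
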