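import Pool.Agent.HL.Defs

set_option autoImplicit false
set_option linter.unusedSectionVars false

noncomputable section

open scoped InnerProductSpace ENNReal Topology
open Classical Filter ContinuousLinearMap

namespace Pool.Agent.HL

open Pool.Agent.VN Pool.Agent.LFT Pool.Agent.HI Pool.Agent.HC Pool.Agent.HX

variable {k : Subring ℂ} {E U F : Type} [Group E] [Ring U] [DivisionRing F]

/-- invertibility of matrices over the group ring, from the description of ranks -/
lemma B1_hu (ρ : RankFn U) (D : Dat E ℂ U)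
    (hunit : ∀ {n : Type} [Fintype n] [DecidableEq n] (A : Matrix n n U),
      ρ.rk A = Fintype.card n → IsUnit A)
    (hrk : ∀ {m n : Type} [Fintype m] [Fintype n] (a : m → n → (E →₀ ℂ)),
      ρ.rk (Matrix.of fun i j => D.gr (a i j)) = (Fintype.card n : ℝ)
        - vdim (Sol (Set.range (colG a)) : Set (L2 n E))) :
    ∀ (J : Type) [Fintype J] [DecidableEq J] (a : J → J → (E →₀ ℂ)),
      IsUnit (Matrix.of fun i j => D.gr (a i j)) ↔ Sol (Set.range (colG a)) = ⊥ := by
  intro J _ _ a
  constructor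
  · intro hA
    have h1 := rk_of_isUnit ρ hA
    rw [hrk] at h1
    exact eq_bot_of_vdim_eq_zero (Sol_invar _) (Sol_closed _) (by linarith)
  · intro hA
    apply hunit
    rw [hrk, hA, vdim_bot, sub_zero]

/-- values over a subgroup satisfying the conjecture are zero or units -/
lemma B1_all (ρ : RankFn U) (D : Dat E ℂ U) (hfaith : ρ.Faithful)
    (hunit : ∀ {n : Type} [Fintype n] [DecidableEq n] (A : Matrix n n U),
      ρ.rk A = Fintype.card n → IsUnit A)
    (hrk : ∀ {m n : Type} [Fintype m] [Fintype n] (a : m → n → (E →₀ ℂ)),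
      ρ.rk (Matrix.of fun i j => D.gr (a i j)) = (Fintype.card n : ℝ)
        - vdim (Sol (Set.range (colG a)) : Set (L2 n E)))
    (H : Subgroup E) (hAt : AtiyahOver k H) :
    ∀ x ∈ RCs (SN (D.restrict k) H), x = 0 ∨ IsUnit x := by
  intro x hx
  obtain ⟨n, M, hM, hMrk⟩ := RC_schur hx
  have h1 := hMrk (RingHom.id U) ρ
  have e0 : M.map (RingHom.id U) = M := by
    ext i j
    rfl
  have e0' : RingHom.id U x = x := rfl
  rw [e0, e0'] at h1
  choose a ha1 ha2 ha3 using fun i j => D.SN_form k H (hM i j)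
  have e1 : M = Matrix.of fun i j => D.gr (a i j) := by
    ext i j
    rw [ha3]
    rfl
  obtain ⟨b, hb1, hb2⟩ := exists_restrict H k a ha1 ha2
  have e2 : Set.range (colG a) = mapF H.subtype '' Set.range (colG b) := by
    rw [← Set.range_comp]
    congr 1
    funext i
    exact hb2 i
  obtain ⟨z, hz⟩ := hAt.forms (Set.range (colG b)) (Set.finite_range _) (by
    rintro _ ⟨i, rfl⟩ p
    exact colG_coef b hb1 i p)
  rw [e1, hrk, e2, vdim_induced _ (Subgroup.subtype_injective _), hz] at h1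
  have h2 : ρ.rk (one1 x) = ((1 - z : ℤ) : ℝ) := by
    rw [Fintype.card_sum, Fintype.card_fin, Fintype.card_unit] at h1
    push_cast at h1 ⊢
    linarith
  have h3 : 0 ≤ 1 - z := by
    have := ρ.rk_nonneg (one1 x)
    rw [h2] at this
    exact_mod_cast this
  have h4 : 1 - z ≤ 1 := by
    have := ρ.rk_le_card (one1 x)
    rw [h2, Fintype.card_unit] at this
    exact_mod_cast this
  rcases (by omega : 1 - z = 0 ∨ 1 - z = 1) with h5 | h5
  · left
    apply hfaith
    rw [h2, h5, Int.cast_zero]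
  · right
    have h6 : IsUnit (one1 x) := by
      apply hunit
      rw [h2, h5, Fintype.card_unit, Int.cast_one, Nat.cast_one]
    rw [isUnit_unit_matrix] at h6
    exact h6

/-- a ring with a rank function is not trivial -/
lemma B1_nontrivial (ρ : RankFn U) : Nontrivial U := by
  by_contra hcon
  rw [not_nontrivial_iff_subsingleton] at hcon
  have h1 : ρ.rk (1 : Matrix Unit Unit U) = 1 := by
    rw [ρ.rk_one, Fintype.card_unit, Nat.cast_one]
  have h2 : (1 : Matrix Unit Unit U)
      = (0 : Matrix Unit Empty U) * (0 : Matrix Empty Unit U) := by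
    ext i j
    exact Subsingleton.elim _ _
  have h3 := ρ.rk_mul_le_right (0 : Matrix Unit Empty U) (0 : Matrix Empty Unit U)
  have h4 := ρ.rk_le_card' (0 : Matrix Empty Unit U)
  rw [← h2, h1] at h3
  rw [Fintype.card_empty, Nat.cast_zero] at h4
  linarith

/-- B1: existence of models -/
theorem exists_mdl (k : Subring ℂ) (E : Type) [Group E] (h : AtiyahOver k E) :
    ∃ (U F : Type) (_ : Ring U) (_ : DivisionRing F), Nonempty (Mdl k E U F) := by
  have hε0 : Tendsto (fun j : ℕ => 1 / ((j : ℝ) + 1)) (hyperfilter ℕ : Ultrafilter ℕ) (𝓝 0) :=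
    tendsto_one_div_add_atTop_nhds_zero_nat.mono_left Nat.hyperfilter_le_atTop
  obtain ⟨U, instU, ρ, D, hfaith, hunit, hlim⟩ := exists_grModel (G := E) (hyperfilter ℕ)
    (fun j : ℕ => 1 / ((j : ℝ) + 1)) (fun j => by positivity) hε0
    (H := fun _ => E) (fun _ => MonoidHom.id E)
  have hunit' : ∀ {n : Type} [Fintype n] [DecidableEq n] (A : Matrix n n U),
      ρ.rk A = Fintype.card n → IsUnit A := fun {n} _ _ A => hunit n A
  have hrk : ∀ {m n : Type} [Fintype m] [Fintype n] (a : m → n → (E →₀ ℂ)),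
      ρ.rk (Matrix.of fun i j => D.gr (a i j)) = (Fintype.card n : ℝ)
        - vdim (Sol (Set.range (colG a)) : Set (L2 n E)) := by
    intro m n _ _ a
    refine tendsto_nhds_unique (hlim a) ?_
    have e : (fun i => mapF (MonoidHom.id E) (colG a i)) = colG a := by
      funext i
      exact mapF_eq' _
    rw [e]
    exact tendsto_const_nhds
  have hall := B1_all (k := k) ρ D hfaith hunit' hrk ⊤
    (h.of_injective (Subgroup.subtype ⊤) (Subgroup.subtype_injective _))
  have hnt : Nontrivial U := B1_nontrivial ρ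
  have hu : ∀ a : RCs (SN (D.restrict k) ⊤), IsUnit a ∨ a = 0 := by
    rintro ⟨x, hx⟩
    rcases hall x hx with h0 | h0
    · right
      exact Subtype.ext h0
    · left
      have h1 := RCs_inverse hx
      exact ⟨⟨⟨x, hx⟩, ⟨Ring.inverse x, h1⟩, Subtype.ext (Ring.mul_inverse_cancel x h0),
        Subtype.ext (Ring.inverse_mul_cancel x h0)⟩, rfl⟩
  let hdiv : DivisionRing (RCs (SN (D.restrict k) ⊤)) := DivisionRing.ofIsUnitOrEqZero hu
  refine ⟨U, RCs (SN (D.restrict k) ⊤), instU, hdiv, ⟨?_⟩⟩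
  exact
    { ρ := ρ
      D := D
      faith := hfaith
      unit := hunit'
      rk := hrk
      emb := (RCs (SN (D.restrict k) ⊤)).subtype
      inj := Subtype.val_injective
      rng := fun x => ⟨fun hx => ⟨⟨x, hx⟩, rfl⟩, by rintro ⟨f, rfl⟩; exact f.2⟩ }

/-- B1: the hypothesis (F) -/
theorem mdl_hF (M : Mdl k E U F) : ∀ (H : Subgroup E) (φ : H →* Multiplicative ℤ) (t : H),
      φ t = Multiplicative.ofAdd 1 → ∀ (J : Type) [Fintype J] [DecidableEq J] (M0 M1 : Matrix J J U),
      (∀ i j, M0 i j ∈ SN (M.D.restrict k) (φ.ker.map H.subtype)) →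
      (∀ i j, M1 i j ∈ SN (M.D.restrict k) (φ.ker.map H.subtype)) →
      IsUnit M0 → IsUnit (M0 + Matrix.of fun i j => M1 i j * (M.D.restrict k).ι (t : E)) :=
  hF_of M.D k (B1_hu M.ρ M.D M.unit M.rk)

/-- B1: the hypothesis (E) -/
theorem mdl_hE (M : Mdl k E U F) :
    ∀ (n : ℕ) (β : Matrix (Fin n) (Fin n) U) (b c v : Fin n → U), IsUnit (1 - β) →
      (∀ i, v i = ∑ j, β i j * v j + b i) → (∀ k : ℕ, ∑ i, c i * (Matrix.mulVec (β ^ k) b) i = 0) →
      ∑ i, c i * v i = 0 :=
  hE_of M.ρ M.faith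

/-- B1: values are zero or units -/
theorem mdl_all (M : Mdl k E U F) : ∀ x ∈ RCs (SN (M.D.restrict k) ⊤), x = 0 ∨ IsUnit x := by
  intro x hx
  obtain ⟨f, rfl⟩ := (M.rng x).1 hx
  by_cases hf : f = 0
  · left
    rw [hf, map_zero]
  · right
    refine ⟨⟨M.emb f, M.emb f⁻¹, ?_, ?_⟩, rfl⟩
    · rw [← map_mul, mul_inv_cancel₀ hf, map_one]
    · rw [← map_mul, inv_mul_cancel₀ hf, map_one]

end Pool.Agent.HL
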