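import Pool.Agent.HL.Defs
import Pool.Agent.HL.B4
import Pool.Agent.HL.B5

set_option autoImplicit false
set_option linter.unusedSectionVars false

noncomputable section

open scoped InnerProductSpace ENNReal Topology
open Classical Filter ContinuousLinearMap

namespace Pool.Agent.HL

open Pool.Agent.VN Pool.Agent.LFT Pool.Agent.HI Pool.Agent.HC Pool.Agent.HX

/-- B8: reduced echelon form -/
theorem echelon {F : Type} [DivisionRing F] {ι : Type} [Fintype ι]
    (W : Submodule Fᵐᵒᵖ (ι → F)) : ∃ (J : Set ι) (c : ι → ι → F), ∀ w : ι → F,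
      w ∈ W ↔ ∀ l, l ∉ J → w l = ∑ j, if j ∈ J then c l j * w j else 0 := by
  set P : Finset ι → Prop := fun J => ∀ v : ι → F, ∃ w ∈ W, ∀ j ∈ J, w j = v j with hP
  have h0 : P ∅ := fun v => ⟨0, W.zero_mem, by simp⟩
  obtain ⟨J, hJ, hmax⟩ := Finset.exists_max_image (Finset.univ.filter P) Finset.card
    ⟨∅, Finset.mem_filter.2 ⟨Finset.mem_univ _, h0⟩⟩
  have hPJ : P J := (Finset.mem_filter.1 hJ).2
  -- a vector of `W` which is zero on `J` is zero
  have hz : ∀ l, l ∉ J → ∀ w ∈ W, (∀ j ∈ J, w j = 0) → w l = 0 := by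
    intro l hl w hw hwJ
    by_contra hne
    have hins : P (insert l J) := by
      intro v
      obtain ⟨w1, hw1, h1⟩ := hPJ v
      refine ⟨w1 + MulOpposite.op ((w l)⁻¹ * (v l - w1 l)) • w,
        W.add_mem hw1 (W.smul_mem _ hw), fun j hj => ?_⟩
      rw [Pi.add_apply, Pi.smul_apply, MulOpposite.smul_eq_mul_unop, MulOpposite.unop_op]
      rcases Finset.mem_insert.1 hj with rfl | hj
      · rw [← mul_assoc, mul_inv_cancel₀ hne, one_mul, add_sub_cancel]
      · rw [hwJ j hj, zero_mul, add_zero, h1 j hj]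
    have h2 := hmax _ (Finset.mem_filter.2 ⟨Finset.mem_univ _, hins⟩)
    rw [Finset.card_insert_of_notMem hl] at h2
    omega
  choose b hb using fun j : ι => hPJ (Pi.single j 1)
  obtain ⟨Js, hJs⟩ : ∃ Js : Set ι, ∀ j, j ∈ Js ↔ j ∈ J := ⟨J, fun j => Iff.rfl⟩
  have key : ∀ w : ι → F, ∀ l, (∑ j ∈ J, MulOpposite.op (w j) • b j : ι → F) l =
      ∑ j, if j ∈ Js then b j l * w j else 0 := by
    intro w l
    rw [Finset.sum_apply, ← Finset.sum_filter]
    refine Finset.sum_congr ?_ fun j _ => ?_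
    · ext j
      simp [hJs]
    · rw [Pi.smul_apply, MulOpposite.smul_eq_mul_unop, MulOpposite.unop_op]
  have keyJ : ∀ w : ι → F, ∀ l ∈ J, (∑ j ∈ J, MulOpposite.op (w j) • b j : ι → F) l = w l := by
    intro w l hl
    rw [Finset.sum_apply, Finset.sum_eq_single l]
    · rw [Pi.smul_apply, MulOpposite.smul_eq_mul_unop, MulOpposite.unop_op, (hb l).2 l hl,
        Pi.single_eq_same, one_mul]
    · intro j _ hjl
      rw [Pi.smul_apply, MulOpposite.smul_eq_mul_unop, MulOpposite.unop_op, (hb j).2 l hl,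
        Pi.single_eq_of_ne hjl.symm, zero_mul]
    · intro h
      exact absurd hl h
  have hmem : ∀ w : ι → F, (∑ j ∈ J, MulOpposite.op (w j) • b j : ι → F) ∈ W := fun w =>
    W.sum_mem fun j _ => W.smul_mem _ (hb j).1
  refine ⟨Js, fun l j => b j l, fun w => ⟨fun hw l hl => ?_, fun h => ?_⟩⟩
  · change w l = ∑ j, if j ∈ Js then b j l * w j else 0
    rw [← key, ← sub_eq_zero]
    refine hz l (fun h => hl ((hJs l).2 h)) (w - ∑ j ∈ J, MulOpposite.op (w j) • b j) (W.sub_mem hw (hmem w)) fun j hj => ?_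
    rw [Pi.sub_apply, keyJ w j hj, sub_self]
  · have h1 : w = ∑ j ∈ J, MulOpposite.op (w j) • b j := by
      funext l
      by_cases hl : l ∈ J
      · exact (keyJ w l hl).symm
      · rw [key]
        exact h l fun h' => hl ((hJs l).1 h')
    rw [h1]
    exact hmem w

/-- B8: the echelon form of an invariant subspace -/
theorem echelon_inv {F : Type} [DivisionRing F] {ι : Type} [Fintype ι]
    {W : Submodule Fᵐᵒᵖ (ι → F)} {J : Set ι} {c : ι → ι → F}
    (hW : ∀ w : ι → F, w ∈ W ↔ ∀ l, l ∉ J → w l = ∑ j, if j ∈ J then c l j * w j else 0)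
    (u : ι → F) (hu : ∀ w ∈ W, (fun i => u i * w i) ∈ W) {l j : ι} (hl : l ∉ J) (hj : j ∈ J) :
    u l * c l j = c l j * u j := by
  set w : ι → F := fun i => if i ∈ J then (if i = j then 1 else 0) else c i j with hw
  have hwJ : ∀ i ∈ J, w i = if i = j then 1 else 0 := fun i hi => if_pos hi
  have hsum : ∀ (l : ι) (v : ι → F), (∑ i, if i ∈ J then c l i * (v i * w i) else 0) =
      c l j * v j := by
    intro l v
    rw [Finset.sum_eq_single j]
    · rw [if_pos hj, hwJ j hj, if_pos rfl, mul_one]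
    · intro i _ hi
      by_cases h : i ∈ J
      · rw [if_pos h, hwJ i h, if_neg hi, mul_zero, mul_zero]
      · rw [if_neg h]
    · intro h
      exact absurd (Finset.mem_univ j) h
  have hmem : w ∈ W := by
    rw [hW]
    intro l' hl'
    have h1 := hsum l' fun _ => 1
    simp only [one_mul, mul_one] at h1
    rw [h1]
    exact if_neg hl'
  have h2 := (hW _).1 (hu w hmem) l hl
  have h3 : w l = c l j := if_neg hl
  rw [h3, hsum l u] at h2
  exact h2

variable {k : Subring ℂ} {E U F : Type} [Group E] [Ring U] [DivisionRing F]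

/-- linear forms with integral coefficients at the group element one -/
def B8_frm (E : Type) [Group E] {ι κ : Type} [Fintype ι] (B : κ → ι → ℤ) :
    κ → (ι × E →₀ ℂ) := fun j => ∑ i, Finsupp.single (i, 1) (B j i : ℂ)

theorem B8_frm_apply {ι κ : Type} [Fintype ι] (B : κ → ι → ℤ) (j : κ) (p : ι × E) :
    B8_frm E B j p = if p.2 = 1 then (B j p.1 : ℂ) else 0 := by
  obtain ⟨i, g⟩ := p
  unfold B8_frm
  rw [Finsupp.finsetSum_apply]
  by_cases hg : g = 1
  · subst hg
    rw [Finset.sum_eq_single i]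
    · simp
    · intro i' _ hi'
      rw [Finsupp.single_apply, if_neg]
      intro h
      exact hi' (Prod.ext_iff.1 h).1
    · intro h
      exact absurd (Finset.mem_univ i) h
  · rw [if_neg hg]
    refine Finset.sum_eq_zero fun i' _ => ?_
    rw [Finsupp.single_apply, if_neg]
    intro h
    exact hg (Prod.ext_iff.1 h).2.symm

theorem B8_coef {ι κ : Type} [Fintype ι] (B : κ → ι → ℤ) (j : κ) : CoefIn k (B8_frm E B j) := by
  intro p
  rw [B8_frm_apply]
  split_ifs
  · exact intCast_mem k _
  · exact k.zero_mem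

theorem B8_lab {X : Type} [MulAction E X] {ι κ : Type} [Fintype ι] (B : κ → ι → ℤ)
    {lab : ι → X} {lab' : κ → X} (h : ∀ j i, B j i ≠ 0 → lab i = lab' j) :
    ∀ j, ∀ p ∈ (B8_frm E B j).support, p.2⁻¹ • lab p.1 = lab' j := by
  intro j p hp
  rw [Finsupp.mem_support_iff, B8_frm_apply] at hp
  split_ifs at hp with h1
  · rw [h1, inv_one, one_smul]
    exact h j p.1 fun h2 => hp (by rw [h2, Int.cast_zero])
  · exact absurd rfl hp

theorem B8_mtx (M : Mdl k E U F) {ι κ : Type} [Fintype ι] (B : κ → ι → ℤ) (j : κ) (i : ι) :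
    M.mtx (B8_frm E B) j i = (B j i : U) := by
  have h1 : ∀ a : ι × E →₀ ℂ, (a.sum fun p c => if p.1 = i then M.D.sc c * M.D.ι (p.2)⁻¹ else 0) =
      (a.sum fun p c => if p.1 = i then M.D.sc c * M.D.ι (p.2)⁻¹ else 0) := fun _ => rfl
  change ((B8_frm E B j).sum fun p c => if p.1 = i then M.D.sc c * M.D.ι (p.2)⁻¹ else 0) = _
  unfold B8_frm
  rw [← Finsupp.sum_finsetSum_index]
  · rw [Finset.sum_eq_single i]
    · rw [Finsupp.sum_single_index]
      · simp
      · simp
    · intro i' _ hi'
      rw [Finsupp.sum_single_index]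
      · exact if_neg hi'
      · simp
    · intro h
      exact absurd (Finset.mem_univ i) h
  · intro p
    simp
  · intro p c c'
    split_ifs
    · rw [map_add, add_mul]
    · rw [add_zero]

theorem B8_mtK (M : Mdl k E U F) {ι κ : Type} [Fintype ι] (B : κ → ι → ℤ) (j : κ) (i : ι) :
    M.mtK (B8_frm E B) j i = (B j i : F) := by
  apply M.inj
  rw [mtK_emb M _ (B8_coef B), B8_mtx, map_intCast]

theorem B8_lin (M : Mdl k E U F) {ι κ : Type} [Fintype ι] (B : κ → ι → ℤ) (w : ι → F) (j : κ) :
    M.lin (B8_frm E B) w j = ∑ i, (B j i : F) * w i := by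
  change (M.mtK (B8_frm E B)).mulVec w j = _
  rw [Matrix.mulVec, dotProduct]
  exact Finset.sum_congr rfl fun i _ => by rw [B8_mtK]

section RRset

variable (M : Mdl k E U F) {X : Type} [MulAction E X]

/-- the subspace comes from a rational subspace -/
def B8_has {ι : Type} [Fintype ι] (lab : ι → X) (W : Submodule Fᵐᵒᵖ (ι → F)) : Prop :=
  ∃ Z, M.RR lab Z W

variable {M}

theorem B8_has_inf {ι : Type} [Fintype ι] {lab : ι → X} {W W' : Submodule Fᵐᵒᵖ (ι → F)}
    (h : B8_has M lab W) (h' : B8_has M lab W') : B8_has M lab (W ⊓ W') := by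
  obtain ⟨Z, hZ⟩ := h
  obtain ⟨Z', hZ'⟩ := h'
  exact ⟨_, rr_inf hZ hZ'⟩

theorem B8_has_iInf {ι : Type} [Fintype ι] {lab : ι → X} {τ : Type} (s : Finset τ)
    {W : τ → Submodule Fᵐᵒᵖ (ι → F)} (h : ∀ i ∈ s, B8_has M lab (W i)) :
    B8_has M lab (s.inf W) := by
  induction s using Finset.induction_on with
  | empty => exact ⟨_, rr_top M lab⟩
  | insert i s hi ih =>
    rw [Finset.inf_insert]
    exact B8_has_inf (h i (Finset.mem_insert_self i s))
      (ih fun j hj => h j (Finset.mem_insert_of_mem hj))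

theorem B8_has_comap {ι κ : Type} [Fintype ι] [Fintype κ] {lab : ι → X} {lab' : κ → X}
    (B : κ → ι → ℤ) (hB : ∀ j i, B j i ≠ 0 → lab i = lab' j) {W : Submodule Fᵐᵒᵖ (κ → F)}
    (h : B8_has M lab' W) : B8_has M lab (W.comap (M.lin (B8_frm E B))) := by
  obtain ⟨Z, hZ⟩ := h
  exact ⟨_, rr_comap (B8_frm E B) (B8_coef B) (B8_lab B hB) hZ⟩

theorem B8_has_map {ι κ : Type} [Fintype ι] [Fintype κ] {lab : ι → X} {lab' : κ → X}
    (B : κ → ι → ℤ) (hB : ∀ j i, B j i ≠ 0 → lab i = lab' j) {W : Submodule Fᵐᵒᵖ (ι → F)}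
    (h : B8_has M lab W) : B8_has M lab' (W.map (M.lin (B8_frm E B))) := by
  obtain ⟨Z, hZ⟩ := h
  exact ⟨_, rr_imc (B8_frm E B) (B8_coef B) (B8_lab B hB) hZ⟩

/-- one integral linear equation -/
theorem B8_has_eq {ι : Type} [Fintype ι] {lab : ι → X} (b : ι → ℤ) (x : X)
    (hb : ∀ i, b i ≠ 0 → lab i = x) (W : Submodule Fᵐᵒᵖ (ι → F))
    (hW : ∀ w, w ∈ W ↔ ∑ i, (b i : F) * w i = 0) : B8_has M lab W := by
  have h1 : B8_has M (fun _ : Unit => x) (⊥ : Submodule Fᵐᵒᵖ (Unit → F)) := ⟨_, rr_bot M _⟩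
  have h2 := B8_has_comap (lab := lab) (fun (_ : Unit) i => b i) (fun _ i hi => hb i hi) h1
  have h3 : W = (⊥ : Submodule Fᵐᵒᵖ (Unit → F)).comap (M.lin (B8_frm E fun (_ : Unit) i => b i)) := by
    ext w
    rw [hW, Submodule.mem_comap, Submodule.mem_bot]
    constructor
    · intro h
      funext j
      rw [B8_lin]
      exact h
    · intro h
      have := congrFun h ()
      rwa [B8_lin] at this
  rw [h3]
  exact h2

/-- one homogeneous relation -/
theorem B8_has_rel {ι : Type} [Fintype ι] (lab : ι → X) (J : Set ι) (c : ι → F) (l : ι)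
    (hc : ∀ j ∈ J, c j = 0 ∨ ∃ g : E, g • lab j = lab l ∧
      ∃ z ∈ RCs (SN (M.D.restrict k) (MulAction.stabilizer E (lab l))),
        M.emb (c j) = z * M.D.ι g)
    (W : Submodule Fᵐᵒᵖ (ι → F))
    (hW : ∀ w : ι → F, w ∈ W ↔ w l = ∑ j, if j ∈ J then c j * w j else 0) :
    B8_has M lab W := by
  set LL : ι ⊕ ι → X := Sum.elim lab fun _ => lab l with hLL
  -- the graphs
  have hg : ∀ j, ∃ T : Submodule Fᵐᵒᵖ (ι ⊕ ι → F), B8_has M LL T ∧ ∀ w, w ∈ T ↔
      w (Sum.inr j) = (if j ∈ J then c j else 0) * w (Sum.inl j) := by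
    intro j
    by_cases h0 : j ∈ J ∧ c j ≠ 0
    · obtain ⟨hj, hcj⟩ := h0
      obtain h | ⟨g, hgl, z, hz, hcz⟩ := hc j hj
      · exact absurd h hcj
      · obtain ⟨Z, hZ⟩ := rr_graph M (fun b : Bool => if b = true then lab l else lab j) g
          (by simpa using hgl) (z := z) (by simpa using hz)
        refine ⟨(M.gS (z * M.D.ι g)).comap (M.lin (B8_frm E fun (b : Bool) (p : ι ⊕ ι) =>
            if p = (if b = true then Sum.inr j else Sum.inl j) then 1 else 0)),
          B8_has_comap _ (fun b p hp => ?_) ⟨Z, hZ⟩, fun w => ?_⟩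
        · have h3 : p = (if b = true then Sum.inr j else Sum.inl j) := by
            by_contra h4
            exact hp (if_neg h4)
          rw [h3]
          cases b <;> rfl
        · have hpr : ∀ b : Bool, M.lin (B8_frm E fun (b : Bool) (p : ι ⊕ ι) =>
              if p = (if b = true then Sum.inr j else Sum.inl j) then 1 else 0) w b =
              w (if b = true then Sum.inr j else Sum.inl j) := by
            intro b
            rw [B8_lin, Finset.sum_eq_single (if b = true then Sum.inr j else Sum.inl j)]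
            · simp
            · intro p _ hp
              rw [if_neg hp]
              simp
            · intro h
              exact absurd (Finset.mem_univ _) h
          rw [Submodule.mem_comap]
          change M.emb (M.lin _ w true) = (z * M.D.ι g) * M.emb (M.lin _ w false) ↔ _
          rw [hpr, hpr, if_pos rfl, if_neg Bool.false_ne_true, ← hcz, ← map_mul, if_pos hj]
          exact ⟨fun h => M.inj h, fun h => congrArg _ h⟩
    · have h1 : (if j ∈ J then c j else 0) = 0 := by
        by_cases hj : j ∈ J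
        · rw [if_pos hj]
          by_contra h
          exact h0 ⟨hj, h⟩
        · rw [if_neg hj]
      obtain ⟨W0, hW0⟩ : ∃ W0 : Submodule Fᵐᵒᵖ (ι ⊕ ι → F), ∀ w, w ∈ W0 ↔ w (Sum.inr j) = 0 :=
        ⟨LinearMap.ker (LinearMap.proj (Sum.inr j)), fun w => Iff.rfl⟩
      refine ⟨W0, B8_has_eq (Pi.single (Sum.inr j) 1) (lab l) (fun p hp => ?_) W0
        (fun w => ?_), fun w => ?_⟩
      · have h3 : p = Sum.inr j := by
          by_contra h4
          exact hp (Pi.single_eq_of_ne h4 _)
        rw [h3]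
        rfl
      · rw [hW0, Finset.sum_eq_single (Sum.inr j)]
        · simp
        · intro p _ hp
          rw [Pi.single_eq_of_ne hp]
          simp
        · intro h
          exact absurd (Finset.mem_univ _) h
      · rw [hW0, h1, zero_mul]
  choose T hT1 hT2 using hg
  -- the sum
  obtain ⟨S, hS1, hS2⟩ : ∃ S : Submodule Fᵐᵒᵖ (ι ⊕ ι → F), B8_has M LL S ∧ ∀ w, w ∈ S ↔
      w (Sum.inl l) = ∑ j, w (Sum.inr j) := by
    obtain ⟨W0, hW0⟩ : ∃ W0 : Submodule Fᵐᵒᵖ (ι ⊕ ι → F), ∀ w, w ∈ W0 ↔
        w (Sum.inl l) = ∑ j, w (Sum.inr j) := by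
      refine ⟨{ carrier := {w | w (Sum.inl l) = ∑ j, w (Sum.inr j)}
                add_mem' := ?_
                zero_mem' := ?_
                smul_mem' := ?_ }, fun w => Iff.rfl⟩
      · intro v w hv hw
        change v (Sum.inl l) + w (Sum.inl l) = ∑ j, (v (Sum.inr j) + w (Sum.inr j))
        rw [Finset.sum_add_distrib]
        exact congrArg₂ (· + ·) hv hw
      · simp
      · intro a w hw
        change w (Sum.inl l) * a.unop = ∑ j, w (Sum.inr j) * a.unop
        rw [← Finset.sum_mul]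
        exact congrArg (· * a.unop) hw
    refine ⟨W0, B8_has_eq (Sum.elim (fun i => if i = l then 1 else 0) fun _ => -1) (lab l)
      (fun p hp => ?_) W0 (fun w => ?_), hW0⟩
    · rcases p with i | i
      · have h3 : i = l := by
          by_contra h4
          exact hp (if_neg h4)
        rw [h3]
        rfl
      · rfl
    · rw [hW0, Fintype.sum_sum_type]
      have h4 : (∑ i, ((Sum.elim (fun i => if i = l then (1 : ℤ) else 0) (fun _ => -1)
          (Sum.inl i : ι ⊕ ι) : ℤ) : F) * w (Sum.inl i)) = w (Sum.inl l) := by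
        rw [Finset.sum_eq_single l]
        · simp
        · intro i _ hi
          simp [hi]
        · intro h
          exact absurd (Finset.mem_univ _) h
      rw [h4]
      simp only [Sum.elim_inr, Int.cast_neg, Int.cast_one, neg_mul, one_mul,
        Finset.sum_neg_distrib]
      rw [add_neg_eq_zero]
  have h1 := B8_has_inf (B8_has_iInf Finset.univ fun j _ => hT1 j) hS1
  have h2 := B8_has_map (lab' := lab) (fun (i : ι) (p : ι ⊕ ι) => if p = Sum.inl i then 1 else 0)
    (fun i p hp => by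
      have h3 : p = Sum.inl i := by
        by_contra h4
        exact hp (if_neg h4)
      rw [h3]
      rfl) h1
  have h3 : W = (Finset.univ.inf T ⊓ S).map
      (M.lin (B8_frm E fun (i : ι) (p : ι ⊕ ι) => if p = Sum.inl i then 1 else 0)) := by
    have hpr : ∀ (w : ι ⊕ ι → F), M.lin (B8_frm E fun (i : ι) (p : ι ⊕ ι) =>
        if p = Sum.inl i then 1 else 0) w = fun i => w (Sum.inl i) := by
      intro w
      funext i
      rw [B8_lin, Finset.sum_eq_single (Sum.inl i)]
      · simp
      · intro p _ hp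
        rw [if_neg hp]
        simp
      · intro h
        exact absurd (Finset.mem_univ _) h
    ext w
    rw [hW, Submodule.mem_map]
    constructor
    · intro h
      refine ⟨Sum.elim w fun j => (if j ∈ J then c j else 0) * w j, ⟨?_, ?_⟩, ?_⟩
      · refine (Submodule.mem_finsetInf).2 fun j _ => (hT2 j _).2 ?_
        rfl
      · refine (hS2 _).2 ?_
        change w l = ∑ j, (if j ∈ J then c j else 0) * w j
        rw [h]
        refine Finset.sum_congr rfl fun j _ => ?_
        split_ifs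
        · rfl
        · rw [zero_mul]
      · rw [hpr]
        rfl
    · rintro ⟨v, ⟨hv1, hv2⟩, rfl⟩
      rw [hpr]
      have h4 := (hS2 v).1 hv2
      change v (Sum.inl l) = ∑ j, if j ∈ J then c j * v (Sum.inl j) else 0
      rw [h4]
      refine Finset.sum_congr rfl fun j _ => ?_
      rw [(hT2 j v).1 ((Submodule.mem_finsetInf).1 hv1 j (Finset.mem_univ _))]
      split_ifs
      · rfl
      · rw [zero_mul]
  rw [h3]
  exact h2

end RRset

/-- B8: subspaces with homogeneous echelon form come from rational subspaces -/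
theorem rr_assemble (M : Mdl k E U F) {X : Type} [MulAction E X] {ι : Type} [Fintype ι]
    (lab : ι → X) (J : Set ι) (c : ι → ι → F)
    (hc : ∀ l, l ∉ J → ∀ j ∈ J, c l j = 0 ∨ ∃ g : E, g • lab j = lab l ∧
      ∃ z ∈ RCs (SN (M.D.restrict k) (MulAction.stabilizer E (lab l))),
        M.emb (c l j) = z * M.D.ι g)
    (W : Submodule Fᵐᵒᵖ (ι → F))
    (hW : ∀ w : ι → F, w ∈ W ↔ ∀ l, l ∉ J → w l = ∑ j, if j ∈ J then c l j * w j else 0) :
    ∃ Z, M.RR lab Z W := by
  -- one relation
  have hl : ∀ l, l ∉ J → ∃ T : Submodule Fᵐᵒᵖ (ι → F), B8_has M lab T ∧ ∀ w, w ∈ T ↔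
      w l = ∑ j, if j ∈ J then c l j * w j else 0 := by
    intro l hl
    obtain ⟨T, hT⟩ : ∃ T : Submodule Fᵐᵒᵖ (ι → F), ∀ w, w ∈ T ↔
        w l = ∑ j, if j ∈ J then c l j * w j else 0 := by
      refine ⟨{ carrier := {w | w l = ∑ j, if j ∈ J then c l j * w j else 0}
                add_mem' := ?_
                zero_mem' := ?_
                smul_mem' := ?_ }, fun w => Iff.rfl⟩
      · intro v w hv hw
        change v l + w l = _
        rw [Set.mem_ofPred_eq] at hv hw
        rw [hv, hw, ← Finset.sum_add_distrib]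
        refine Finset.sum_congr rfl fun j _ => ?_
        split_ifs
        · rw [Pi.add_apply, mul_add]
        · rw [add_zero]
      · simp
      · intro a w hw
        change w l * a.unop = _
        rw [Set.mem_ofPred_eq] at hw
        rw [hw, Finset.sum_mul]
        refine Finset.sum_congr rfl fun j _ => ?_
        split_ifs
        · exact mul_assoc _ _ _
        · rw [zero_mul]
    exact ⟨T, B8_has_rel lab J (c l) l (hc l hl) T hT, hT⟩
  choose T hT1 hT2 using hl
  have h1 := B8_has_iInf (M := M) (lab := lab) (Finset.univ : Finset {l // l ∉ J})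
    (W := fun l => T l.1 l.2) fun l _ => hT1 l.1 l.2
  have h2 : W = (Finset.univ : Finset {l // l ∉ J}).inf fun l => T l.1 l.2 := by
    ext w
    rw [hW, Submodule.mem_finsetInf]
    constructor
    · intro h l _
      exact (hT2 l.1 l.2 w).2 (h l.1 l.2)
    · intro h l hl
      exact (hT2 l hl w).1 (h ⟨l, hl⟩ (Finset.mem_univ _))
  rw [h2]
  exact h1

end Pool.Agent.HL
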