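import Pool.Agent.HL.Defs
import Pool.Agent.HL.B8
import Pool.Agent.HL.A6
import Pool.Agent.HL.B1

set_option autoImplicit false
set_option linter.unusedSectionVars false

noncomputable section

open scoped InnerProductSpace ENNReal Topology
open Classical Filter ContinuousLinearMap

namespace Pool.Agent.HL

open Pool.Agent.VN Pool.Agent.LFT Pool.Agent.HI Pool.Agent.HC Pool.Agent.HX

section FG

variable {X : Type}

/-- words in other letters are fixed by the endomorphism which kills a letter -/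
lemma B9_fix {S : Set X} {x : X} (hx : x ∉ S) {f : FreeGroup X}
    (hf : f ∈ Subgroup.closure (FreeGroup.of '' S)) :
    (FreeGroup.lift fun z => if z = x then (1 : FreeGroup X) else FreeGroup.of z) f = f := by
  have h : Subgroup.closure (FreeGroup.of '' S) ≤ MonoidHom.eqLocus
      (FreeGroup.lift fun z => if z = x then (1 : FreeGroup X) else FreeGroup.of z)
      (MonoidHom.id _) := by
    rw [Subgroup.closure_le]
    rintro _ ⟨z, hz, rfl⟩
    show (FreeGroup.lift fun z => if z = x then (1 : FreeGroup X) else FreeGroup.of z)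
      (FreeGroup.of z) = FreeGroup.of z
    rw [FreeGroup.lift_apply_of, if_neg]
    rintro rfl
    exact hx hz
  exact h hf

/-- a word in other letters which commutes with a letter is trivial -/
lemma B9_comm {S : Set X} {x : X} (hx : x ∉ S) {f : FreeGroup X}
    (hf : f ∈ Subgroup.closure (FreeGroup.of '' S))
    (h : f * FreeGroup.of x = FreeGroup.of x * f) : f = 1 := by
  by_contra hne
  have h0 : FreeGroup.of x ≠ f := by
    intro he
    have h1 := B9_fix hx hf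
    rw [← he, FreeGroup.lift_apply_of, if_pos rfl] at h1
    exact FreeGroup.of_ne_one x h1.symm
  have h1 : (FreeGroup.lift fun z => if z = x then Equiv.swap f (FreeGroup.of x) else
      MulAction.toPermHom (FreeGroup X) (FreeGroup X) (FreeGroup.of z)) f =
      MulAction.toPermHom (FreeGroup X) (FreeGroup X) f := by
    have h2 : Subgroup.closure (FreeGroup.of '' S) ≤ MonoidHom.eqLocus
        (FreeGroup.lift fun z => if z = x then Equiv.swap f (FreeGroup.of x) else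
          MulAction.toPermHom (FreeGroup X) (FreeGroup X) (FreeGroup.of z))
        (MulAction.toPermHom (FreeGroup X) (FreeGroup X)) := by
      rw [Subgroup.closure_le]
      rintro _ ⟨z, hz, rfl⟩
      show (FreeGroup.lift fun z => if z = x then Equiv.swap f (FreeGroup.of x) else
        MulAction.toPermHom (FreeGroup X) (FreeGroup X) (FreeGroup.of z)) (FreeGroup.of z) = _
      rw [FreeGroup.lift_apply_of, if_neg]
      rintro rfl
      exact hx hz
    exact h2 hf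
  have h3 := congrArg (FreeGroup.lift fun z => if z = x then Equiv.swap f (FreeGroup.of x) else
      MulAction.toPermHom (FreeGroup X) (FreeGroup X) (FreeGroup.of z)) h
  rw [map_mul, map_mul, h1, FreeGroup.lift_apply_of, if_pos rfl] at h3
  have h4 := congrArg (fun p : Equiv.Perm (FreeGroup X) => p 1) h3
  simp only [Equiv.Perm.mul_apply] at h4
  rw [Equiv.swap_apply_of_ne_of_ne (Ne.symm hne) (FreeGroup.of_ne_one x).symm] at h4
  have h5 : (MulAction.toPermHom (FreeGroup X) (FreeGroup X) f) 1 = f := by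
    show f • (1 : FreeGroup X) = f
    rw [smul_eq_mul, mul_one]
  rw [h5, Equiv.swap_apply_left] at h4
  exact h0 h4.symm

lemma B9_free {S : Set X} {x y : X} (hx : x ∉ S) (hy : y ∉ S) {f : FreeGroup X}
    (hf : f ∈ Subgroup.closure (FreeGroup.of '' S))
    (h : (FreeGroup.of x)⁻¹ * f * FreeGroup.of y ∈ Subgroup.closure (FreeGroup.of '' S)) :
    f = 1 ∧ x = y := by
  have hk : Subgroup.closure (FreeGroup.of '' S) ≤
      (FreeGroup.lift fun z => if z ∈ S then (1 : FreeGroup X) else FreeGroup.of z).ker := by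
    rw [Subgroup.closure_le]
    rintro _ ⟨z, hz, rfl⟩
    show (FreeGroup.lift fun z => if z ∈ S then (1 : FreeGroup X) else FreeGroup.of z)
      (FreeGroup.of z) = 1
    rw [FreeGroup.lift_apply_of, if_pos hz]
  have h1 := MonoidHom.mem_ker.1 (hk h)
  have h2 := MonoidHom.mem_ker.1 (hk hf)
  rw [map_mul, map_mul, map_inv, h2, mul_one, FreeGroup.lift_apply_of, FreeGroup.lift_apply_of,
    if_neg hx, if_neg hy, inv_mul_eq_one] at h1
  have hxy : x = y := FreeGroup.of_injective h1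
  subst hxy
  refine ⟨B9_comm hx hf ?_, rfl⟩
  have h3 := B9_fix hx h
  rw [map_mul, map_mul, map_inv, B9_fix hx hf, FreeGroup.lift_apply_of, if_pos rfl, inv_one,
    one_mul, mul_one] at h3
  calc f * FreeGroup.of x
      = FreeGroup.of x * ((FreeGroup.of x)⁻¹ * f * FreeGroup.of x) := by group
    _ = FreeGroup.of x * f := by rw [← h3]

end FG

section Sub

variable {A Ξ : Type} [Group A] [MulAction A Ξ]

lemma B9_phi (a : A) (m : ℕ) {f : FreeGroup (Lett Ξ)}
    (hf : f ∈ Subgroup.closure (FreeGroup.of '' {x : Lett Ξ | x.2 < m})) :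
    phi (Lett Ξ) A a f ∈ Subgroup.closure (FreeGroup.of '' {x : Lett Ξ | x.2 < m}) := by
  have h : Subgroup.closure (FreeGroup.of '' {x : Lett Ξ | x.2 < m}) ≤
      (Subgroup.closure (FreeGroup.of '' {x : Lett Ξ | x.2 < m})).comap
        (phi (Lett Ξ) A a).toMonoidHom := by
    rw [Subgroup.closure_le]
    rintro _ ⟨z, hz, rfl⟩
    show phi (Lett Ξ) A a (FreeGroup.of z) ∈
      Subgroup.closure (FreeGroup.of '' {x : Lett Ξ | x.2 < m})
    rw [phi_of]
    exact Subgroup.subset_closure ⟨a • z, hz, rfl⟩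
  exact h hf

/-- the elements whose left component only has letters of small level -/
def B9_H (A Ξ : Type) [Group A] [MulAction A Ξ] (m : ℕ) : Subgroup (Sd (Lett Ξ) A) where
  carrier := {g | g.left ∈ Subgroup.closure (FreeGroup.of '' {x : Lett Ξ | x.2 < m})}
  mul_mem' := by
    intro g g' hg hg'
    rw [Set.mem_ofPred_eq] at *
    rw [SemidirectProduct.mul_left]
    exact Subgroup.mul_mem _ hg (B9_phi _ m hg')
  one_mem' := by
    rw [Set.mem_ofPred_eq]
    exact Subgroup.one_mem _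
  inv_mem' := by
    intro g hg
    rw [Set.mem_ofPred_eq] at *
    rw [SemidirectProduct.inv_left]
    exact B9_phi _ m (Subgroup.inv_mem _ hg)

lemma B9_mem_H {m : ℕ} {g : Sd (Lett Ξ) A} : g ∈ B9_H A Ξ m ↔
    g.left ∈ Subgroup.closure (FreeGroup.of '' {x : Lett Ξ | x.2 < m}) := by
  rw [← Subgroup.mem_carrier]
  unfold B9_H
  rw [Set.mem_ofPred_eq]

/-- the labels -/
def B9_lab (A : Type) {Ξ : Type} (ξ : Ξ) (n : ℕ) : TD (Lett Ξ) A :=
  ((1 : FreeGroup (Lett Ξ)), mkL ξ n, true)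

lemma B9_smul_lab {g : Sd (Lett Ξ) A} {ξ ξ' : Ξ} (n : ℕ) (h1 : g.left = 1)
    (h2 : g.right • ξ = ξ') : g • B9_lab A ξ n = B9_lab A ξ' n := by
  show ((g.left * phi (Lett Ξ) A g.right 1, g.right • mkL ξ n, true) :
    FreeGroup (Lett Ξ) × Lett Ξ × Bool) = (1, mkL ξ' n, true)
  rw [h1, map_one, mul_one]
  have : g.right • mkL ξ n = mkL ξ' n := by
    show (g.right • ξ, n) = (ξ', n)
    rw [h2]
  rw [this]

lemma B9_left (x y : Lett Ξ) (g : Sd (Lett Ξ) A) :
    ((SemidirectProduct.inl (FreeGroup.of x) : Sd (Lett Ξ) A)⁻¹ * g *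
      SemidirectProduct.inl (FreeGroup.of y)).left =
      (FreeGroup.of x)⁻¹ * g.left * FreeGroup.of (g.right • y) := by
  rw [← map_inv, SemidirectProduct.mul_left, SemidirectProduct.mul_left,
    SemidirectProduct.mul_right, SemidirectProduct.left_inl, SemidirectProduct.right_inl,
    SemidirectProduct.left_inl, one_mul, map_one, phi_of]
  rfl

/-- the key computation -/
lemma B9_key {m : ℕ} {ξ ξ' : Ξ} {g : Sd (Lett Ξ) A} (hg : g ∈ B9_H A Ξ m)
    (h : (SemidirectProduct.inl (FreeGroup.of (mkL ξ m)) : Sd (Lett Ξ) A)⁻¹ * g *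
      SemidirectProduct.inl (FreeGroup.of (mkL ξ' m)) ∈ B9_H A Ξ m) :
    g.left = 1 ∧ g.right • ξ' = ξ := by
  rw [B9_mem_H, B9_left] at h
  have h1 : mkL ξ m ∉ {x : Lett Ξ | x.2 < m} := fun hlt => lt_irrefl m hlt
  have h2 : g.right • mkL ξ' m ∉ {x : Lett Ξ | x.2 < m} := fun hlt => lt_irrefl m hlt
  obtain ⟨h3, h4⟩ := B9_free h1 h2 (B9_mem_H.1 hg) h
  exact ⟨h3, (congrArg Prod.fst h4).symm⟩

lemma B9_supp_conj {G κ : Type} [Group G] {g : G} {E : Ex G κ} {N N' : Set G}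
    (hN : ∀ n ∈ N, g * n * g⁻¹ ∈ N') (hE : ∀ u ∈ E.supp, u ∈ N) :
    ∀ u ∈ (Ex.conj g E).supp, u ∈ N' := by
  induction E with
  | sc c => intro u hu; exact absurd hu (Set.notMem_empty u)
  | ad a b u iha ihb =>
    intro v hv
    rcases hv with rfl | hv | hv
    · exact hN u (hE u (Set.mem_insert _ _))
    · exact iha (fun w hw => hE w (Or.inr (Or.inl hw))) v hv
    · exact ihb (fun w hw => hE w (Or.inr (Or.inr hw))) v hv
  | mu a b iha ihb =>
    intro v hv
    rcases hv with hv | hv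
    · exact iha (fun w hw => hE w (Or.inl hw)) v hv
    · exact ihb (fun w hw => hE w (Or.inr hw)) v hv
  | iv a iha => exact iha hE

lemma B9_mono {G κ U : Type} [Group G] [Ring κ] [Ring U] (D : Dat G κ U) {N N' : Subgroup G}
    (h : N ≤ N') {x : U} (hx : x ∈ RCs (SN D N)) : x ∈ RCs (SN D N') := by
  have hs : SN D N ≤ SN D N' :=
    Subring.closure_mono (Set.union_subset_union_right _ (Set.image_mono h))
  obtain ⟨n, Q, b, c, v, hQ, hb, hc, hu, hv, rfl⟩ := hx
  exact ⟨n, Q, b, c, v, fun i j => hs (hQ i j), fun i => hs (hb i), fun i => hs (hc i), hu, hv, rfl⟩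

end Sub

variable {k : Subring ℂ} {A Ξ U F : Type} [Group A] [MulAction A Ξ] [Ring U] [DivisionRing F]

/-- the forms of the letters -/
def B9_A {ι : Type} (ξ : ι → Ξ) (m : ℕ) (i : ι) : ι × Sd (Lett Ξ) A →₀ ℂ :=
  Finsupp.single (i, (SemidirectProduct.inl (FreeGroup.of (mkL (ξ i) m)) : Sd (Lett Ξ) A)) 1

lemma B9_coef {ι : Type} (k : Subring ℂ) (ξ : ι → Ξ) (m : ℕ) (i : ι) :
    CoefIn k (B9_A (A := A) ξ m i) := coefIn_single _ _ _ k.one_mem

lemma B9_mtx {ι : Type} (M : Mdl k (Sd (Lett Ξ) A) U F) (ξ : ι → Ξ) (m : ℕ) (j i : ι) :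
    M.mtx (B9_A (A := A) ξ m) j i = if j = i then
      M.D.ι (SemidirectProduct.inl (FreeGroup.of (mkL (ξ i) m)))⁻¹ else 0 := by
  unfold Mdl.mtx B9_A
  rw [Matrix.of_apply, Finsupp.sum_single_index]
  · by_cases h : j = i
    · subst h
      rw [if_pos rfl, if_pos rfl, map_one, one_mul]
    · rw [if_neg h, if_neg h]
  · simp

lemma B9_lin {ι : Type} [Fintype ι] (M : Mdl k (Sd (Lett Ξ) A) U F) (ξ : ι → Ξ) (m : ℕ)
    (w : ι → F) : M.lin (B9_A (A := A) ξ m) w = fun i => M.mtK (B9_A (A := A) ξ m) i i * w i := by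
  funext j
  show ∑ i, M.mtK (B9_A (A := A) ξ m) j i * w i = _
  rw [Finset.sum_eq_single j]
  · intro i _ hij
    have h1 : M.emb (M.mtK (B9_A (A := A) ξ m) j i) = 0 := by
      rw [mtK_emb M _ (B9_coef k ξ m), B9_mtx, if_neg (Ne.symm hij)]
    have h2 : M.mtK (B9_A (A := A) ξ m) j i = 0 := M.inj (by rw [h1, map_zero])
    rw [h2, zero_mul]
  · intro h
    exact absurd (Finset.mem_univ _) h

/-- B9: rational subspaces which are invariant under the letters are rational over the letters -/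
theorem pi_letters (M : Mdl k (Sd (Lett Ξ) A) U F) (N0 : Subgroup (Sd (Lett Ξ) A))
    (hN0 : ∀ g ∈ N0, g.left = 1 ∧ ∀ ξ : Ξ, g.right • ξ = ξ)
    (hip : IPat (M.D.restrict k) N0 ⊤) {ι : Type} [Fintype ι] (ξ : ι → Ξ)
    {Z : Submodule ℂ (L2 ι (Sd (Lett Ξ) A))} (hZ : Rat k (fun _ : ι => ()) Z)
    (hinv : ∀ n : ℕ, ∀ z ∈ Z, Uop (Γ := A) (fun i => mkL (ξ i) n) z ∈ Z)
    (hinv' : ∀ n : ℕ, ∀ z ∈ Z, Uop' (Γ := A) (fun i => mkL (ξ i) n) z ∈ Z) (n : ℕ) :
    Rat (M := TD (Lett Ξ) A) k (fun i => ((1 : FreeGroup (Lett Ξ)), mkL (ξ i) n, true)) Z := by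
  obtain ⟨W, hRR⟩ := rr_exists M hZ
  have hcl : IsClosed (Z : Set (L2 ι (Sd (Lett Ξ) A))) := by
    obtain ⟨κ, μ, _, _, labκ, labμ, S, T, -, -, rfl⟩ := hZ
    exact Submodule.isClosed_topologicalClosure _
  -- the subspace over the division ring is invariant
  have inv : ∀ m : ℕ, ∀ w ∈ W, (fun i => M.mtK (B9_A (A := A) ξ m) i i * w i) ∈ W := by
    intro m w hw
    have h1 : M.RR (fun _ : ι => ()) (imc (mulR (B9_A (A := A) ξ m)) Z)
        (W.map (M.lin (B9_A (A := A) ξ m))) :=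
      rr_imc _ (B9_coef k ξ m) (fun _ _ _ => rfl) hRR
    have h2 : imc (mulR (B9_A (A := A) ξ m)) Z ≤ Z := imc_le hcl (hinv m)
    have h3 := (rr_le h1 hRR).1 h2
    have h4 := h3 (Submodule.mem_map_of_mem hw)
    rwa [B9_lin] at h4
  obtain ⟨J, c, hJ⟩ := echelon W
  -- the coefficients
  have hc : ∀ l, l ∉ J → ∀ j ∈ J, c l j = 0 ∨ ∃ g : Sd (Lett Ξ) A,
      g • B9_lab A (ξ j) n = B9_lab A (ξ l) n ∧
      ∃ z ∈ RCs (SN (M.D.restrict k) (MulAction.stabilizer (Sd (Lett Ξ) A) (B9_lab A (ξ l) n))),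
        M.emb (c l j) = z * M.D.ι g := by
    intro l hl j hj
    by_cases h0 : c l j = 0
    · exact Or.inl h0
    right
    set C := M.emb (c l j) with hC
    have hC0 : C ≠ 0 := fun h => h0 (M.inj (by rw [← hC, h, map_zero]))
    -- invariance
    have hconj : ∀ m : ℕ, C = M.D.ι (SemidirectProduct.inl (FreeGroup.of (mkL (ξ l) m))) * C *
        M.D.ι (SemidirectProduct.inl (FreeGroup.of (mkL (ξ j) m)))⁻¹ := by
      intro m
      have h1 := echelon_inv hJ _ (inv m) hl hj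
      have h2 := congrArg M.emb h1
      rw [map_mul, map_mul, mtK_emb M _ (B9_coef k ξ m), mtK_emb M _ (B9_coef k ξ m), B9_mtx,
        B9_mtx, if_pos rfl, if_pos rfl, ← hC] at h2
      rw [mul_assoc, ← h2, ← mul_assoc, M.D.ι_mul_inv, one_mul]
    -- expressions
    have hCr : C ∈ RCs (SN (M.D.restrict k) ⊤) := (M.rng C).2 ⟨c l j, rfl⟩
    rcases rc_form (M.D.restrict k) (mdl_all M) ⊤ C hCr with h | ⟨E, g0, -, -, hE⟩
    · exact absurd h hC0
    obtain ⟨m, hm⟩ := exists_fresh (Ξ := Ξ) (E.supp_finite.toFinset ∪ {g0})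
      (fun g : Sd (Lett Ξ) A => g.left)
    have hsupp : ∀ u ∈ E.supp, u ∈ B9_H A Ξ m := fun u hu =>
      B9_mem_H.2 (hm u (Finset.mem_union_left _ ((Set.Finite.mem_toFinset _).2 hu)))
    have hg0 : g0 ∈ B9_H A Ξ m :=
      B9_mem_H.2 (hm g0 (Finset.mem_union_right _ (Finset.mem_singleton_self _)))
    obtain ⟨xl, hxl⟩ : ∃ x : Sd (Lett Ξ) A,
      x = SemidirectProduct.inl (FreeGroup.of (mkL (ξ l) m)) := ⟨_, rfl⟩
    obtain ⟨xj, hxj⟩ : ∃ x : Sd (Lett Ξ) A,
      x = SemidirectProduct.inl (FreeGroup.of (mkL (ξ j) m)) := ⟨_, rfl⟩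
    have hmemL' : ∀ g : Sd (Lett Ξ) A, g ∈ (B9_H A Ξ m).comap (MulAut.conj xl⁻¹).toMonoidHom ↔
        xl⁻¹ * g * xl ∈ B9_H A Ξ m := by
      intro g
      rw [Subgroup.mem_comap]
      show xl⁻¹ * g * (xl⁻¹)⁻¹ ∈ B9_H A Ξ m ↔ _
      rw [inv_inv]
    have hCL : C ∈ RCs (SN (M.D.restrict k) (B9_H A Ξ m)) := by
      rw [hE]
      exact Subring.mul_mem _ (val_mem_RCs _ hsupp) (RC_of_mem (ι_mem_SN _ hg0))
    have hy : M.D.ι xl * C * M.D.ι xl⁻¹ ∈ RCs (SN (M.D.restrict k)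
        ((B9_H A Ξ m).comap (MulAut.conj xl⁻¹).toMonoidHom)) := by
      have e1 : M.D.ι xl * C * M.D.ι xl⁻¹ = (Ex.conj xl E).val (M.D.restrict k) *
          (M.D.restrict k).ι (xl * g0 * xl⁻¹) := by
        rw [val_conj, hE, map_mul, map_mul]
        show M.D.ι xl * (E.val (M.D.restrict k) * M.D.ι g0) * M.D.ι xl⁻¹ =
          M.D.ι xl * E.val (M.D.restrict k) * M.D.ι xl⁻¹ * (M.D.ι xl * M.D.ι g0 * M.D.ι xl⁻¹)
        calc M.D.ι xl * (E.val (M.D.restrict k) * M.D.ι g0) * M.D.ι xl⁻¹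
            = M.D.ι xl * E.val (M.D.restrict k) * 1 * M.D.ι g0 * M.D.ι xl⁻¹ := by
              rw [mul_one]; simp only [mul_assoc]
          _ = M.D.ι xl * E.val (M.D.restrict k) * (M.D.ι xl⁻¹ * M.D.ι xl) * M.D.ι g0 *
              M.D.ι xl⁻¹ := by rw [M.D.ι_inv_mul]
          _ = _ := by simp only [mul_assoc]
      have hcj : ∀ u ∈ B9_H A Ξ m, xl * u * xl⁻¹ ∈
          (B9_H A Ξ m).comap (MulAut.conj xl⁻¹).toMonoidHom := by
        intro u hu
        rw [hmemL']
        have : xl⁻¹ * (xl * u * xl⁻¹) * xl = u := by group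
        rw [this]
        exact hu
      rw [e1]
      refine Subring.mul_mem _ (val_mem_RCs _ ?_) (RC_of_mem (ι_mem_SN _ (hcj g0 hg0)))
      exact B9_supp_conj (N := (B9_H A Ξ m : Set (Sd (Lett Ξ) A))) hcj hsupp
    have hN1 : N0 ≤ B9_H A Ξ m := by
      intro g hg
      rw [B9_mem_H, (hN0 g hg).1]
      exact Subgroup.one_mem _
    have hN2 : N0 ≤ (B9_H A Ξ m).comap (MulAut.conj xl⁻¹).toMonoidHom := by
      intro g hg
      rw [hmemL', B9_mem_H, hxl, B9_left, (hN0 g hg).1]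
      have : g.right • mkL (ξ l) m = mkL (ξ l) m := by
        show (g.right • ξ l, m) = (ξ l, m)
        rw [(hN0 g hg).2]
      rw [this, mul_one, inv_mul_cancel]
      exact Subgroup.one_mem _
    have hCg : C = M.D.ι xl * C * M.D.ι xl⁻¹ * (M.D.restrict k).ι (xl * xj⁻¹) := by
      show C = M.D.ι xl * C * M.D.ι xl⁻¹ * M.D.ι (xl * xj⁻¹)
      rw [map_mul]
      calc C = M.D.ι xl * C * M.D.ι xj⁻¹ := by rw [hxl, hxj]; exact hconj m
        _ = M.D.ι xl * C * (M.D.ι xl⁻¹ * M.D.ι xl) * M.D.ι xj⁻¹ := by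
            rw [M.D.ι_inv_mul, mul_one]
        _ = _ := by simp only [mul_assoc]
    obtain ⟨z, hz, lam, hlam, hlam', hCz⟩ := hip _ _ hN1 hN2 le_top le_top C hCL _ hy
      (xl * xj⁻¹) (Subgroup.mem_top _) hCg hC0
    -- the group element
    have hl1 : xl⁻¹ * lam * xj ∈ B9_H A Ξ m := by
      rw [hmemL'] at hlam'
      have : xl⁻¹ * (lam * (xl * xj⁻¹)⁻¹) * xl = xl⁻¹ * lam * xj := by group
      rwa [this] at hlam'
    rw [hxl, hxj] at hl1
    obtain ⟨hl2, hl3⟩ := B9_key hlam hl1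
    refine ⟨lam, B9_smul_lab n hl2 hl3, z, ?_, hCz⟩
    refine B9_mono _ ?_ hz
    rintro g ⟨hg1, hg2⟩
    have hg3 := (hmemL' g).1 hg2
    rw [hxl] at hg3
    obtain ⟨hg4, hg5⟩ := B9_key hg1 hg3
    rw [MulAction.mem_stabilizer_iff]
    exact B9_smul_lab n hg4 hg5
  obtain ⟨Z', hRR'⟩ := rr_assemble M (fun i => B9_lab A (ξ i) n) J c hc W hJ
  have h1 : Z' ≤ Z := (rr_le hRR' hRR).2 le_rfl
  have h2 : Z ≤ Z' := (rr_le hRR hRR').2 le_rfl
  rw [le_antisymm h2 h1]
  exact rr_rat hRR'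

end Pool.Agent.HL
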