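import Pool.Agent.HL.Defs

set_option autoImplicit false
set_option linter.unusedSectionVars false

noncomputable section

open scoped InnerProductSpace ENNReal Topology
open Classical Filter ContinuousLinearMap

namespace Pool.Agent.HL

open Pool.Agent.VN Pool.Agent.LFT Pool.Agent.HI Pool.Agent.HC Pool.Agent.HX

/-- C1 -/
theorem atiyah_lc (k : Subring ℂ) (Q : Type) [Group Q] (h : LC k Q) (A : Type) [Group A]
    (p : A →* Q) (hp : AtiyahOver k p.ker) : AtiyahOver k A := by
  refine atiyah_of_fg k A fun H hH hf => ?_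
  set p1 : H →* H.map p := p.subgroupMap H with hp1
  have hsurj : Function.Surjective p1 := p.subgroupMap_surjective H
  have hFG : (H.map p).FG := by
    classical
    obtain ⟨S, hS⟩ := hH
    refine ⟨S.image p, ?_⟩
    rw [Finset.coe_image, ← MonoidHom.map_closure, hS]
  have hPB : Pool.Agent.HE.PB k (H.map p) := by
    refine h (H.map p) hFG fun f => ?_
    refine MonoidHom.ext fun x => ?_
    obtain ⟨y, rfl⟩ := hsurj x
    exact DFunLike.congr_fun (hf (f.comp p1)) y
  have hker : AtiyahOver k p1.ker := by
    have hmem : ∀ g : p1.ker, ((g : H) : A) ∈ p.ker := by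
      intro g
      have h1 : p1 (g : H) = 1 := g.2
      have h2 : ((p1 (g : H) : H.map p) : Q) = 1 := by
        rw [h1]
        rfl
      exact h2
    refine AtiyahOver.of_injective hp (MonoidHom.mk' (fun g : p1.ker =>
      (⟨((g : H) : A), hmem g⟩ : p.ker)) fun a b => rfl) ?_
    intro a b hab
    exact Subtype.ext (Subtype.ext (congrArg (fun x : p.ker => x.1) hab))
  have h1 : Coc (fun (g : H.map p) (_ : Unit) => g) := ⟨fun _ _ _ => rfl, fun _ _ _ h => h⟩
  have h2 := (hPB (H.map p) Unit _ h1 H p1 hker).1 Unit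
  exact atiyah_of_int0 (Int0.of_map (M' := Via p1 Unit × Unit)
    (fun _ => ((toVia _ (), ()))) (fun _ _ => rfl) h2)

end Pool.Agent.HL
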