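import Pool.Agent.HL.Defs
import Pool.Agent.HE.Groups
import Pool.Agent.EH.P17

set_option autoImplicit false
set_option linter.unusedSectionVars false

noncomputable section

open scoped InnerProductSpace ENNReal Topology
open Classical Filter ContinuousLinearMap

namespace Pool.Agent.HL

open Pool.Agent.VN Pool.Agent.LFT Pool.Agent.HI Pool.Agent.HC Pool.Agent.HX
open Pool.Agent.HE (phi_triv)

section Forest

variable {B D A E : Type} [Group B] [MulAction B D] [MulAction B A] [MulAction B E]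

/-- groups acting on trees, given by darts, vertices and edges -/
theorem C3_forest (k : Subring ℂ) {α0 : D → A} {α1 : D → E}
    (h0 : ∀ (g : B) δ, α0 (g • δ) = g • α0 δ) (h1 : ∀ (g : B) δ, α1 (g • δ) = g • α1 δ)
    (hedge : ∀ (δ : D) (g : B), g • α1 δ = α1 δ → g • δ = δ) (hhalf : Half α0 α1)
    (hconn : ∀ δ δ', Conn α0 α1 δ δ') (o : E → A) (ho : ∀ (g : B) e, o (g • e) = g • o e)
    (δ0 : D) (h : ∀ v : A, Pool.Agent.HE.PB k (MulAction.stabilizer B v)) :
    Pool.Agent.HE.PB k B := by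
  intro G W _ _ c hc
  refine Pool.Agent.HE.good_step (D := Tw hc D) (A := Tw hc A) (B := Tw hc E)
    (a := fun x => mkTw hc x.1 (α0 x.2)) (b := fun x => mkTw hc x.1 (α1 x.2))
    (β := fun x => x.1) (βA := fun x => x.1) (βB := fun x => x.1)
    (fun g x => ?_) (fun g x => ?_) (fun g x => rfl) (fun g x => rfl) (fun g x => rfl)
    (fun x => rfl) (fun x => rfl) (fun w => ⟨mkTw hc w δ0, rfl⟩) ?_ ?_ ?_
    (fun x => mkTw hc x.1 (o x.2)) (fun g x => ?_) ?_
  · show mkTw hc (g • x.1) (α0 (c g x.1 • x.2)) = mkTw hc (g • x.1) (c g x.1 • α0 x.2)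
    rw [h0]
  · show mkTw hc (g • x.1) (α1 (c g x.1 • x.2)) = mkTw hc (g • x.1) (c g x.1 • α1 x.2)
    rw [h1]
  · rintro ⟨w, δ⟩ ⟨w', δ'⟩ hw
    have hw' : w = w' := hw
    subst hw'
    have h2 := hconn δ δ'
    unfold Conn at h2 ⊢
    induction h2 with
    | refl => exact Relation.ReflTransGen.refl
    | @tail x y _ h3 ih =>
      refine (ih rfl).tail ?_
      rcases h3 with h3 | h3
      · left
        show mkTw hc w (α0 x) = mkTw hc w (α0 y)
        rw [h3]
      · right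
        show mkTw hc w (α1 x) = mkTw hc w (α1 y)
        rw [h3]
  · rintro ⟨w, δ⟩
    obtain ⟨Y, hY1, hY2, hY3⟩ := hhalf δ
    refine ⟨{x | x.1 = w ∧ x.2 ∈ Y}, ⟨rfl, hY1⟩, ?_, ?_⟩
    · rintro ⟨w1, ε⟩ ⟨w2, ε'⟩ hx
      have h2 : w1 = w2 := congrArg Prod.fst hx
      have h3 : α0 ε = α0 ε' := congrArg Prod.snd hx
      subst h2
      show (w1 = w ∧ ε ∈ Y) ↔ (w1 = w ∧ ε' ∈ Y)
      rw [hY2 ε ε' h3]
    · rintro ⟨w1, ε⟩ ⟨w2, ε'⟩ hx
      have h2 : w1 = w2 := congrArg Prod.fst hx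
      have h3 : α1 ε = α1 ε' := congrArg Prod.snd hx
      subst h2
      have h4 := hY3 ε ε' h3
      show ((w1 = w ∧ ε ∈ Y) ∧ (w1, ε) ≠ (w, δ)) ↔ ((w1 = w ∧ ε' ∈ Y) ∧ (w1, ε') ≠ (w, δ))
      constructor
      · rintro ⟨⟨rfl, h5⟩, h6⟩
        have h7 := h4.mp ⟨h5, fun h8 => h6 (by rw [h8])⟩
        exact ⟨⟨rfl, h7.1⟩, fun h8 => h7.2 (congrArg Prod.snd h8)⟩
      · rintro ⟨⟨rfl, h5⟩, h6⟩
        have h7 := h4.mpr ⟨h5, fun h8 => h6 (by rw [h8])⟩
        exact ⟨⟨rfl, h7.1⟩, fun h8 => h7.2 (congrArg Prod.snd h8)⟩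
  · rintro g ⟨w, δ⟩ hg
    have h2 : g • w = w := congrArg Prod.fst hg
    have h3 : c g w • α1 δ = α1 δ := congrArg Prod.snd hg
    exact Prod.ext h2 (hedge δ _ h3)
  · show mkTw hc (g • x.1) (o (c g x.1 • x.2)) = mkTw hc (g • x.1) (c g x.1 • o x.2)
    rw [ho]
  · -- the vertices
    refine Pool.Agent.HE.good_sigma (C := Quotient (MulAction.orbitRel B A))
      (fun x => Quotient.mk (MulAction.orbitRel B A) x.2) ?_ ?_
    · intro g x
      exact Quotient.sound (s := MulAction.orbitRel B A) ⟨c g x.1, rfl⟩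
    · intro c0
      obtain ⟨v, rfl⟩ := Quotient.exists_rep c0
      refine ⟨Tw hc (MulAction.orbit B v), inferInstance, fun x => mkTw hc x.1 x.2.1,
        fun g x => rfl, ?_, ?_, ?_⟩
      · rintro ⟨w, y⟩ ⟨w', y'⟩ hx
        have h2 : w = w' := congrArg (fun x : Tw hc A => x.1) hx
        have h3 : y.1 = y'.1 := congrArg (fun x : Tw hc A => x.2) hx
        exact Prod.ext h2 (Subtype.ext h3)
      · rintro ⟨w, y⟩ hw
        have h2 : y ∈ MulAction.orbit B v := Quotient.exact hw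
        exact ⟨mkTw hc w ⟨y, h2⟩, rfl⟩
      · refine Pool.Agent.HE.good_tw hc (⟨v, MulAction.mem_orbit_self v⟩ : MulAction.orbit B v) ?_
          (MulAction.stabilizer B v) ?_ (h v)
        · rintro ⟨y, b, rfl⟩
          exact ⟨b, rfl⟩
        · ext g
          rw [MulAction.mem_stabilizer_iff, MulAction.mem_stabilizer_iff]
          constructor
          · intro h2
            exact congrArg Subtype.val h2
          · intro h2
            exact Subtype.ext h2

end Forest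

section Quot

variable {K : Type} [Group K] (N : Subgroup K) [N.Normal] {X : Type} [MulAction K X]

/-- the action of a quotient -/
@[reducible] def C3_act (h : ∀ n ∈ N, ∀ x : X, n • x = x) : MulAction (K ⧸ N) X :=
  MulAction.compHom X (QuotientGroup.lift N (MulAction.toPermHom K X) fun n hn =>
    Equiv.ext fun x => h n hn x)

end Quot

/-- C3 -/
theorem pb_sd (k : Subring ℂ) (Q : Type) [Group Q] (h : LC k Q) {A Ξ : Type} [Group A]
    [MulAction A Ξ] (p : A →* Q) (htriv : ∀ a ∈ p.ker, ∀ ξ : Ξ, a • ξ = ξ)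
    (N0 : Subgroup (Sd (Lett Ξ) A)) [N0.Normal]
    (hN0 : ∀ g, g ∈ N0 ↔ g.left = 1 ∧ g.right ∈ p.ker)
    (S : Finset (Sd (Lett Ξ) A))
    (hK : ∀ f : ↥(N0 ⊔ Subgroup.closure (S : Set (Sd (Lett Ξ) A))) →* Multiplicative ℤ,
      (∀ n : ↥(N0 ⊔ Subgroup.closure (S : Set (Sd (Lett Ξ) A))), (n : Sd (Lett Ξ) A) ∈ N0 →
        f n = 1) → f = 1) :
    Pool.Agent.HE.PB k (↥(N0 ⊔ Subgroup.closure (S : Set (Sd (Lett Ξ) A))) ⧸
      N0.subgroupOf (N0 ⊔ Subgroup.closure (S : Set (Sd (Lett Ξ) A)))) := by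
  obtain ⟨K, hKdef⟩ : ∃ K : Subgroup (Sd (Lett Ξ) A), K =
    N0 ⊔ Subgroup.closure (S : Set (Sd (Lett Ξ) A)) := ⟨_, rfl⟩
  rw [← hKdef] at hK ⊢
  -- elements of the kernel act trivially on the letters
  have hlett : ∀ a ∈ p.ker, ∀ x : Lett Ξ, a • x = x := by
    intro a ha x
    exact Prod.ext (htriv a ha x.1) rfl
  -- the homomorphism to `Q`
  let θ : K →* Q := (p.comp (rh (Lett Ξ) A)).comp K.subtype
  have hθ : ∀ n ∈ N0.subgroupOf K, θ n = 1 := by
    intro n hn
    exact ((hN0 _).1 (Subgroup.mem_subgroupOf.1 hn)).2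
  let ρ : K ⧸ N0.subgroupOf K →* Q := QuotientGroup.lift _ θ hθ
  have hρ : ∀ g : K, ρ (QuotientGroup.mk g) = p g.1.right := fun g => rfl
  -- its image
  have hrange : ρ.range = Subgroup.closure ((S.image fun g => p g.right : Finset Q) : Set Q) := by
    have h1 : ρ.range = K.map (p.comp (rh (Lett Ξ) A)) := by
      ext q
      constructor
      · rintro ⟨x, rfl⟩
        obtain ⟨g, rfl⟩ := QuotientGroup.mk_surjective x
        exact ⟨g.1, g.2, rfl⟩
      · rintro ⟨g, hg, rfl⟩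
        exact ⟨QuotientGroup.mk ⟨g, hg⟩, rfl⟩
    rw [h1, hKdef, Subgroup.map_sup, MonoidHom.map_closure]
    have h2 : N0.map (p.comp (rh (Lett Ξ) A)) = ⊥ := by
      rw [eq_bot_iff]
      rintro _ ⟨g, hg, rfl⟩
      exact ((hN0 g).1 hg).2
    rw [h2, bot_sup_eq, Finset.coe_image]
    rfl
  have hFG : ρ.range.FG := ⟨_, hrange.symm⟩
  have hnoZ : ∀ f : ρ.range →* Multiplicative ℤ, f = 1 := by
    intro f
    have h1 := hK ((f.comp ρ.rangeRestrict).comp (QuotientGroup.mk' _)) (by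
      intro n hn
      have h2 : (QuotientGroup.mk' (N0.subgroupOf K)) n = 1 := by
        rw [QuotientGroup.mk'_apply, QuotientGroup.eq_one_iff]
        exact Subgroup.mem_subgroupOf.2 hn
      rw [MonoidHom.comp_apply, h2, map_one])
    apply MonoidHom.ext
    intro y
    obtain ⟨x, hx⟩ := ρ.rangeRestrict_surjective y
    obtain ⟨g, rfl⟩ := QuotientGroup.mk_surjective x
    rw [← hx]
    exact DFunLike.congr_fun h1 g
  have hPB : Pool.Agent.HE.PB k ρ.range := h ρ.range hFG hnoZ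
  -- elements with trivial left part and image one are trivial
  have htr1 : ∀ g : K, g.1.left = 1 → p g.1.right = 1 →
      (QuotientGroup.mk g : K ⧸ N0.subgroupOf K) = 1 := by
    intro g h1 h2
    rw [QuotientGroup.eq_one_iff]
    exact Subgroup.mem_subgroupOf.2 ((hN0 _).2 ⟨h1, h2⟩)
  -- the actions
  have hpt : ∀ n ∈ N0.subgroupOf K, n.1.left = 1 ∧ n.1.right ∈ p.ker := fun n hn =>
    (hN0 _).1 (Subgroup.mem_subgroupOf.1 hn)
  have hA : ∀ n ∈ N0.subgroupOf K, ∀ f : TA (Lett Ξ) A, n • f = f := by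
    intro n hn f
    show n.1.left * phi (Lett Ξ) A n.1.right f = f
    rw [(hpt n hn).1, phi_triv (hlett _ (hpt n hn).2), one_mul]
  have hB : ∀ n ∈ N0.subgroupOf K, ∀ f : TB (Lett Ξ) A, n • f = f := by
    intro n hn f
    show ((n.1.left * phi (Lett Ξ) A n.1.right f.1, n.1.right • f.2) :
      FreeGroup (Lett Ξ) × Lett Ξ) = f
    rw [(hpt n hn).1, phi_triv (hlett _ (hpt n hn).2), one_mul, hlett _ (hpt n hn).2]
    rfl
  have hD : ∀ n ∈ N0.subgroupOf K, ∀ f : TD (Lett Ξ) A, n • f = f := by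
    intro n hn f
    show ((n.1.left * phi (Lett Ξ) A n.1.right f.1, n.1.right • f.2.1, f.2.2) :
      FreeGroup (Lett Ξ) × Lett Ξ × Bool) = f
    rw [(hpt n hn).1, phi_triv (hlett _ (hpt n hn).2), one_mul, hlett _ (hpt n hn).2]
    rfl
  by_cases hne : Nonempty (Lett Ξ)
  swap
  · -- no letters
    rw [not_nonempty_iff] at hne
    refine Pool.Agent.EH.pb_of_inj ρ.rangeRestrict ?_ hPB
    rw [injective_iff_map_eq_one]
    intro x hx
    obtain ⟨g, rfl⟩ := QuotientGroup.mk_surjective x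
    exact htr1 g (Subsingleton.elim _ _) (congrArg Subtype.val hx)
  obtain ⟨x0⟩ := hne
  let iA : MulAction (K ⧸ N0.subgroupOf K) (TA (Lett Ξ) A) := C3_act _ hA
  let iB : MulAction (K ⧸ N0.subgroupOf K) (TB (Lett Ξ) A) := C3_act _ hB
  let iD : MulAction (K ⧸ N0.subgroupOf K) (TD (Lett Ξ) A) := C3_act _ hD
  have eA : ∀ (g : K) (f : TA (Lett Ξ) A),
      (QuotientGroup.mk g : K ⧸ N0.subgroupOf K) • f = g • f := fun g f => rfl
  have eB : ∀ (g : K) (f : TB (Lett Ξ) A),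
      (QuotientGroup.mk g : K ⧸ N0.subgroupOf K) • f = g • f := fun g f => rfl
  have eD : ∀ (g : K) (f : TD (Lett Ξ) A),
      (QuotientGroup.mk g : K ⧸ N0.subgroupOf K) • f = g • f := fun g f => rfl
  refine C3_forest k (α0 := ta (Lett Ξ) A) (α1 := tb (Lett Ξ) A) ?_ ?_ ?_
    (t_half (Lett Ξ) A) (t_conn (Lett Ξ) A) (fun e => e.1) ?_
    ((1, x0, true) : FreeGroup (Lett Ξ) × Lett Ξ × Bool) ?_
  · intro g δ
    obtain ⟨g, rfl⟩ := QuotientGroup.mk_surjective g
    rfl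
  · intro g δ
    obtain ⟨g, rfl⟩ := QuotientGroup.mk_surjective g
    exact tb_smul (Lett Ξ) A g.1 δ
  · rintro ⟨f, x, b⟩ g hg
    obtain ⟨g, rfl⟩ := QuotientGroup.mk_surjective g
    rw [eB] at hg
    rw [eD]
    have h1 : g.1.right • x = x := congrArg Prod.snd hg
    have h2 : g.1.left * phi (Lett Ξ) A g.1.right (tb (Lett Ξ) A (f, x, b)).1 =
      (tb (Lett Ξ) A (f, x, b)).1 := congrArg Prod.fst hg
    have h3 : g.1.left * phi (Lett Ξ) A g.1.right f = f := by
      cases b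
      · have h4 : g.1.left * phi (Lett Ξ) A g.1.right (f * (FreeGroup.of x)⁻¹) =
          f * (FreeGroup.of x)⁻¹ := h2
        rw [map_mul, map_inv, phi_of, h1, ← mul_assoc] at h4
        exact mul_right_cancel h4
      · exact h2
    show ((g.1.left * phi (Lett Ξ) A g.1.right f, g.1.right • x, b) :
      FreeGroup (Lett Ξ) × Lett Ξ × Bool) = (f, x, b)
    rw [h3, h1]
  · intro g e
    obtain ⟨g, rfl⟩ := QuotientGroup.mk_surjective g
    rfl
  · intro v
    refine Pool.Agent.EH.pb_of_inj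
      (ρ.rangeRestrict.comp (MulAction.stabilizer (K ⧸ N0.subgroupOf K) v).subtype) ?_ hPB
    rw [injective_iff_map_eq_one]
    rintro ⟨x, hx⟩ hx1
    obtain ⟨g, rfl⟩ := QuotientGroup.mk_surjective x
    apply Subtype.ext
    have h1 : p g.1.right = 1 := congrArg Subtype.val hx1
    have h2 : g.1.left * phi (Lett Ξ) A g.1.right v = v := hx
    rw [phi_triv (hlett _ h1)] at h2
    exact htr1 g (mul_eq_right.mp h2) h1

end Pool.Agent.HL
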