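import Pool.Agent.HL.Defs

set_option autoImplicit false
set_option linter.unusedSectionVars false

noncomputable section

open scoped InnerProductSpace ENNReal Topology
open Classical Filter ContinuousLinearMap

namespace Pool.Agent.HL

open Pool.Agent.VN Pool.Agent.LFT Pool.Agent.HI Pool.Agent.HC Pool.Agent.HX

section C4

variable {k : Subring ℂ} {G W Q : Type} [Group G] [MulAction G W] [Group Q] {c : G → W → Q}

/-- the cocycle is a homomorphism on a stabiliser -/
def C4_p (hc : Coc c) {Γ : Type} [Group Γ] (π : Γ →* G) (T : Subgroup Γ) (w : W)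
    (hT : ∀ g ∈ T, π g • w = w) : T →* Q where
  toFun g := c (π g) w
  map_one' := by
    show c (π 1) w = 1
    rw [map_one]
    exact hc.one w
  map_mul' a b := by
    show c (π (a.1 * b.1)) w = c (π a) w * c (π b) w
    rw [map_mul, hc.mul, hT b.1 b.2]

lemma C4_ker (hc : Coc c) {Γ : Type} [Group Γ] (π : Γ →* G) (T : Subgroup Γ) (w : W)
    (hT : ∀ g ∈ T, π g • w = w) {g : T} (hg : g ∈ (C4_p hc π T w hT).ker) : π g = 1 :=
  hc.inj _ _ (hT g.1 g.2) (MonoidHom.mem_ker.1 hg)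

/-- integrality -/
lemma C4_int (hc : Coc c) (h : ∀ (A : Type) [Group A] (p : A →* Q), AtiyahOver k p.ker →
      AtiyahOver k A ∧ ∀ C : Subgroup A, p.ker ≤ C → KeyP k A C) {Γ U : Type} [Group Γ]
    [MulAction Γ U] {π : Γ →* G} (hπ : AtiyahOver k π.ker) : Int0 k Γ (Via π W × U) := by
  intro ι _ lab X hX
  refine Rat.int ?_ hX
  rintro ⟨w, u⟩
  have hT : ∀ g ∈ MulAction.stabilizer Γ ((w, u) : Via π W × U), g • w = w := by
    intro g hg
    exact (Prod.mk.inj (MulAction.mem_stabilizer_iff.1 hg)).1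
  set p := C4_p hc π (MulAction.stabilizer Γ ((w, u) : Via π W × U)) w hT with hp
  refine (h _ p ?_).1
  let ψ : p.ker →* π.ker :=
    { toFun := fun g => ⟨g.1.1, C4_ker hc π _ w hT g.2⟩
      map_one' := rfl
      map_mul' := fun a b => rfl }
  refine AtiyahOver.of_injective hπ ψ ?_
  intro a b hab
  exact Subtype.ext (Subtype.ext (congrArg (fun x : π.ker => x.1) hab))

/-- the key estimate at the vertices -/
lemma C4_vertex (hc : Coc c) (h : ∀ (A : Type) [Group A] (p : A →* Q), AtiyahOver k p.ker →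
      AtiyahOver k A ∧ ∀ C : Subgroup A, p.ker ≤ C → KeyP k A C) {Γ X : Type} [Group Γ]
    [MulAction Γ X] {π : Γ →* G} (hπ : AtiyahOver k π.ker)
    (hX : ∀ γ : Γ, π γ = 1 → ∀ x : X, γ • x = x) (U : Type) [MulAction (Sd X Γ) U] :
    KeyS k (Sd X Γ) (Prod.map (ta X Γ) id : TD X Γ × (Via (π.comp (rh X Γ)) W × U) →
      TA X Γ × (Via (π.comp (rh X Γ)) W × U)) := by
  have ha : Eqv (Sd X Γ) (Prod.map (ta X Γ) id : TD X Γ × (Via (π.comp (rh X Γ)) W × U) →
      TA X Γ × (Via (π.comp (rh X Γ)) W × U)) := by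
    rintro g ⟨δ, x⟩
    rfl
  refine keyS_of_stab _ ha ?_
  rintro ⟨f, w, u⟩
  have hT : ∀ g ∈ MulAction.stabilizer (Sd X Γ)
      ((f, w, u) : TA X Γ × (Via (π.comp (rh X Γ)) W × U)),
      g • w = w := by
    intro g hg
    exact (Prod.mk.inj (Prod.mk.inj (MulAction.mem_stabilizer_iff.1 hg)).2).1
  have hU : ∀ g ∈ MulAction.stabilizer (Sd X Γ)
      ((f, w, u) : TA X Γ × (Via (π.comp (rh X Γ)) W × U)), g • u = u := by
    intro g hg
    exact (Prod.mk.inj (Prod.mk.inj (MulAction.mem_stabilizer_iff.1 hg)).2).2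
  have hF : ∀ g ∈ MulAction.stabilizer (Sd X Γ)
      ((f, w, u) : TA X Γ × (Via (π.comp (rh X Γ)) W × U)),
      g.left * phi X Γ g.right f = f := by
    intro g hg
    exact (Prod.mk.inj (MulAction.mem_stabilizer_iff.1 hg)).1
  set T := MulAction.stabilizer (Sd X Γ) ((f, w, u) : TA X Γ × (Via (π.comp (rh X Γ)) W × U))
    with hTdef
  set p := C4_p hc (π.comp (rh X Γ)) T w hT with hp
  have hr : ∀ g : T, g ∈ p.ker → π g.1.right = 1 := fun g hg =>
    C4_ker hc (π.comp (rh X Γ)) T w hT hg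
  have hl : ∀ g : T, g ∈ p.ker → g.1.left = 1 := by
    intro g hg
    have e1 : phi X Γ g.1.right f = f := Pool.Agent.HE.phi_triv (hX _ (hr g hg)) f
    have h1 : g.1.left * phi X Γ g.1.right f = f := hF g.1 g.2
    rw [e1] at h1
    exact mul_eq_right.mp h1
  have hker : AtiyahOver k p.ker := by
    let ψ : p.ker →* π.ker :=
      { toFun := fun g => ⟨g.1.1.right, hr g.1 g.2⟩
        map_one' := rfl
        map_mul' := fun a b => rfl }
    refine AtiyahOver.of_injective hπ ψ ?_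
    intro a b hab
    apply Subtype.ext
    apply Subtype.ext
    apply SemidirectProduct.ext
    · rw [hl _ a.2, hl _ b.2]
    · exact congrArg (fun x : π.ker => x.1) hab
  let _ := fibAct _ ha ((f, w, u) : TA X Γ × (Via (π.comp (rh X Γ)) W × U))
  refine keyG_of_orbits fun ξ => ?_
  refine (h T p hker).2 (MulAction.stabilizer T ξ) ?_
  intro g hg
  rw [MulAction.mem_stabilizer_iff]
  apply Subtype.ext
  obtain ⟨⟨δ, w', u'⟩, hδ⟩ := ξ
  have e1 : w' = w := (Prod.mk.inj (Prod.mk.inj hδ).2).1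
  have e2 : u' = u := (Prod.mk.inj (Prod.mk.inj hδ).2).2
  subst e1 e2
  have h1 : (g : Sd X Γ) • δ = δ := by
    obtain ⟨f', x, b⟩ := δ
    show ((g.1.left * phi X Γ g.1.right f', g.1.right • x, b) : FreeGroup X × X × Bool)
      = (f', x, b)
    rw [hl g hg, Pool.Agent.HE.phi_triv (hX _ (hr g hg)), hX _ (hr g hg), one_mul]
  have h2 : (g : Sd X Γ) • w' = w' := hT g.1 g.2
  have h3 : (g : Sd X Γ) • u' = u' := hU g.1 g.2
  exact Prod.ext h1 (Prod.ext h2 h3)

/-- an element which fixes an edge fixes its darts -/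
lemma C4_edge {Γ X : Type} [Group Γ] [MulAction Γ X] (g : Sd X Γ) (δ : TD X Γ)
    (h : g • tb X Γ δ = tb X Γ δ) : g • δ = δ := by
  rw [← tb_smul] at h
  obtain ⟨f, x, b⟩ := δ
  have h1 : g.right • x = x := congrArg Prod.snd h
  have h2 := congrArg Prod.fst h
  show ((g.left * phi X Γ g.right f, g.right • x, b) : FreeGroup X × X × Bool) = (f, x, b)
  have h3 : g.left * phi X Γ g.right f = f := by
    cases b with
    | true => exact h2
    | false =>
      have h4 : g.left * phi X Γ g.right f * (FreeGroup.of (g.right • x))⁻¹ =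
        f * (FreeGroup.of x)⁻¹ := h2
      rw [h1] at h4
      exact mul_right_cancel h4
  rw [h3, h1]

end C4

/-- C4 -/
theorem pb_of_keys (k : Subring ℂ) (Q : Type) [Group Q]
    (h : ∀ (A : Type) [Group A] (p : A →* Q), AtiyahOver k p.ker →
      AtiyahOver k A ∧ ∀ C : Subgroup A, p.ker ≤ C → KeyP k A C) : Pool.Agent.HE.PB k Q := by
  intro G W _ _ c hc Γ _ π hπ
  refine ⟨fun U _ => C4_int hc h hπ, ?_⟩
  intro X _ hX U _
  refine af_of_keys ?_ ?_ (Half.prod (t_half X Γ) _) ?_ ?_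
  · rintro g ⟨δ, c⟩
    rfl
  · rintro g ⟨δ, c⟩
    show ((tb X Γ (g • δ), g • c) : TB X Γ × (Via (π.comp (rh X Γ)) W × U)) = (g • tb X Γ δ, g • c)
    rw [tb_smul]
  · intro ι i d P hP hl u Y hY ε hε
    exact C4_vertex hc h hπ hX U ι i d P hP hl u Y hY ε hε
  · intro ι _ d P hP hl u Y hY ε hε
    refine key_of_stab (a := (Prod.map (tb X Γ) id : TD X Γ × (Via (π.comp (rh X Γ)) W × U) →
            TB X Γ × (Via (π.comp (rh X Γ)) W × U))) ?_ ?_ d hP hl u hY hε
    · rintro g ⟨δ, c⟩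
      show ((tb X Γ (g • δ), g • c) : TB X Γ × (Via (π.comp (rh X Γ)) W × U))
        = (g • tb X Γ δ, g • c)
      rw [tb_smul]
    · rintro g ⟨δ, w, c⟩ h
      have h1 : g • tb X Γ δ = tb X Γ δ := (Prod.mk.inj h).1
      have h2 : g • ((w, c) : Via (π.comp (rh X Γ)) W × U) = (w, c) := (Prod.mk.inj h).2
      exact Prod.ext (C4_edge g δ h1) h2

end Pool.Agent.HL
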