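import Pool.Agent.HL.A5
import Pool.Agent.HL.A6
import Pool.Agent.HL.B7
import Pool.Agent.HL.B9
import Pool.Agent.HL.B10
import Pool.Agent.HL.C1
import Pool.Agent.HL.C2
import Pool.Agent.HL.C3
import Pool.Agent.HL.C4

set_option autoImplicit false
set_option linter.unusedSectionVars false

noncomputable section

open scoped InnerProductSpace ENNReal Topology
open Classical Filter ContinuousLinearMap

namespace Pool.Agent.HL

open Pool.Agent.VN Pool.Agent.LFT Pool.Agent.HI Pool.Agent.HC Pool.Agent.HX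

/-- the local step -/
theorem pb_local (k : Subring ℂ) (Q : Type) [Group Q] (h : LC k Q) : Pool.Agent.HE.PB k Q := by
  apply pb_of_keys
  intro A _ p hp
  refine ⟨atiyah_lc k Q h A p hp, fun C hC => ?_⟩
  have htriv : ∀ a ∈ p.ker, ∀ ξ : A ⧸ C, a • ξ = ξ := by
    intro a ha ξ
    obtain ⟨g, rfl⟩ := QuotientGroup.mk_surjective ξ
    rw [MulAction.Quotient.smul_coe, smul_eq_mul, eq_comm, QuotientGroup.eq]
    apply hC
    have h1 : g⁻¹ * (a * g) = g⁻¹ * a * g⁻¹⁻¹ := by group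
    rw [h1]
    exact (MonoidHom.normal_ker p).conj_mem a ha g⁻¹
  have htriv' : ∀ a : A, p a = 1 → ∀ x : Lett (A ⧸ C), a • x = x := by
    intro a ha x
    exact Prod.ext (htriv a ha x.1) rfl
  have hE : AtiyahOver k (Sd (Lett (A ⧸ C)) A) :=
    atiyah_lc k Q h _ (p.comp (rh (Lett (A ⧸ C)) A)) (Pool.Agent.HE.ker_ext hp htriv')
  refine key_of_pi hE ?_
  intro ι _ ξ Z hZ hinv hinv' n
  obtain ⟨U, F, _, _, ⟨M⟩⟩ := exists_mdl k _ hE
  set N0 : Subgroup (Sd (Lett (A ⧸ C)) A) := p.ker.map (ir (Lett (A ⧸ C)) A) with hN0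
  have hmem : ∀ g, g ∈ N0 ↔ g.left = 1 ∧ g.right ∈ p.ker := by
    intro g
    constructor
    · rintro ⟨a, ha, rfl⟩
      exact ⟨rfl, ha⟩
    · rintro ⟨h1, h2⟩
      exact ⟨g.right, h2, SemidirectProduct.ext h1.symm rfl⟩
  have hnorm : N0.Normal := by
    refine ⟨fun n hn g => ?_⟩
    rw [hmem] at hn ⊢
    have hr : (g * n * g⁻¹).right ∈ p.ker := (MonoidHom.normal_ker p).conj_mem _ hn.2 g.right
    refine ⟨?_, hr⟩
    have hph : ∀ f, phi (Lett (A ⧸ C)) A (g.right * n.right * g.right⁻¹) f = f := fun f =>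
      Pool.Agent.HE.phi_triv (htriv' _ hr) f
    have e1 : (g * n * g⁻¹).left = g.left * phi (Lett (A ⧸ C)) A (g.right * n.right)
        (phi (Lett (A ⧸ C)) A g.right⁻¹ g.left⁻¹) := by
      rw [SemidirectProduct.mul_left, SemidirectProduct.mul_left, hn.1, map_one, mul_one,
        SemidirectProduct.inv_left, SemidirectProduct.mul_right]
    rw [e1, ← MulAut.mul_apply, ← map_mul, hph, mul_inv_cancel]
  have hip : IPat (M.D.restrict k) N0 ⊤ := by
    refine ip_alg _ (mdl_hF M) (mdl_hE M) (mdl_all M) (rc_form _ (mdl_all M)) N0 ?_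
    intro S hS
    refine ip_base hE M N0 _ le_sup_left fun C' hC' => ?_
    refine key_of_pb (N0.subgroupOf _) C' hC' ?_ (pb_sd k Q h p htriv N0 hmem S hS)
    exact AtiyahOver.of_injective hE ((Subgroup.subtype _).comp (Subgroup.subtype _))
      (Subtype.val_injective.comp Subtype.val_injective)
  exact pi_letters M N0 (fun g hg => ⟨((hmem g).1 hg).1, htriv _ ((hmem g).1 hg).2⟩) hip ξ hZ
    hinv hinv' n

end Pool.Agent.HL
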