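import Pool.Agent.HL.Final
import Pool.Agent.HL.HierDef
import Pool.Agent.EH.Final

set_option autoImplicit false
set_option linter.unusedSectionVars false

noncomputable section

open scoped InnerProductSpace ENNReal Topology
open Classical Filter ContinuousLinearMap

namespace Pool.Agent.HL

open Pool.Agent.VN Pool.Agent.LFT Pool.Agent.HI

theorem pb_of_hierL (k : Subring ℂ) (G : Type) [inst : Group G] (h : HierL G) :
    Pool.Agent.HE.PB k G := by
  induction h with
  | triv G => exact Pool.Agent.HE.pb_triv k G
  | tree G V T hT hadj hinv _ ih => exact Pool.Agent.HE.pb_tree k T hT hadj hinv ih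
  | ext G A p hA _ ih => exact Pool.Agent.EH.st_of_ea hA G p ih
  | union G H hH _ ih => exact Pool.Agent.HE.pb_union k G H hH ih
  | loc G _ ih => exact pb_local k G ih

/-- extensions with quotient in the class -/
theorem atiyah_of_hierL (k : Subring ℂ) (G Q : Type) [Group G] [Group Q] (f : G →* Q)
    (h : HierL Q) (hf : AtiyahOver k f.ker) : AtiyahOver k G :=
  Pool.Agent.EH.atiyah_of_pb (pb_of_hierL k Q h) f hf

end Pool.Agent.HL
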