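import Pool.Agent.HL.Defs

set_option autoImplicit false
set_option linter.unusedSectionVars false

noncomputable section

open scoped InnerProductSpace ENNReal Topology
open Classical Filter ContinuousLinearMap

namespace Pool.Agent.HL

open Pool.Agent.VN Pool.Agent.LFT Pool.Agent.HI Pool.Agent.HC Pool.Agent.HX

section A1Coef

open Ex

variable {G κ U : Type} [Group G] [Ring κ] [Ring U] (D : Dat G κ U)
variable {O : Type*} [CxS O] {N L : Subgroup G} {t : G}

lemma A1_zero (n : ℤ) (α : O) : CfL D O N L t n α (0 : U) := Or.inl rfl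

lemma A1_mono {n : ℤ} {α β : O} {y : U} (h : CfL D O N L t n α y) (hab : α ≤ β) :
    CfL D O N L t n β y := by
  rcases h with h | ⟨E, g, h1, h2, h3⟩
  · exact Or.inl h
  · exact Or.inr ⟨E, g, h1, h2.trans hab, h3⟩

lemma A1_conj_mem (hN : ∀ n ∈ N, t * n * t⁻¹ ∈ N) (hN' : ∀ n ∈ N, t⁻¹ * n * t ∈ N) {g : G}
    {n : ℤ} (hL : g ∈ L) (hg : g * t ^ (-n) ∈ N) : ∀ x ∈ N ⊓ L, g * x * g⁻¹ ∈ N ⊓ L := by
  rintro x ⟨hx, hxL⟩
  refine ⟨?_, L.mul_mem (L.mul_mem hL hxL) (L.inv_mem hL)⟩
  have e : g * x * g⁻¹ = (g * t ^ (-n)) * (t ^ n * x * t ^ (-n)) * (g * t ^ (-n))⁻¹ := by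
    group
  rw [e]
  exact N.mul_mem (N.mul_mem hg (zpow_conj hN hN' n x hx)) (N.inv_mem hg)

lemma A1_inv_mem (hN : ∀ n ∈ N, t * n * t⁻¹ ∈ N) (hN' : ∀ n ∈ N, t⁻¹ * n * t ∈ N) {g : G}
    {n : ℤ} (hg : g * t ^ (-n) ∈ N) : g⁻¹ * t ^ (-(-n)) ∈ N := by
  have e : g⁻¹ * t ^ (-(-n)) = t ^ (-n) * (g * t ^ (-n))⁻¹ * t ^ (-(-n)) := by
    group
  rw [e]
  exact zpow_conj hN hN' (-n) _ (N.inv_mem hg)

lemma A1_mul_mem (hN : ∀ n ∈ N, t * n * t⁻¹ ∈ N) (hN' : ∀ n ∈ N, t⁻¹ * n * t ∈ N) {g g' : G}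
    {n m : ℤ} (hg : g * t ^ (-n) ∈ N) (hg' : g' * t ^ (-m) ∈ N) :
    g * g' * t ^ (-(n + m)) ∈ N := by
  have e : g * g' * t ^ (-(n + m)) = (g * t ^ (-n)) * (t ^ n * (g' * t ^ (-m)) * t ^ (-n)) := by
    group
  rw [e]
  exact N.mul_mem hg (zpow_conj hN hN' n _ hg')

variable (hN : ∀ n ∈ N, t * n * t⁻¹ ∈ N) (hN' : ∀ n ∈ N, t⁻¹ * n * t ∈ N)

lemma A1_add {n : ℤ} {α β : O} {y z : U} (hy : CfL D O N L t n α y) (hz : CfL D O N L t n β z) :
    CfL D O N L t n (α + β) (y + z) := by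
  rcases hy with rfl | ⟨E, g, h1, h2, h3, hg, h4⟩
  · rw [zero_add]
    exact A1_mono D hz (le_add_of_nonneg_left (CxS.zero_le' _))
  rcases hz with rfl | ⟨E', g', h1', h2', h3', hg', h4'⟩
  · rw [add_zero]
    exact Or.inr ⟨E, g, h1, h2.trans (le_add_of_nonneg_right (CxS.zero_le' _)), h3, hg, h4⟩
  refine Or.inr ⟨Ex.ad E E' (g' * g⁻¹), g, ?_, add_le_add h2 h2', h3, hg, ?_⟩
  · intro u hu
    rcases hu with rfl | hu | hu
    · refine ⟨?_, L.mul_mem h3' (L.inv_mem h3)⟩
      have e : g' * g⁻¹ = (g' * t ^ (-n)) * (g * t ^ (-n))⁻¹ := by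
        group
      rw [e]
      exact N.mul_mem hg' (N.inv_mem hg)
    · exact h1 u hu
    · exact h1' u hu
  · show y + z = (E.val D + E'.val D * D.ι (g' * g⁻¹)) * D.ι g
    rw [add_mul, mul_assoc, ← map_mul, ← h4]
    congr 1
    rw [h4']
    congr 2
    group

include hN hN' in
lemma A1_mul {n m : ℤ} {α β : O} {y z : U} (hy : CfL D O N L t n α y)
    (hz : CfL D O N L t m β z) : CfL D O N L t (n + m) (α * β) (y * z) := by
  rcases hy with rfl | ⟨E, g, h1, h2, h3, hg, h4⟩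
  · rw [zero_mul]; exact A1_zero D _ _
  rcases hz with rfl | ⟨E', g', h1', h2', h3', hg', h4'⟩
  · rw [mul_zero]; exact A1_zero D _ _
  have hgc := A1_conj_mem hN hN' h3 hg
  refine Or.inr ⟨Ex.mu E (conj g E'), g * g', ?_, ?_, L.mul_mem h3 h3',
    A1_mul_mem hN hN' hg hg', ?_⟩
  · intro u hu
    rcases hu with hu | hu
    · exact h1 u hu
    · exact supp_conj (N := ((N ⊓ L : Subgroup G) : Set G)) hgc h1' u hu
  · show cy O E * cy O (conj g E') ≤ α * β
    rw [cy_conj]
    exact mul_le_mul h2 h2' (CxS.zero_le' _) (CxS.zero_le' _)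
  · show y * z = E.val D * (conj g E').val D * D.ι _
    rw [val_conj, h4, h4', map_mul D.ι g g']
    calc E.val D * D.ι g * (E'.val D * D.ι g')
        = E.val D * D.ι g * E'.val D * 1 * D.ι g' := by
          rw [mul_one]; simp only [mul_assoc]
      _ = E.val D * D.ι g * E'.val D * (D.ι g⁻¹ * D.ι g) * D.ι g' := by rw [D.ι_inv_mul]
      _ = _ := by simp only [mul_assoc]

lemma A1_neg {n : ℤ} {α : O} {y : U} (hy : CfL D O N L t n α y) : CfL D O N L t n α (-y) := by
  rcases hy with rfl | ⟨E, g, h1, h2, h3, hg, h4⟩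
  · rw [neg_zero]; exact A1_zero D _ _
  refine Or.inr ⟨Ex.mu (Ex.sc (-1)) E, g, ?_, ?_, h3, hg, ?_⟩
  · intro u hu
    rcases hu with hu | hu
    · exact absurd hu (Set.notMem_empty u)
    · exact h1 u hu
  · show 1 * cy O E ≤ α
    rw [one_mul]
    exact h2
  · show -y = D.sc (-1) * E.val D * D.ι _
    rw [map_neg, map_one, neg_one_mul, neg_mul, ← h4]

lemma A1_mul_ι {n m : ℤ} {α : O} {y : U} {u : G} (hN : ∀ n ∈ N, t * n * t⁻¹ ∈ N)
    (hN' : ∀ n ∈ N, t⁻¹ * n * t ∈ N) (huL : u ∈ L) (hu : u * t ^ (-m) ∈ N)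
    (hy : CfL D O N L t n α y) : CfL D O N L t (n + m) α (y * D.ι u) := by
  rcases hy with rfl | ⟨E, g, h1, h2, h3, hg, h4⟩
  · rw [zero_mul]; exact A1_zero D _ _
  refine Or.inr ⟨E, g * u, h1, h2, L.mul_mem h3 huL, A1_mul_mem hN hN' hg hu, ?_⟩
  rw [h4, mul_assoc, ← map_mul]

include hN hN' in
lemma A1_inv {n : ℤ} {α : O} {y : U} (hy : CfL D O N L t n α y) :
    CfL D O N L t (-n) (CxS.F α) (Ring.inverse y) := by
  rcases hy with rfl | ⟨E, g, h1, h2, h3, hg, h4⟩
  · rw [Ring.inverse_zero]; exact A1_zero D _ _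
  have hgc := A1_conj_mem hN hN' (L.inv_mem h3) (A1_inv_mem hN hN' hg)
  refine Or.inr ⟨Ex.iv (conj g⁻¹ E), g⁻¹, ?_, ?_, L.inv_mem h3, A1_inv_mem hN hN' hg, ?_⟩
  · exact supp_conj (N := ((N ⊓ L : Subgroup G) : Set G)) hgc h1
  · show CxS.F (cy O (conj g⁻¹ E)) ≤ CxS.F α
    rw [cy_conj]
    exact CxS.F_strictMono.monotone h2
  · show Ring.inverse y = Ring.inverse ((conj g⁻¹ E).val D) * D.ι g⁻¹
    rw [h4, val_conj, Ring.inverse_mul (Or.inr (D.isUnit_ι _)),
      Ring.inverse_mul (Or.inr (D.isUnit_ι _)), Ring.inverse_mul (Or.inl (D.isUnit_ι _)),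
      D.inverse_ι, D.inverse_ι, D.inverse_ι, inv_inv]
    calc D.ι g⁻¹ * Ring.inverse (E.val D)
        = D.ι g⁻¹ * (Ring.inverse (E.val D) * (D.ι g * D.ι g⁻¹)) := by
          rw [D.ι_mul_inv, mul_one]
      _ = _ := by simp only [mul_assoc, inv_inv]

lemma A1_sum {σ : Type*} (s : Finset σ) {n : ℤ} (α : σ → O) (y : σ → U)
    (h : ∀ i ∈ s, CfL D O N L t n (α i) (y i)) :
    CfL D O N L t n (∑ i ∈ s, α i) (∑ i ∈ s, y i) := by
  classical
  induction s using Finset.induction_on with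
  | empty => rw [Finset.sum_empty, Finset.sum_empty]; exact A1_zero D _ _
  | insert i s hi ih =>
    rw [Finset.sum_insert hi, Finset.sum_insert hi]
    exact A1_add D (h i (Finset.mem_insert_self i s))
      (ih fun j hj => h j (Finset.mem_insert_of_mem hj))

/-- values are zero or units -/
lemma A1_dichotomy (hall : ∀ E : Ex G κ, E.val D = 0 ∨ IsUnit (E.val D))
    {n : ℤ} {α : O} {y : U} (hy : CfL D O N L t n α y) : y = 0 ∨ IsUnit y := by
  rcases hy with rfl | ⟨E, g, h1, h2, h3, hg, h4⟩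
  · exact Or.inl rfl
  · rcases hall E with h5 | h5
    · left; rw [h4, h5, zero_mul]
    · right; rw [h4]; exact h5.mul (D.isUnit_ι _)

end A1Coef

section A1Good

open Ex

variable {G κ U : Type} [Group G] [Ring κ] [Ring U] {D : Dat G κ U}
variable {O : Type*} [CxS O] {H N L : Subgroup G} {t : G} {dg : G → ℤ}

/-- the conclusion of the expansion lemma -/
def A1_Good (D : Dat G κ U) (O : Type*) [CxS O] (N L : Subgroup G) (t : G) (E : Ex G κ) : Prop :=
  ∃ (X : HahnSeries ℤ U) (α : ℤ → O), PQ (RCs (SN D N)) (D.ι t) (E.val D) X ∧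
    (∀ n, CfL D O N L t n (α n) (X.coeff n)) ∧ (∀ I : Finset ℤ, ∑ n ∈ I, α n ≤ cy O E) ∧
    (((∀ u ∈ E.supp, u ∈ N) ∧ X = HahnSeries.C (E.val D) ∧
      α = fun n => if n = 0 then cy O E else 0) ∨
      ((¬ ∀ u ∈ E.supp, u ∈ N) ∧ ∀ n, α n < cy O E))

lemma A1_good_of_supp (E : Ex G κ) (h : ∀ u ∈ E.supp, u ∈ N) (hL : ∀ u ∈ E.supp, u ∈ L) :
    A1_Good D O N L t E := by
  refine ⟨HahnSeries.C (E.val D), fun n => if n = 0 then cy O E else 0,
    PQ_of_mem (val_mem_RCs D h), ?_, ?_, Or.inl ⟨h, rfl, rfl⟩⟩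
  · intro n
    by_cases hn : n = 0
    · subst hn
      right
      refine ⟨E, 1, fun u hu => ⟨h u hu, hL u hu⟩, by simp, L.one_mem, ?_, ?_⟩
      · rw [neg_zero, zpow_zero, mul_one]
        exact N.one_mem
      · rw [map_one, mul_one, HahnSeries.C_apply, HahnSeries.coeff_single_same]
    · left
      rw [HahnSeries.C_apply, HahnSeries.coeff_single_of_ne hn]
  · intro I
    rw [Finset.sum_ite_eq']
    split_ifs
    · exact le_refl _
    · exact CxS.zero_le' _

lemma A1_good_ad (S : Setup D H N t dg) {a b : Ex G κ} {u : G} (hu : u ∈ H) (huL : u ∈ L)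
    (hs : ¬ ∀ w ∈ (Ex.ad a b u).supp, w ∈ N) (ha : A1_Good D O N L t a) (hb : A1_Good D O N L t b) :
    A1_Good D O N L t (Ex.ad a b u) := by
  obtain ⟨X, α, hX, hXc, hXs, hXd⟩ := ha
  obtain ⟨Y, β, hY, hYc, hYs, hYd⟩ := hb
  set m := dg u with hm
  have h1 : D.ι t * D.ι t⁻¹ = 1 := D.ι_mul_inv t
  have h2 : D.ι t⁻¹ * D.ι t = 1 := D.ι_inv_mul t
  have hR := fun x hx => (S.conjR x hx).1
  have hαle : ∀ n, α n ≤ cy O a := fun n => by simpa using hXs {n}
  have hβle : ∀ n, β n ≤ cy O b := fun n => by simpa using hYs {n}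
  refine ⟨X + Y * HahnSeries.single m (D.ι u), fun n => α n + β (n - m), ?_, ?_, ?_,
    Or.inr ⟨hs, ?_⟩⟩
  · exact PQ_add hX (PQ_mul h1 h2 hR hY (PQ_ι D S.hN (S.hdg u hu)))
  · intro n
    rw [HahnSeries.coeff_add, HahnSeries.coeff_mul_single]
    refine A1_add D (hXc n) ?_
    have := A1_mul_ι D S.hN S.hN' huL (S.hdg u hu) (hYc (n - m))
    rw [← hm, sub_add_cancel] at this
    exact this
  · intro I
    rw [Finset.sum_add_distrib]
    refine add_le_add (hXs I) ?_
    have : ∑ n ∈ I, β (n - m) = ∑ n ∈ I.image (fun n => n - m), β n := by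
      rw [Finset.sum_image]
      intro x _ y _ hxy
      simpa using hxy
    rw [this]
    exact hYs _
  · intro n
    show α n + β (n - m) < cy O a + cy O b
    rcases hXd with ⟨ha1, _, ha2⟩ | ⟨ha1, ha2⟩
    · rcases hYd with ⟨hb1, _, hb2⟩ | ⟨hb1, hb2⟩
      · -- both homogeneous
        have hm0 : m ≠ 0 := by
          intro h0
          apply hs
          intro w hw
          rcases hw with rfl | hw | hw
          · have := S.hdg w hu
            rw [← hm, h0, neg_zero, zpow_zero, mul_one] at this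
            exact this
          · exact ha1 w hw
          · exact hb1 w hw
        rw [ha2, hb2]
        simp only
        have pa := cy_pos O a
        have pb := cy_pos O b
        by_cases hn : n = 0
        · rw [if_pos hn, if_neg (by omega), add_zero]
          exact lt_add_of_pos_right _ pb
        · rw [if_neg hn, zero_add]
          split_ifs
          · exact lt_add_of_pos_left _ pa
          · exact add_pos pa pb
      · exact add_lt_add_of_le_of_lt (hαle n) (hb2 _)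
    · exact add_lt_add_of_lt_of_le (ha2 n) (hβle _)

lemma A1_good_mu (S : Setup D H N t dg) {a b : Ex G κ}
    (hs : ¬ ∀ w ∈ (Ex.mu a b).supp, w ∈ N) (ha : A1_Good D O N L t a) (hb : A1_Good D O N L t b) :
    A1_Good D O N L t (Ex.mu a b) := by
  obtain ⟨X, α, hX, hXc, hXs, hXd⟩ := ha
  obtain ⟨Y, β, hY, hYc, hYs, hYd⟩ := hb
  have h1 : D.ι t * D.ι t⁻¹ = 1 := D.ι_mul_inv t
  have h2 : D.ι t⁻¹ * D.ι t = 1 := D.ι_inv_mul t
  have hR := fun x hx => (S.conjR x hx).1
  have hαle : ∀ n, α n ≤ cy O a := fun n => by simpa using hXs {n}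
  have hβle : ∀ n, β n ≤ cy O b := fun n => by simpa using hYs {n}
  have hαβ : (∀ n, α n < cy O a) ∨ (∀ n, β n < cy O b) := by
    rcases hXd with ⟨ha1, _, ha2⟩ | ⟨ha1, ha2⟩
    · rcases hYd with ⟨hb1, _, hb2⟩ | ⟨hb1, hb2⟩
      · exfalso
        apply hs
        intro w hw
        rcases hw with hw | hw
        · exact ha1 w hw
        · exact hb1 w hw
      · exact Or.inr hb2
    · exact Or.inl ha2
  set AD : ℤ → Finset (ℤ × ℤ) := fun n =>
    Finset.antidiagonal X.isPWO_support Y.isPWO_support n with hAD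
  have hADmem : ∀ n p, p ∈ AD n → p.1 + p.2 = n := by
    intro n p hp
    simp only [hAD, Finset.mem_antidiagonal] at hp
    exact hp.2.2
  refine ⟨X * Y, fun n => ∑ p ∈ AD n, α p.1 * β p.2, PQ_mul h1 h2 hR hX hY, ?_, ?_,
    Or.inr ⟨hs, ?_⟩⟩
  · intro n
    rw [HahnSeries.coeff_mul]
    refine A1_sum D _ _ _ fun p hp => ?_
    have := A1_mul D S.hN S.hN' (hXc p.1) (hYc p.2)
    rw [hADmem n p hp] at this
    exact this
  · intro I
    rw [← Finset.sum_biUnion]
    · exact (sum_pairs_le α β).trans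
        (mul_le_mul (hXs _) (hYs _) (Finset.sum_nonneg fun _ _ => CxS.zero_le' _)
          (CxS.zero_le' _))
    · intro i _ j _ hij
      rw [Function.onFun, Finset.disjoint_left]
      intro p hp hp'
      exact hij ((hADmem i p hp).symm.trans (hADmem j p hp'))
  · intro n
    show ∑ p ∈ AD n, α p.1 * β p.2 < cy O a * cy O b
    have pa := cy_pos O a
    have pb := cy_pos O b
    rcases (AD n).eq_empty_or_nonempty with he | hne
    · rw [he, Finset.sum_empty]
      exact mul_pos pa pb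
    rcases hαβ with h | h
    · obtain ⟨p0, hp0, hmax⟩ := Finset.exists_max_image (AD n) (fun p => α p.1) hne
      calc ∑ p ∈ AD n, α p.1 * β p.2 ≤ ∑ p ∈ AD n, α p0.1 * β p.2 :=
            Finset.sum_le_sum fun p hp => mul_le_mul_of_nonneg_right (hmax p hp) (CxS.zero_le' _)
        _ = α p0.1 * ∑ j ∈ (AD n).image Prod.snd, β j := by
            rw [← Finset.mul_sum, Finset.sum_image]
            intro p hp q hq hpq
            have e1 := hADmem n p hp
            have e2 := hADmem n q hq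
            exact Prod.ext (by omega) hpq
        _ ≤ α p0.1 * cy O b := mul_le_mul_of_nonneg_left (hYs _) (CxS.zero_le' _)
        _ < cy O a * cy O b := mul_lt_mul_of_pos_right (h _) pb
    · obtain ⟨p0, hp0, hmax⟩ := Finset.exists_max_image (AD n) (fun p => β p.2) hne
      calc ∑ p ∈ AD n, α p.1 * β p.2 ≤ ∑ p ∈ AD n, α p.1 * β p0.2 :=
            Finset.sum_le_sum fun p hp => mul_le_mul_of_nonneg_left (hmax p hp) (CxS.zero_le' _)
        _ = (∑ j ∈ (AD n).image Prod.fst, α j) * β p0.2 := by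
            rw [← Finset.sum_mul, Finset.sum_image]
            intro p hp q hq hpq
            have e1 := hADmem n p hp
            have e2 := hADmem n q hq
            exact Prod.ext hpq (by omega)
        _ ≤ cy O a * β p0.2 := mul_le_mul_of_nonneg_right (hXs _) (CxS.zero_le' _)
        _ < cy O a * cy O b := mul_lt_mul_of_pos_left (h _) pa

lemma A1_good_iv (S : Setup D H N t dg) {a : Ex G κ}
    (hall : ∀ E : Ex G κ, E.val D = 0 ∨ IsUnit (E.val D))
    (hs : ¬ ∀ w ∈ (Ex.iv a).supp, w ∈ N) (ha : A1_Good D O N L t a) :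
    A1_Good D O N L t (Ex.iv a) := by
  obtain ⟨X, α, hX, hXc, hXs, hXd⟩ := ha
  have h1 : D.ι t * D.ι t⁻¹ = 1 := D.ι_mul_inv t
  have h2 : D.ι t⁻¹ * D.ι t = 1 := D.ι_inv_mul t
  have hα : ∀ n, α n < cy O a := by
    rcases hXd with ⟨ha1, _⟩ | ⟨_, ha2⟩
    · exact absurd ha1 hs
    · exact ha2
  have hdich : ∀ n, X.coeff n = 0 ∨ IsUnit (X.coeff n) := fun n =>
    A1_dichotomy D hall (hXc n)
  by_cases hX0 : X = 0
  · have hv : a.val D = 0 := by
      rw [hX0] at hX
      exact PQ_zero S.hUF S.hE h2 hX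
    have hv' : (Ex.iv a).val D = 0 := by
      show Ring.inverse (a.val D) = 0
      rw [hv, Ring.inverse_zero]
    refine ⟨0, fun _ => 0, ?_, fun n => A1_zero D _ _, ?_, Or.inr ⟨hs, fun n => ?_⟩⟩
    · rw [hv']
      exact PQ_zero_mem
    · intro I
      rw [Finset.sum_const_zero]
      exact CxS.zero_le' _
    · exact cy_pos O _
  have hn0 : X.coeff X.order ≠ 0 := fun h => hX0 (HahnSeries.coeff_order_eq_zero.mp h)
  have hlow : ∀ k < X.order, X.coeff k = 0 := fun k hk => HahnSeries.coeff_eq_zero_of_lt_order hk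
  have hu : IsUnit (X.coeff X.order) := (hdich _).resolve_left hn0
  obtain ⟨y, Y, hY, hxy, hyx, hXY, hYX⟩ := PQ_inv S.hUF h1 h2 (fun x hx => (S.conjR x hx).1)
    (fun x hx => (S.conjR x hx).2) (fun x hx y hxy hyx => RC_inv hx hxy hyx) hX hlow hn0 hu
  have hval : (Ex.iv a).val D = y := by
    show Ring.inverse (a.val D) = y
    exact Ring.inverse_unit ⟨a.val D, y, hxy, hyx⟩
  set n₀ := X.order with hn₀
  -- complexities of the coefficients of the inverse
  have hco : ∀ (r : ℕ) (n : ℤ), n < Y.order + r → ∃ β : O, β < CxS.F (cy O a) ∧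
      CfL D O N L t n β (Y.coeff n) := by
    intro r
    induction r with
    | zero =>
      intro n hn
      refine ⟨0, F_pos _, ?_⟩
      rw [HahnSeries.coeff_eq_zero_of_lt_order (by simpa using hn)]
      exact A1_zero D _ _
    | succ r ih =>
      intro n hn
      by_cases hlt : n < Y.order + r
      · exact ih n hlt
      have ih' : ∀ k, k < n → ∃ β : O, β < CxS.F (cy O a) ∧ CfL D O N L t k β (Y.coeff k) := by
        intro k hk
        apply ih
        push_cast at hn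
        omega
      choose! β hβ1 hβ2 using ih'
      classical
      set AD := Finset.antidiagonal X.isPWO_support Y.isPWO_support (n₀ + n) with hAD
      have hADmem : ∀ p ∈ AD, p.1 + p.2 = n₀ + n ∧ X.coeff p.1 ≠ 0 := by
        intro p hp
        simp only [hAD, Finset.mem_antidiagonal] at hp
        exact ⟨hp.2.2, hp.1⟩
      have hcoef : (X * Y).coeff (n₀ + n) = X.coeff n₀ * Y.coeff n
          + ∑ p ∈ AD.filter (fun p => p.1 ≠ n₀), X.coeff p.1 * Y.coeff p.2 := by
        rw [HahnSeries.coeff_mul, ← Finset.sum_filter_add_sum_filter_not AD (fun p => p.1 = n₀)]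
        congr 1
        by_cases hYn : Y.coeff n = 0
        · rw [hYn, mul_zero]
          refine Finset.sum_eq_zero fun p hp => ?_
          obtain ⟨hp1, hp2⟩ := Finset.mem_filter.mp hp
          have := (hADmem p hp1).1
          have e : p.2 = n := by omega
          rw [e, hYn, mul_zero]
        · rw [Finset.sum_eq_single (n₀, n)]
          · intro p hp hne
            obtain ⟨hp1, hp2⟩ := Finset.mem_filter.mp hp
            have := (hADmem p hp1).1
            exact absurd (Prod.ext hp2 (by simp only; omega)) hne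
          · intro hnot
            exfalso
            apply hnot
            rw [Finset.mem_filter, hAD, Finset.mem_antidiagonal]
            exact ⟨⟨hn0, hYn, rfl⟩, rfl⟩
      have hone : CfL D O N L t (n₀ + n) 1 ((X * Y).coeff (n₀ + n)) := by
        rw [hXY, HahnSeries.coeff_one]
        split_ifs with h0
        · right
          refine ⟨Ex.sc 1, 1, fun u hu => absurd hu (Set.notMem_empty u), le_refl _, L.one_mem, ?_,
            ?_⟩
          · rw [h0, neg_zero, zpow_zero, mul_one]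
            exact N.one_mem
          · show (1 : U) = D.sc 1 * D.ι 1
            rw [map_one, map_one, mul_one]
        · exact A1_zero D _ _
      set T := AD.filter (fun p => p.1 ≠ n₀) with hT
      have hTlt : ∀ p ∈ T, p.2 < n ∧ p.1 + p.2 = n₀ + n := by
        intro p hp
        obtain ⟨hp1, hp2⟩ := Finset.mem_filter.mp hp
        obtain ⟨e1, e2⟩ := hADmem p hp1
        have : ¬ p.1 < n₀ := fun hlt => e2 (hlow _ hlt)
        refine ⟨?_, e1⟩
        have hne : p.1 ≠ n₀ := hp2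
        omega
      have hsum : CfL D O N L t (n₀ + n) (∑ p ∈ T, α p.1 * β p.2)
          (∑ p ∈ T, X.coeff p.1 * Y.coeff p.2) := by
        refine A1_sum D _ _ _ fun p hp => ?_
        have := A1_mul D S.hN S.hN' (hXc p.1) (hβ2 p.2 (hTlt p hp).1)
        rw [(hTlt p hp).2] at this
        exact this
      have hYn : Y.coeff n = Ring.inverse (X.coeff n₀) *
          ((X * Y).coeff (n₀ + n) + -(∑ p ∈ T, X.coeff p.1 * Y.coeff p.2)) := by
        rw [hcoef, add_neg_cancel_right, Ring.inverse_mul_cancel_left _ _ hu]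
      have hfin := A1_mul D S.hN S.hN' (A1_inv D S.hN S.hN' (hXc n₀))
        (A1_add D hone (A1_neg D hsum))
      rw [← hYn, show -n₀ + (n₀ + n) = n by ring] at hfin
      refine ⟨_, ?_, hfin⟩
      have hlF : cy O a < CxS.F (cy O a) := CxS.lt_F _
      refine CxS.mul_lt_F _ _ _ (CxS.F_strictMono (hα n₀)) (CxS.add_lt_F _ _ _ ?_ ?_)
      · exact lt_of_le_of_lt (one_le_cy O a) hlF
      · refine sum_lt_F _ _ _ fun p hp => ?_
        exact CxS.mul_lt_F _ _ _ ((hα _).trans hlF) (hβ1 _ (hTlt p hp).1)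
  have hco' : ∀ n : ℤ, ∃ β : O, β < CxS.F (cy O a) ∧ CfL D O N L t n β (Y.coeff n) := by
    intro n
    apply hco ((n - Y.order).toNat + 1) n
    push_cast
    have := Int.self_le_toNat (n - Y.order)
    omega
  choose β hβ1 hβ2 using hco'
  refine ⟨Y, β, ?_, hβ2, ?_, Or.inr ⟨hs, hβ1⟩⟩
  · rw [hval]
    exact hY
  · intro I
    exact (sum_lt_F I β _ fun i _ => hβ1 i).le


theorem A1_good_all (S : Setup D H N t dg)
    (hall : ∀ E : Ex G κ, E.val D = 0 ∨ IsUnit (E.val D)) (hL : L ≤ H) :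
    ∀ E : Ex G κ, (∀ u ∈ E.supp, u ∈ L) → A1_Good D O N L t E := by
  intro E
  induction E with
  | sc c =>
    intro _
    exact A1_good_of_supp _ (fun u hu => absurd hu (Set.notMem_empty u))
      fun u hu => absurd hu (Set.notMem_empty u)
  | ad a b u iha ihb =>
    intro hE
    by_cases hs : ∀ w ∈ (Ex.ad a b u).supp, w ∈ N
    · exact A1_good_of_supp _ hs hE
    exact A1_good_ad S (hL (hE u (Set.mem_insert _ _))) (hE u (Set.mem_insert _ _)) hs
      (iha fun w hw => hE w (Or.inr (Or.inl hw)))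
      (ihb fun w hw => hE w (Or.inr (Or.inr hw)))
  | mu a b iha ihb =>
    intro hE
    by_cases hs : ∀ w ∈ (Ex.mu a b).supp, w ∈ N
    · exact A1_good_of_supp _ hs hE
    exact A1_good_mu S hs (iha fun w hw => hE w (Or.inl hw))
      (ihb fun w hw => hE w (Or.inr hw))
  | iv a iha =>
    intro hE
    by_cases hs : ∀ w ∈ (Ex.iv a).supp, w ∈ N
    · exact A1_good_of_supp _ hs hE
    exact A1_good_iv S hall hs (iha hE)

end A1Good

/-- A1: the expansion lemma, with the subgroup generated by the coefficients under control -/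
theorem expand {G κ U : Type} [Group G] [Ring κ] [Ring U] {D : Dat G κ U} {O : Type*} [CxS O]
    {H N : Subgroup G} {t : G} {dg : G → ℤ} (S : Setup D H N t dg)
    (hall : ∀ E : Ex G κ, E.val D = 0 ∨ IsUnit (E.val D)) (L : Subgroup G) (hL : L ≤ H)
    (E : Ex G κ) (hE : ∀ u ∈ E.supp, u ∈ L) :
    ∃ (X : HahnSeries ℤ U) (α : ℤ → O), PQ (RCs (SN D N)) (D.ι t) (E.val D) X ∧
      (∀ n, CfL D O N L t n (α n) (X.coeff n)) ∧ (∀ n, α n ≤ Ex.cy O E) ∧
      (((∀ u ∈ E.supp, u ∈ N) ∧ X = HahnSeries.C (E.val D)) ∨ ∀ n, α n < Ex.cy O E) := by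
  obtain ⟨X, α, hX, hc, hs, hd⟩ := A1_good_all (O := O) S hall hL E hE
  refine ⟨X, α, hX, hc, fun n => by simpa using hs {n}, ?_⟩
  rcases hd with ⟨h1, h2, _⟩ | ⟨_, h2⟩
  · exact Or.inl ⟨h1, h2⟩
  · exact Or.inr h2

end Pool.Agent.HL
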