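import Pool.Agent.HL.Defs

set_option autoImplicit false
set_option linter.unusedSectionVars false

noncomputable section

open scoped InnerProductSpace ENNReal Topology
open Classical Filter ContinuousLinearMap

namespace Pool.Agent.HL

open Pool.Agent.VN Pool.Agent.LFT Pool.Agent.HI Pool.Agent.HC Pool.Agent.HX

/-- conjugation by powers -/
private lemma A2_conj {U : Type} [Ring U] {R : Subring U} {τ σ : U}
    (hR : ∀ x ∈ R, τ * x * σ ∈ R) (k : ℕ) : ∀ x ∈ R, τ ^ k * x * σ ^ k ∈ R := by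
  induction k with
  | zero =>
    intro x hx
    rw [pow_zero, pow_zero, one_mul, mul_one]
    exact hx
  | succ k ih =>
    intro x hx
    have h := hR _ (ih x hx)
    have e : τ ^ (k + 1) * x * σ ^ (k + 1) = τ * (τ ^ k * x * σ ^ k) * σ := by
      rw [pow_succ', pow_succ]
      simp only [mul_assoc]
    rw [e]
    exact h

/-- products of powers of inverse elements -/
private lemma A2_inv {U : Type} [Ring U] {τ σ : U} (h1 : τ * σ = 1) (k : ℕ) :
    τ ^ k * σ ^ k = 1 := by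
  induction k with
  | zero => rw [pow_zero, pow_zero, mul_one]
  | succ k ih => rw [pow_succ, pow_succ', mul_assoc, ← mul_assoc τ σ, h1, one_mul, ih]

/-- a division ring has only `n` independent vectors in its `n`-th power -/
private lemma A2_dep {U : Type} [Ring U] [Nontrivial U] {R : Subring U}
    (hdiv : ∀ x ∈ R, x = 0 ∨ ∃ y ∈ R, x * y = 1 ∧ y * x = 1) {n : ℕ}
    (w : Fin (n + 1) → Fin n → U) (hw : ∀ k l, w k l ∈ R) :
    ∃ p : Fin (n + 1) → U, (∀ j, p j ∈ R) ∧ (∃ j, p j ≠ 0) ∧ ∀ l, ∑ k, p k * w k l = 0 := by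
  have hu : ∀ a : R, IsUnit a ∨ a = 0 := by
    rintro ⟨x, hx⟩
    rcases hdiv x hx with h | ⟨y, hy, h1, h2⟩
    · right
      exact Subtype.ext h
    · left
      exact ⟨⟨⟨x, hx⟩, ⟨y, hy⟩, Subtype.ext h1, Subtype.ext h2⟩, rfl⟩
  let _ : DivisionRing R := DivisionRing.ofIsUnitOrEqZero hu
  have h1 : ¬ LinearIndependent R fun k : Fin (n + 1) => (fun l => (⟨w k l, hw k l⟩ : R)) := by
    intro h
    have h2 := h.fintype_card_le_finrank
    rw [Fintype.card_fin, Module.finrank_fin_fun] at h2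
    omega
  obtain ⟨g, hg, i, hi⟩ := Fintype.not_linearIndependent_iff.1 h1
  refine ⟨fun k => (g k : U), fun k => (g k).2, ⟨i, fun h => hi (Subtype.ext h)⟩, fun l => ?_⟩
  have h3 := congrFun hg l
  rw [Finset.sum_apply] at h3
  have h4 := congrArg (fun x : R => (x : U)) h3
  simp only [Pi.smul_apply, smul_eq_mul, Pi.zero_apply, AddSubmonoidClass.coe_finsetSum,
    MulMemClass.coe_mul, ZeroMemClass.coe_zero] at h4
  exact h4

/-- the row vectors are in `R τ ^ k` -/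
private lemma A2_row {U : Type} [Ring U] {R : Subring U} {τ σ : U}
    (h2 : σ * τ = 1) (hR : ∀ x ∈ R, τ * x * σ ∈ R) {n : ℕ} (A : Matrix (Fin n) (Fin n) U)
    (hA : ∀ i j, A i j ∈ R) (c : Fin n → U) (hc : ∀ i, c i ∈ R) (k : ℕ) :
    ∀ l, ∃ r ∈ R, Matrix.vecMul c ((Matrix.of fun i j => A i j * τ) ^ k) l = r * τ ^ k := by
  induction k with
  | zero =>
    intro l
    refine ⟨c l, hc l, ?_⟩
    rw [pow_zero, pow_zero, Matrix.vecMul_one, mul_one]
  | succ k ih =>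
    intro l
    choose r hr hrk using ih
    refine ⟨∑ j, r j * (τ ^ k * A j l * σ ^ k), Subring.sum_mem _ fun j _ =>
      R.mul_mem (hr j) (A2_conj hR k _ (hA j l)), ?_⟩
    rw [pow_succ, ← Matrix.vecMul_vecMul, Matrix.vecMul, dotProduct, Finset.sum_mul]
    refine Finset.sum_congr rfl fun j _ => ?_
    rw [hrk j, Matrix.of_apply]
    have e : σ ^ k * τ ^ (k + 1) = τ := by
      rw [pow_succ, ← mul_assoc, A2_inv h2, one_mul]
    calc r j * τ ^ k * (A j l * τ) = r j * τ ^ k * (A j l * (σ ^ k * τ ^ (k + 1))) := by rw [e]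
      _ = r j * (τ ^ k * A j l * σ ^ k) * τ ^ (k + 1) := by simp only [mul_assoc]

/-- A2: the coefficients of an expansion over a division ring satisfy a linear recurrence -/
theorem recur {U : Type} [Ring U] [Nontrivial U] {R : Subring U} {τ σ : U} (h1 : τ * σ = 1)
    (h2 : σ * τ = 1) (hR : ∀ x ∈ R, τ * x * σ ∈ R) (hR' : ∀ x ∈ R, σ * x * τ ∈ R)
    (hdiv : ∀ x ∈ R, x = 0 ∨ ∃ y ∈ R, x * y = 1 ∧ y * x = 1) {y : U} {Y : HahnSeries ℤ U}
    (hy : PQ R τ y Y) :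
    ∃ (J : ℕ) (p : Fin (J + 1) → U), (∀ j, p j ∈ R) ∧ (∃ j, p j ≠ 0) ∧ ∃ m0 : ℤ, ∀ m : ℤ,
      m0 ≤ m → ∑ j : Fin (J + 1), p j * τ ^ (J - (j : ℕ)) * Y.coeff (m + (j : ℕ)) = 0 := by
  obtain ⟨a, y₀, hPP⟩ := hy
  obtain ⟨n, A, b, c, v, hA, hb, hc, hv, hy1, hy2, hy0⟩ := PP_data hPP
  set β : Matrix (Fin n) (Fin n) U := Matrix.of fun i j => A i j * τ with hβ
  -- the coefficients
  have hcoef : ∀ k : ℕ, Y.coeff ((k : ℤ) - a) = σ ^ a * ∑ i, c i * (Matrix.mulVec (β ^ k) b) i := by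
    intro k
    have h3 := mon_mul_coeff (a : ℤ) (τ ^ a) ((y, Y) : SU U) (k : ℤ)
    rw [hy2, HahnSeries.ofPowerSeries_apply_coeff, PowerSeries.coeff_mk] at h3
    rw [h3, ← mul_assoc, A2_inv h2, one_mul]
  have hcomm : Commute τ σ := by
    show τ * σ = σ * τ
    rw [h1, h2]
  choose r hr hrk using fun k => A2_row h2 hR A hA c hc k
  -- the vectors over `R`
  have hw : ∀ (k : Fin (n + 1)) (l : Fin n),
      τ ^ (n - (k : ℕ)) * (σ ^ a * r k l * τ ^ a) * σ ^ (n - (k : ℕ)) ∈ R := by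
    intro k l
    exact A2_conj hR _ _ (A2_conj hR' a _ (hr k l))
  obtain ⟨p, hp, hp0, hrel⟩ := A2_dep hdiv _ hw
  refine ⟨n, p, hp, hp0, -(a : ℤ), fun m hm => ?_⟩
  obtain ⟨k0, hk0⟩ := Int.eq_ofNat_of_zero_le (show 0 ≤ m + a by omega)
  -- the relation between the row vectors
  have hvec : ∀ (k : Fin (n + 1)) (l : Fin n), τ ^ (n - (k : ℕ)) * (σ ^ a *
      Matrix.vecMul c (β ^ (k : ℕ)) l) = τ ^ (n - (k : ℕ)) * (σ ^ a * r k l * τ ^ a) *
        σ ^ (n - (k : ℕ)) * (τ ^ n * σ ^ a) := by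
    intro k l
    have hk : (k : ℕ) ≤ n := Nat.lt_succ_iff.1 k.2
    have e1 : τ ^ a * σ ^ (n - (k : ℕ)) * (τ ^ n * σ ^ a) = τ ^ (k : ℕ) := by
      have e2 : σ ^ (n - (k : ℕ)) * τ ^ n = τ ^ (k : ℕ) := by
        have e3 : τ ^ n = τ ^ (n - (k : ℕ)) * τ ^ (k : ℕ) := by
          rw [← pow_add]
          congr 1
          omega
        rw [e3, ← mul_assoc, A2_inv h2, one_mul]
      calc τ ^ a * σ ^ (n - (k : ℕ)) * (τ ^ n * σ ^ a)
          = τ ^ a * (σ ^ (n - (k : ℕ)) * τ ^ n) * σ ^ a := by simp only [mul_assoc]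
        _ = τ ^ a * τ ^ (k : ℕ) * σ ^ a := by rw [e2]
        _ = τ ^ (k : ℕ) * (τ ^ a * σ ^ a) := by rw [← pow_add, Nat.add_comm, pow_add, mul_assoc]
        _ = τ ^ (k : ℕ) := by rw [A2_inv h1, mul_one]
    rw [hrk k l]
    calc τ ^ (n - (k : ℕ)) * (σ ^ a * (r k l * τ ^ (k : ℕ)))
        = τ ^ (n - (k : ℕ)) * (σ ^ a * (r k l *
          (τ ^ a * σ ^ (n - (k : ℕ)) * (τ ^ n * σ ^ a)))) := by rw [e1]
      _ = _ := by simp only [mul_assoc]
  have hterm : ∀ j : Fin (n + 1), p j * τ ^ (n - (j : ℕ)) * Y.coeff (m + (j : ℕ)) =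
      ∑ l, p j * (τ ^ (n - (j : ℕ)) * (σ ^ a * r j l * τ ^ a) * σ ^ (n - (j : ℕ))) *
        ((τ ^ n * σ ^ a) * (Matrix.mulVec (β ^ k0) b) l) := by
    intro j
    have e1 : m + (j : ℕ) = ((k0 + (j : ℕ) : ℕ) : ℤ) - a := by
      push_cast
      have h5 : m + a = (k0 : ℤ) := hk0
      linarith
    rw [e1, hcoef]
    have e2 : ∑ i, c i * (Matrix.mulVec (β ^ (k0 + (j : ℕ))) b) i =
        ∑ l, Matrix.vecMul c (β ^ (j : ℕ)) l * (Matrix.mulVec (β ^ k0) b) l := by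
      have e3 : c ⬝ᵥ Matrix.mulVec (β ^ (k0 + (j : ℕ))) b =
          Matrix.vecMul c (β ^ (j : ℕ)) ⬝ᵥ Matrix.mulVec (β ^ k0) b := by
        rw [Nat.add_comm, pow_add, ← Matrix.mulVec_mulVec, Matrix.dotProduct_mulVec]
      exact e3
    rw [e2, Finset.mul_sum, Finset.mul_sum]
    refine Finset.sum_congr rfl fun l _ => ?_
    calc p j * τ ^ (n - (j : ℕ)) * (σ ^ a * (Matrix.vecMul c (β ^ (j : ℕ)) l *
          (Matrix.mulVec (β ^ k0) b) l))
        = p j * (τ ^ (n - (j : ℕ)) * (σ ^ a * Matrix.vecMul c (β ^ (j : ℕ)) l)) *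
          (Matrix.mulVec (β ^ k0) b) l := by simp only [mul_assoc]
      _ = _ := by
        rw [hvec]
        simp only [mul_assoc]
  rw [Finset.sum_congr rfl fun j _ => hterm j, Finset.sum_comm]
  refine Finset.sum_eq_zero fun l _ => ?_
  rw [← Finset.sum_mul, hrel l, zero_mul]

end Pool.Agent.HL
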