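import Pool.Agent.HL.Defs

set_option autoImplicit false
set_option linter.unusedSectionVars false

noncomputable section

open scoped InnerProductSpace ENNReal Topology
open Classical Filter ContinuousLinearMap

namespace Pool.Agent.HL

open Pool.Agent.VN Pool.Agent.LFT Pool.Agent.HI Pool.Agent.HC Pool.Agent.HX

/-- right linear functions on a ring over a division ring -/
theorem A3_lin {K U : Type} [DivisionRing K] [Ring U] (φ : K →+* U) (u : U) (hu : u ≠ 0) :
    ∃ f : U →+ K, (∀ x c, f (x * φ c) = f x * c) ∧ f u = 1 := by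
  let _ : Module Kᵐᵒᵖ U := Module.compHom U (RingHom.op φ)
  have hsm : ∀ (c : K) (x : U), MulOpposite.op c • x = x * φ c := fun _ _ => rfl
  let L : K →ₗ[Kᵐᵒᵖ] U :=
    { toFun := fun c => u * φ c
      map_add' := fun c d => by rw [map_add, mul_add]
      map_smul' := fun c d => by
        induction c using MulOpposite.rec' with
        | h c =>
          rw [op_smul_eq_mul, map_mul, ← mul_assoc, RingHom.id_apply, hsm] }
  have hL : LinearMap.ker L = ⊥ := by
    rw [LinearMap.ker_eq_bot']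
    intro c hc
    by_contra hc0
    apply hu
    have h1 : u * φ c = 0 := hc
    calc u = u * φ (c * c⁻¹) := by rw [mul_inv_cancel₀ hc0, map_one, mul_one]
      _ = 0 := by rw [map_mul, ← mul_assoc, h1, zero_mul]
  obtain ⟨g, hg⟩ := LinearMap.exists_leftInverse_of_injective L hL
  refine ⟨g.toAddMonoidHom, fun x c => ?_, ?_⟩
  · show g (x * φ c) = g x * c
    rw [← hsm, map_smul, op_smul_eq_mul]
  · show g u = 1
    have h1 := LinearMap.congr_fun hg 1
    have h2 : L 1 = u := by
      show u * φ 1 = u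
      rw [map_one, mul_one]
    rw [LinearMap.comp_apply, h2] at h1
    exact h1

/-- A3: linear systems over a division ring have solutions over it if they have solutions over a
larger ring -/
theorem descend {U : Type} [Ring U] [Nontrivial U] {F0 : Subring U}
    (hdiv : ∀ x ∈ F0, x = 0 ∨ ∃ y ∈ F0, x * y = 1 ∧ y * x = 1) {J : ℕ} {I : Type}
    (a : Fin J → I → U) (ha : ∀ j i, a j i ∈ F0) (p : Fin J → U) (hp : ∃ j, p j ≠ 0)
    (hs : ∀ i, ∑ j, p j * a j i = 0) :
    ∃ q : Fin J → U, (∀ j, q j ∈ F0) ∧ (∃ j, q j ≠ 0) ∧ ∀ i, ∑ j, q j * a j i = 0 := by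
  have hu : ∀ x : F0, IsUnit x ∨ x = 0 := by
    rintro ⟨x, hx⟩
    rcases hdiv x hx with h | ⟨y, hy, h1, h2⟩
    · right
      exact Subtype.ext h
    · left
      exact ⟨⟨⟨x, hx⟩, ⟨y, hy⟩, Subtype.ext h1, Subtype.ext h2⟩, rfl⟩
  let _ : DivisionRing F0 := DivisionRing.ofIsUnitOrEqZero hu
  obtain ⟨j0, hj0⟩ := hp
  obtain ⟨f, hf, hf1⟩ := A3_lin (K := F0) F0.subtype (p j0) hj0
  refine ⟨fun j => (f (p j) : U), fun j => (f (p j)).2, ⟨j0, ?_⟩, fun i => ?_⟩
  · show ((f (p j0) : F0) : U) ≠ 0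
    rw [hf1]
    exact one_ne_zero
  · have h1 : f (∑ j, p j * a j i) = ∑ j, f (p j) * (⟨a j i, ha j i⟩ : F0) := by
      rw [map_sum]
      exact Finset.sum_congr rfl fun j _ => hf (p j) ⟨a j i, ha j i⟩
    rw [hs i, map_zero] at h1
    have h2 := congrArg (fun x : F0 => (x : U)) h1
    have h3 : ((∑ j, f (p j) * (⟨a j i, ha j i⟩ : F0) : F0) : U) = ∑ j, (f (p j) : U) * a j i := by
      rw [show ((∑ j, f (p j) * (⟨a j i, ha j i⟩ : F0) : F0) : U) =
        F0.subtype (∑ j, f (p j) * (⟨a j i, ha j i⟩ : F0)) from rfl, map_sum]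
      rfl
    rw [← h3]
    exact h2.symm

end Pool.Agent.HL
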