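import Pool.Agent.HL.Defs

set_option autoImplicit false
set_option linter.unusedSectionVars false

noncomputable section

open scoped InnerProductSpace ENNReal Topology
open Classical Filter ContinuousLinearMap

namespace Pool.Agent.HL

open Pool.Agent.VN Pool.Agent.LFT Pool.Agent.HI Pool.Agent.HC Pool.Agent.HX

variable {G κ U : Type} [Group G] [Ring κ] [Ring U] {D : Dat G κ U}
  {H N : Subgroup G} {t : G} {dg : G → ℤ}

theorem A7_conj (S : Setup D H N t dg) (a : ℕ) {x : U} (hx : x ∈ RCs (SN D N)) :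
    D.ι (t ^ (-(a : ℤ))) * x * D.ι (t ^ (a : ℤ)) ∈ RCs (SN D N) := by
  induction a with
  | zero => simpa using hx
  | succ a ih =>
    have h := (S.conjR _ ih).2
    have e : D.ι (t ^ (-((a + 1 : ℕ) : ℤ))) * x * D.ι (t ^ (((a + 1 : ℕ) : ℤ))) =
        D.ι t⁻¹ * (D.ι (t ^ (-(a : ℤ))) * x * D.ι (t ^ (a : ℤ))) * D.ι t := by
      have e1 : t ^ (-((a + 1 : ℕ) : ℤ)) = t⁻¹ * t ^ (-(a : ℤ)) := by
        rw [← zpow_neg_one, ← zpow_add]
        congr 1
        push_cast
        ring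
      have e2 : t ^ ((a + 1 : ℕ) : ℤ) = t ^ (a : ℤ) * t := by
        rw [Nat.cast_succ, zpow_add_one]
      rw [e1, e2, map_mul, map_mul]
      simp only [mul_assoc]
    rw [e]
    exact h

/-- A7: the coefficients of an expansion -/
theorem pq_coeff (S : Setup D H N t dg) {y : U} {Y : HahnSeries ℤ U}
    (hy : PQ (RCs (SN D N)) (D.ι t) y Y) (n : ℤ) :
    Y.coeff n * D.ι (t ^ (-n)) ∈ RCs (SN D N) := by
  obtain ⟨a, y₀, hy⟩ := hy
  have hneg := (PP_props hy).1
  obtain ⟨m, A, b, c, v, hA, hb, hc, hv, hy1, hy2, hy0⟩ := PP_data hy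
  have key : ∀ (k : ℕ) (i : Fin m),
      (Matrix.mulVec ((Matrix.of fun i j => A i j * D.ι t : Matrix (Fin m) (Fin m) U) ^ k) b) i *
        D.ι (t ^ (-(k : ℤ))) ∈ RCs (SN D N) := by
    intro k
    induction k with
    | zero =>
      intro i
      simpa using hb i
    | succ k ih =>
      intro i
      rw [pow_succ', ← Matrix.mulVec_mulVec]
      have e : (Matrix.mulVec (Matrix.of fun i j => A i j * D.ι t : Matrix (Fin m) (Fin m) U)
          (Matrix.mulVec ((Matrix.of fun i j => A i j * D.ι t : Matrix (Fin m) (Fin m) U) ^ k) b)) i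
          * D.ι (t ^ (-((k + 1 : ℕ) : ℤ))) =
          ∑ j, A i j * (D.ι t * ((Matrix.mulVec ((Matrix.of fun i j => A i j * D.ι t :
            Matrix (Fin m) (Fin m) U) ^ k) b) j * D.ι (t ^ (-(k : ℤ)))) * D.ι t⁻¹) := by
        have e1 : t ^ (-((k + 1 : ℕ) : ℤ)) = t ^ (-(k : ℤ)) * t⁻¹ := by
          rw [← zpow_sub_one]
          congr 1
          push_cast
          ring
        rw [e1, map_mul]
        change (∑ j, (A i j * D.ι t) * _) * _ = _
        rw [Finset.sum_mul]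
        refine Finset.sum_congr rfl fun j _ => ?_
        simp only [mul_assoc]
      rw [e]
      exact Subring.sum_mem _ fun j _ => Subring.mul_mem _ (hA i j) (S.conjR _ (ih j)).1
  have hZ : ∀ k : ℤ, (mon (a : ℤ) (D.ι t ^ a) * ((y, Y) : SU U)).2.coeff k * D.ι (t ^ (-k)) ∈
      RCs (SN D N) := by
    intro k
    rcases lt_or_ge k 0 with hk | hk
    · rw [hneg k hk, zero_mul]
      exact Subring.zero_mem _
    · obtain ⟨k, rfl⟩ := Int.eq_ofNat_of_zero_le hk
      rw [hy2, HahnSeries.ofPowerSeries_apply_coeff, PowerSeries.coeff_mk, Finset.sum_mul]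
      refine Subring.sum_mem _ fun i _ => ?_
      rw [mul_assoc]
      exact Subring.mul_mem _ (hc i) (key k i)
  have h3 := A7_conj S a (hZ (n + a))
  rw [mon_mul_coeff, add_sub_cancel_right, ← map_pow, ← zpow_natCast] at h3
  have e : D.ι (t ^ (-(a : ℤ))) * (D.ι (t ^ (a : ℤ)) * Y.coeff n * D.ι (t ^ (-(n + a)))) *
      D.ι (t ^ (a : ℤ)) = Y.coeff n * D.ι (t ^ (-n)) := by
    calc _ = (D.ι (t ^ (-(a : ℤ))) * D.ι (t ^ (a : ℤ))) * Y.coeff n *
          (D.ι (t ^ (-(n + a))) * D.ι (t ^ (a : ℤ))) := by simp only [mul_assoc]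
      _ = _ := by
        rw [← map_mul, ← map_mul, ← zpow_add, ← zpow_add, neg_add_cancel, zpow_zero, map_one,
          one_mul]
        congr 3
        ring
  have h4 : ((y, Y) : SU U).2 = Y := rfl
  rw [h4] at h3
  rw [e] at h3
  exact h3

/-- A7: monotonicity of the rational closure -/
theorem rcs_mono {L L' : Subgroup G} (h : L ≤ L') : RCs (SN D L) ≤ RCs (SN D L') := by
  have hS : SN D L ≤ SN D L' := Subring.closure_mono
    (Set.union_subset_union_right _ (Set.image_mono h))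
  rintro x ⟨n, Q, b, c, v, hQ, hb, hc, hu, hv, hx⟩
  exact ⟨n, Q, b, c, v, fun i j => hS (hQ i j), fun i => hS (hb i), fun i => hS (hc i), hu, hv, hx⟩

/-- A7: expansions are unique -/
theorem pq_unique (S : Setup D H N t dg) (hall : ∀ x ∈ RCs (SN D ⊤), x = 0 ∨ IsUnit x) {y : U}
    {Y Y' : HahnSeries ℤ U} (hy : PQ (RCs (SN D N)) (D.ι t) y Y)
    (hy' : PQ (RCs (SN D N)) (D.ι t) y Y') : Y = Y' := by
  have h1 : D.ι t * D.ι t⁻¹ = 1 := D.ι_mul_inv t
  have h2 : D.ι t⁻¹ * D.ι t = 1 := D.ι_inv_mul t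
  have hm : PQ (RCs (SN D N)) (D.ι t) (-1) (HahnSeries.C (-1)) :=
    PQ_of_mem (Subring.neg_mem _ (Subring.one_mem _))
  have hs := PQ_add hy (PQ_mul h1 h2 (fun x hx => (S.conjR x hx).1) hm hy')
  rw [neg_one_mul, add_neg_cancel, map_neg, map_one, neg_one_mul, ← sub_eq_add_neg] at hs
  by_contra hne
  have hX0 : Y - Y' ≠ 0 := sub_ne_zero.2 hne
  have hn0 : (Y - Y').coeff (Y - Y').order ≠ 0 :=
    fun h => hX0 (HahnSeries.coeff_order_eq_zero.mp h)
  have hlow : ∀ k < (Y - Y').order, (Y - Y').coeff k = 0 :=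
    fun k hk => HahnSeries.coeff_eq_zero_of_lt_order hk
  have hu : IsUnit ((Y - Y').coeff (Y - Y').order) := by
    have h3 := rcs_mono (D := D) (le_top : N ≤ ⊤) (pq_coeff S hs (Y - Y').order)
    have h4 : IsUnit (D.ι (t ^ (-(Y - Y').order))) := D.isUnit_ι _
    rcases hall _ h3 with h5 | h5
    · exact absurd (h4.mul_left_eq_zero.1 h5) hn0
    · obtain ⟨u, hu⟩ := h4
      rw [← hu, Units.isUnit_mul_units] at h5
      exact h5
  obtain ⟨z, Z, hZ, hxy, -⟩ := PQ_inv S.hUF h1 h2 (fun x hx => (S.conjR x hx).1)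
    (fun x hx => (S.conjR x hx).2) (fun x hx y hxy hyx => RC_inv hx hxy hyx) hs hlow hn0 hu
  rw [zero_mul] at hxy
  apply hn0
  rw [← one_mul ((Y - Y').coeff (Y - Y').order), ← hxy, zero_mul]

end Pool.Agent.HL
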