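import Pool.Agent.HL.Defs
import Pool.Agent.HL.A2
import Pool.Agent.HL.A3
import Pool.Agent.HL.A7

set_option autoImplicit false
set_option linter.unusedSectionVars false

noncomputable section

open scoped InnerProductSpace ENNReal Topology
open Classical Filter ContinuousLinearMap

namespace Pool.Agent.HL

open Pool.Agent.VN Pool.Agent.LFT Pool.Agent.HI Pool.Agent.HC Pool.Agent.HX

section A4aux

variable {G κ U : Type} [Group G] [Ring κ] [Ring U] {D : Dat G κ U}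

/-- conjugation by an element normalising the subgroup preserves the rational closure -/
theorem A4_conj {L : Subgroup G} {g : G} (hL : ∀ n ∈ L, g * n * g⁻¹ ∈ L) :
    ∀ x ∈ RCs (SN D L), D.ι g * x * D.ι g⁻¹ ∈ RCs (SN D L) := by
  intro x hx
  have h1 : D.ι g * D.ι g⁻¹ = 1 := D.ι_mul_inv g
  have h2 : D.ι g⁻¹ * D.ι g = 1 := D.ι_inv_mul g
  have hS : ∀ x ∈ SN D L, D.ι g * x * D.ι g⁻¹ ∈ SN D L := by
    intro x hx
    induction hx using Subring.closure_induction with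
    | mem x hx =>
      rcases hx with ⟨c, rfl⟩ | ⟨g', hg, rfl⟩
      · rw [← D.comm, mul_assoc, h1, mul_one]
        exact sc_mem_SN D L c
      · rw [← map_mul, ← map_mul]
        exact ι_mem_SN D (hL g' hg)
    | zero => rw [mul_zero, zero_mul]; exact Subring.zero_mem _
    | one => rw [mul_one, h1]; exact Subring.one_mem _
    | add x y _ _ hx hy =>
      rw [mul_add, add_mul]
      exact Subring.add_mem _ hx hy
    | neg x _ hx =>
      rw [mul_neg, neg_mul]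
      exact Subring.neg_mem _ hx
    | mul x y _ _ hx hy =>
      have : D.ι g * (x * y) * D.ι g⁻¹
          = (D.ι g * x * D.ι g⁻¹) * (D.ι g * y * D.ι g⁻¹) := by
        calc D.ι g * (x * y) * D.ι g⁻¹ = D.ι g * x * 1 * y * D.ι g⁻¹ := by
              rw [mul_one]; simp only [mul_assoc]
          _ = D.ι g * x * (D.ι g⁻¹ * D.ι g) * y * D.ι g⁻¹ := by rw [h2]
          _ = _ := by simp only [mul_assoc]
      rw [this]
      exact Subring.mul_mem _ hx hy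
  exact RC_map (S := SN D L) (x := x)
    { toFun := fun x => D.ι g * x * D.ι g⁻¹
      invFun := fun x => D.ι g⁻¹ * x * D.ι g
      left_inv := by
        intro x
        show D.ι g⁻¹ * (D.ι g * x * D.ι g⁻¹) * D.ι g = x
        calc D.ι g⁻¹ * (D.ι g * x * D.ι g⁻¹) * D.ι g
            = (D.ι g⁻¹ * D.ι g) * x * (D.ι g⁻¹ * D.ι g) := by simp only [mul_assoc]
          _ = x := by rw [h2, one_mul, mul_one]
      right_inv := by
        intro x
        show D.ι g * (D.ι g⁻¹ * x * D.ι g) * D.ι g⁻¹ = x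
        calc D.ι g * (D.ι g⁻¹ * x * D.ι g) * D.ι g⁻¹
            = (D.ι g * D.ι g⁻¹) * x * (D.ι g * D.ι g⁻¹) := by simp only [mul_assoc]
          _ = x := by rw [h1, one_mul, mul_one]
      map_mul' := by
        intro x y
        show D.ι g * (x * y) * D.ι g⁻¹ = (D.ι g * x * D.ι g⁻¹) * (D.ι g * y * D.ι g⁻¹)
        calc D.ι g * (x * y) * D.ι g⁻¹ = D.ι g * x * 1 * y * D.ι g⁻¹ := by
              rw [mul_one]; simp only [mul_assoc]
          _ = D.ι g * x * (D.ι g⁻¹ * D.ι g) * y * D.ι g⁻¹ := by rw [h2]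
          _ = _ := by simp only [mul_assoc]
      map_add' := by
        intro x y
        show D.ι g * (x + y) * D.ι g⁻¹ = D.ι g * x * D.ι g⁻¹ + D.ι g * y * D.ι g⁻¹
        rw [mul_add, add_mul] } hS hx

variable {N : Subgroup G} {t : G}

theorem A4_dmul (hN : ∀ n ∈ N, t * n * t⁻¹ ∈ N) (hN' : ∀ n ∈ N, t⁻¹ * n * t ∈ N) {g g' : G}
    {n m : ℤ} (hg : g * t ^ (-n) ∈ N) (hg' : g' * t ^ (-m) ∈ N) :
    g * g' * t ^ (-(n + m)) ∈ N := by
  have h := zpow_conj hN hN' n _ hg'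
  have e : g * g' * t ^ (-(n + m)) = (g * t ^ (-n)) * (t ^ n * (g' * t ^ (-m)) * t ^ (-n)) := by
    group
  rw [e]
  exact N.mul_mem hg h

theorem A4_dinv (hN : ∀ n ∈ N, t * n * t⁻¹ ∈ N) (hN' : ∀ n ∈ N, t⁻¹ * n * t ∈ N) {g : G}
    {n : ℤ} (hg : g * t ^ (-n) ∈ N) : g⁻¹ * t ^ (-(-n)) ∈ N := by
  have h := zpow_conj hN hN' (-n) _ (N.inv_mem hg)
  have e : g⁻¹ * t ^ (-(-n)) = t ^ (-n) * (g * t ^ (-n))⁻¹ * t ^ (-(-n)) := by
    group
  rw [e]
  exact h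

theorem A4_dnorm (hN : ∀ n ∈ N, t * n * t⁻¹ ∈ N) (hN' : ∀ n ∈ N, t⁻¹ * n * t ∈ N) {g : G}
    {n : ℤ} (hg : g * t ^ (-n) ∈ N) : ∀ x ∈ N, g * x * g⁻¹ ∈ N := by
  intro x hx
  have h := zpow_conj hN hN' n x hx
  have e : g * x * g⁻¹ = (g * t ^ (-n)) * (t ^ n * x * t ^ (-n)) * (g * t ^ (-n))⁻¹ := by
    group
  rw [e]
  exact N.mul_mem (N.mul_mem hg h) (N.inv_mem hg)

/-- homogeneous elements over the subgroup `C` -/
def A4_Cd (D : Dat G κ U) (N C : Subgroup G) (t : G) (n : ℤ) (y : U) : Prop :=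
  y = 0 ∨ ∃ z ∈ RCs (SN D (N ⊓ C)), ∃ μ ∈ C, μ * t ^ (-n) ∈ N ∧ y = z * D.ι μ

variable {C : Subgroup G}

theorem A4_Cd_add {n : ℤ} {y y' : U} (h : A4_Cd D N C t n y) (h' : A4_Cd D N C t n y') :
    A4_Cd D N C t n (y + y') := by
  rcases h with rfl | ⟨z, hz, μ, hμ, hμt, rfl⟩
  · rw [zero_add]; exact h'
  rcases h' with rfl | ⟨z', hz', μ', hμ', hμt', rfl⟩
  · rw [add_zero]; exact Or.inr ⟨z, hz, μ, hμ, hμt, rfl⟩
  refine Or.inr ⟨z + z' * D.ι (μ' * μ⁻¹), ?_, μ, hμ, hμt, ?_⟩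
  · refine Subring.add_mem _ hz (Subring.mul_mem _ hz' (RC_of_mem (ι_mem_SN D ?_)))
    refine Subgroup.mem_inf.mpr ⟨?_, C.mul_mem hμ' (C.inv_mem hμ)⟩
    have e : μ' * μ⁻¹ = (μ' * t ^ (-n)) * (μ * t ^ (-n))⁻¹ := by group
    rw [e]
    exact N.mul_mem hμt' (N.inv_mem hμt)
  · rw [add_mul, mul_assoc z', ← map_mul, inv_mul_cancel_right]

theorem A4_Cd_sum {ι : Type} (s : Finset ι) {n : ℤ} (f : ι → U)
    (h : ∀ i ∈ s, A4_Cd D N C t n (f i)) : A4_Cd D N C t n (∑ i ∈ s, f i) := by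
  induction s using Finset.induction_on with
  | empty => exact Or.inl Finset.sum_empty
  | insert a s ha ih =>
    rw [Finset.sum_insert ha]
    exact A4_Cd_add (h a (Finset.mem_insert_self _ _))
      (ih fun i hi => h i (Finset.mem_insert_of_mem hi))

theorem A4_Cd_mul (hN : ∀ n ∈ N, t * n * t⁻¹ ∈ N) (hN' : ∀ n ∈ N, t⁻¹ * n * t ∈ N) {n m : ℤ}
    {y y' : U} (h : A4_Cd D N C t n y) (h' : A4_Cd D N C t m y') :
    A4_Cd D N C t (n + m) (y * y') := by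
  rcases h with rfl | ⟨z, hz, μ, hμ, hμt, rfl⟩
  · exact Or.inl (zero_mul _)
  rcases h' with rfl | ⟨z', hz', μ', hμ', hμt', rfl⟩
  · exact Or.inl (mul_zero _)
  have hnorm : ∀ x ∈ N ⊓ C, μ * x * μ⁻¹ ∈ N ⊓ C := by
    intro x hx
    obtain ⟨hx1, hx2⟩ := Subgroup.mem_inf.mp hx
    exact Subgroup.mem_inf.mpr ⟨A4_dnorm hN hN' hμt x hx1,
      C.mul_mem (C.mul_mem hμ hx2) (C.inv_mem hμ)⟩
  refine Or.inr ⟨z * (D.ι μ * z' * D.ι μ⁻¹), Subring.mul_mem _ hz (A4_conj hnorm z' hz'),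
    μ * μ', C.mul_mem hμ hμ', A4_dmul hN hN' hμt hμt', ?_⟩
  have h2 : D.ι μ⁻¹ * D.ι μ = 1 := D.ι_inv_mul μ
  calc z * D.ι μ * (z' * D.ι μ') = z * D.ι μ * z' * 1 * D.ι μ' := by
        rw [mul_one]; simp only [mul_assoc]
    _ = z * D.ι μ * z' * (D.ι μ⁻¹ * D.ι μ) * D.ι μ' := by rw [h2]
    _ = z * (D.ι μ * z' * D.ι μ⁻¹) * D.ι (μ * μ') := by
        rw [map_mul]; simp only [mul_assoc]

theorem A4_Cd_one {n : ℤ} {μ : G} (hμ : μ ∈ C) (hμt : μ * t ^ (-n) ∈ N) :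
    A4_Cd D N C t n (D.ι μ) :=
  Or.inr ⟨1, Subring.one_mem _, μ, hμ, hμt, (one_mul _).symm⟩

theorem A4_Cd_of {z : U} (hz : z ∈ RCs (SN D (N ⊓ C))) : A4_Cd D N C t 0 z :=
  Or.inr ⟨z, hz, 1, C.one_mem, by simp, by rw [map_one, mul_one]⟩

theorem A4_Cd_zero {y : U} (h : A4_Cd D N C t 0 y) : y ∈ RCs (SN D (N ⊓ C)) := by
  rcases h with rfl | ⟨z, hz, μ, hμ, hμt, rfl⟩
  · exact Subring.zero_mem _
  · refine Subring.mul_mem _ hz (RC_of_mem (ι_mem_SN D (Subgroup.mem_inf.mpr ⟨?_, hμ⟩)))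
    rwa [neg_zero, zpow_zero, mul_one] at hμt

theorem A4_Cd_mem {n : ℤ} {y : U} (h : A4_Cd D N C t n y) : y ∈ RCs (SN D C) := by
  rcases h with rfl | ⟨z, hz, μ, hμ, hμt, rfl⟩
  · exact Subring.zero_mem _
  · exact Subring.mul_mem _ (rcs_mono inf_le_right hz) (RC_of_mem (ι_mem_SN D hμ))

theorem A4_Cd_PQ {H : Subgroup G} {dg : G → ℤ} (S : Setup D H N t dg) {n : ℤ} {y : U}
    (h : A4_Cd D N C t n y) : PQ (RCs (SN D N)) (D.ι t) y (HahnSeries.single n y) := by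
  rcases h with rfl | ⟨z, hz, μ, hμ, hμt, rfl⟩
  · rw [HahnSeries.single_eq_zero]
    exact PQ_zero_mem
  · have h1 : D.ι t * D.ι t⁻¹ = 1 := D.ι_mul_inv t
    have h2 : D.ι t⁻¹ * D.ι t = 1 := D.ι_inv_mul t
    have h3 := PQ_mul h1 h2 (fun x hx => (S.conjR x hx).1)
      (PQ_of_mem (τ := D.ι t) (rcs_mono (D := D) (inf_le_left : N ⊓ C ≤ N) hz))
      (PQ_ι D S.hN hμt)
    rw [HahnSeries.C_apply, HahnSeries.single_mul_single, zero_add] at h3
    exact h3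

theorem A4_PQ_sum {ι : Type} {R : Subring U} {τ : U} (s : Finset ι) (f : ι → U)
    (F : ι → HahnSeries ℤ U) (h : ∀ i ∈ s, PQ R τ (f i) (F i)) :
    PQ R τ (∑ i ∈ s, f i) (∑ i ∈ s, F i) := by
  induction s using Finset.induction_on with
  | empty => rw [Finset.sum_empty, Finset.sum_empty]; exact PQ_zero_mem
  | insert a s ha ih =>
    rw [Finset.sum_insert ha, Finset.sum_insert ha]
    exact PQ_add (h a (Finset.mem_insert_self _ _))
      (ih fun i hi => h i (Finset.mem_insert_of_mem hi))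

theorem A4_coeff_sum {ι : Type} (s : Finset ι) (F : ι → HahnSeries ℤ U) (n : ℤ) :
    (∑ i ∈ s, F i).coeff n = ∑ i ∈ s, (F i).coeff n := by
  induction s using Finset.induction_on with
  | empty => rw [Finset.sum_empty, Finset.sum_empty]; rfl
  | insert a s ha ih =>
    rw [Finset.sum_insert ha, Finset.sum_insert ha, HahnSeries.coeff_add, ih]

end A4aux

/-- A4: an element whose expansion has all coefficients over the subgroup `C` is a value over `C` -/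
theorem series {G κ U : Type} [Group G] [Ring κ] [Ring U] {D : Dat G κ U}
    {H N : Subgroup G} {t : G} {dg : G → ℤ} (S : Setup D H N t dg)
    (htN : ∀ n : ℤ, t ^ n ∈ N → n = 0)
    (hall : ∀ x ∈ RCs (SN D ⊤), x = 0 ∨ IsUnit x) (C : Subgroup G) {y : U}
    {Y : HahnSeries ℤ U} (hy : PQ (RCs (SN D N)) (D.ι t) y Y)
    (hc : ∀ n, Y.coeff n = 0 ∨ ∃ z ∈ RCs (SN D (N ⊓ C)), ∃ μ ∈ C, μ * t ^ (-n) ∈ N ∧
      Y.coeff n = z * D.ι μ) : y ∈ RCs (SN D C) := by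
  have hcd : ∀ n, A4_Cd D N C t n (Y.coeff n) := hc
  clear hc
  by_cases hU : Subsingleton U
  · have : y = 0 := Subsingleton.elim _ _
    rw [this]; exact Subring.zero_mem _
  have : Nontrivial U := not_subsingleton_iff_nontrivial.mp hU
  have h1 : D.ι t * D.ι t⁻¹ = 1 := D.ι_mul_inv t
  have h2 : D.ι t⁻¹ * D.ι t = 1 := D.ι_inv_mul t
  have hR : ∀ x ∈ RCs (SN D N), D.ι t * x * D.ι t⁻¹ ∈ RCs (SN D N) :=
    fun x hx => (S.conjR x hx).1
  have hR' : ∀ x ∈ RCs (SN D N), D.ι t⁻¹ * x * D.ι t ∈ RCs (SN D N) :=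
    fun x hx => (S.conjR x hx).2
  have hN := S.hN
  have hN' := S.hN'
  have hdiv : ∀ L : Subgroup G, ∀ x ∈ RCs (SN D L), x = 0 ∨
      ∃ y ∈ RCs (SN D L), x * y = 1 ∧ y * x = 1 := by
    intro L x hx
    rcases hall x (rcs_mono le_top hx) with h | h
    · exact Or.inl h
    · exact Or.inr ⟨Ring.inverse x, RCs_inverse hx, Ring.mul_inverse_cancel x h,
        Ring.inverse_mul_cancel x h⟩
  obtain ⟨J, p, hp, ⟨r0, hr0⟩, m0, hrec⟩ := recur h1 h2 hR hR' (hdiv N) hy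
  -- degrees of elements of `C`
  let dC : ℤ → Prop := fun n => ∃ μ ∈ C, μ * t ^ (-n) ∈ N
  have dCadd : ∀ {n m : ℤ}, dC n → dC m → dC (n + m) := by
    rintro n m ⟨μ, hμ, hμt⟩ ⟨μ', hμ', hμt'⟩
    exact ⟨μ * μ', C.mul_mem hμ hμ', A4_dmul hN hN' hμt hμt'⟩
  have dCneg : ∀ {n : ℤ}, dC n → dC (-n) := by
    rintro n ⟨μ, hμ, hμt⟩
    exact ⟨μ⁻¹, C.inv_mem hμ, A4_dinv hN hN' hμt⟩
  have dCY : ∀ n, Y.coeff n ≠ 0 → dC n := by
    intro n hn
    rcases hcd n with h | ⟨z, hz, μ, hμ, hμt, h⟩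
    · exact absurd h hn
    · exact ⟨μ, hμ, hμt⟩
  have hs : ∀ n : ℤ, ∃ g : G, dC n → (g ∈ C ∧ g * t ^ (-n) ∈ N) := by
    intro n
    by_cases h : dC n
    · obtain ⟨μ, hμ, hμt⟩ := h
      exact ⟨μ, fun _ => ⟨hμ, hμt⟩⟩
    · exact ⟨1, fun h' => absurd h' h⟩
  choose s hs using hs
  -- the indices involved
  let K : Type := {k : Fin (J + 1) // dC (((r0 : ℕ) : ℤ) - ((k : ℕ) : ℤ))}
  let e : Fin (Fintype.card K) ≃ K := (Fintype.equivFin K).symm
  let kk : Fin (Fintype.card K) → ℤ := fun j => (((e j).1 : ℕ) : ℤ)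
  let I : Type := {m : ℤ // m0 ≤ m ∧ dC (m + ((r0 : ℕ) : ℤ))}
  let c : Fin (Fintype.card K) → G := fun j => s (((r0 : ℕ) : ℤ) - kk j)
  have hcC : ∀ j, c j ∈ C ∧ c j * t ^ (-(((r0 : ℕ) : ℤ) - kk j)) ∈ N :=
    fun j => hs _ (e j).2
  let a : Fin (Fintype.card K) → I → U := fun j m =>
    D.ι (c j) * Y.coeff (m.1 + kk j) * D.ι (s (m.1 + ((r0 : ℕ) : ℤ)))⁻¹
  have ha : ∀ j i, a j i ∈ RCs (SN D (N ⊓ C)) := by
    intro j m
    apply A4_Cd_zero (t := t)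
    obtain ⟨hu1, hu2⟩ := hs _ m.2.2
    have e1 : (0 : ℤ) = (((r0 : ℕ) : ℤ) - kk j) + (m.1 + kk j) + -(m.1 + ((r0 : ℕ) : ℤ)) := by
      ring
    rw [e1]
    exact A4_Cd_mul hN hN' (A4_Cd_mul hN hN' (A4_Cd_one (hcC j).1 (hcC j).2) (hcd _))
      (A4_Cd_one (C.inv_mem hu1) (A4_dinv hN hN' hu2))
  let pt : Fin (Fintype.card K) → U := fun j =>
    p (e j).1 * D.ι t ^ (J - ((e j).1 : ℕ)) * D.ι (c j)⁻¹
  have hτu : ∀ n : ℕ, IsUnit (D.ι t ^ n) := fun n => (D.isUnit_ι t).pow n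
  have hpt : ∃ j, pt j ≠ 0 := by
    have hr : dC (((r0 : ℕ) : ℤ) - ((r0 : ℕ) : ℤ)) := by
      rw [sub_self]
      exact ⟨1, C.one_mem, by simp⟩
    refine ⟨e.symm ⟨r0, hr⟩, ?_⟩
    intro h0
    have h3 : p (e (e.symm ⟨r0, hr⟩)).1 * D.ι t ^ (J - ((e (e.symm ⟨r0, hr⟩)).1 : ℕ)) = 0 :=
      ((D.isUnit_ι _).mul_left_eq_zero).mp h0
    have h4 : p (e (e.symm ⟨r0, hr⟩)).1 = 0 := ((hτu _).mul_left_eq_zero).mp h3
    rw [Equiv.apply_symm_apply] at h4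
    exact hr0 h4
  have hsum : ∀ i, ∑ j, pt j * a j i = 0 := by
    intro m
    have e1 : ∀ j, pt j * a j m = (p (e j).1 * D.ι t ^ (J - ((e j).1 : ℕ)) *
        Y.coeff (m.1 + (((e j).1 : ℕ) : ℤ))) * D.ι (s (m.1 + ((r0 : ℕ) : ℤ)))⁻¹ := by
      intro j
      have h3 : D.ι (c j)⁻¹ * D.ι (c j) = 1 := D.ι_inv_mul _
      calc pt j * a j m = p (e j).1 * D.ι t ^ (J - ((e j).1 : ℕ)) * (D.ι (c j)⁻¹ * D.ι (c j)) *
            Y.coeff (m.1 + kk j) * D.ι (s (m.1 + ((r0 : ℕ) : ℤ)))⁻¹ := by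
              show p (e j).1 * D.ι t ^ (J - ((e j).1 : ℕ)) * D.ι (c j)⁻¹ * (D.ι (c j) *
                Y.coeff (m.1 + kk j) * D.ι (s (m.1 + ((r0 : ℕ) : ℤ)))⁻¹) = _
              simp only [mul_assoc]
        _ = _ := by rw [h3, mul_one]
    rw [Finset.sum_congr rfl fun j _ => e1 j, ← Finset.sum_mul]
    have e2 : ∑ j, p (e j).1 * D.ι t ^ (J - ((e j).1 : ℕ)) *
        Y.coeff (m.1 + (((e j).1 : ℕ) : ℤ)) =
        ∑ k : K, p k.1 * D.ι t ^ (J - (k.1 : ℕ)) * Y.coeff (m.1 + ((k.1 : ℕ) : ℤ)) :=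
      Equiv.sum_comp e fun k : K => p k.1 * D.ι t ^ (J - (k.1 : ℕ)) *
        Y.coeff (m.1 + ((k.1 : ℕ) : ℤ))
    have e3 : ∑ k : K, p k.1 * D.ι t ^ (J - (k.1 : ℕ)) * Y.coeff (m.1 + ((k.1 : ℕ) : ℤ)) =
        ∑ k ∈ (Finset.univ : Finset (Fin (J + 1))).filter
          (fun k : Fin (J + 1) => dC (((r0 : ℕ) : ℤ) - ((k : ℕ) : ℤ))),
          p k * D.ι t ^ (J - (k : ℕ)) * Y.coeff (m.1 + ((k : ℕ) : ℤ)) :=
      (Finset.sum_subtype _ (fun k => by simp) fun k : Fin (J + 1) =>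
        p k * D.ι t ^ (J - (k : ℕ)) * Y.coeff (m.1 + ((k : ℕ) : ℤ))).symm
    have e4 : ∑ k ∈ (Finset.univ : Finset (Fin (J + 1))).filter
          (fun k : Fin (J + 1) => dC (((r0 : ℕ) : ℤ) - ((k : ℕ) : ℤ))),
          p k * D.ι t ^ (J - (k : ℕ)) * Y.coeff (m.1 + ((k : ℕ) : ℤ)) =
        ∑ k : Fin (J + 1), p k * D.ι t ^ (J - (k : ℕ)) * Y.coeff (m.1 + ((k : ℕ) : ℤ)) := by
      apply Finset.sum_subset (Finset.filter_subset _ _)
      intro k _ hk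
      have hk' : ¬ dC (((r0 : ℕ) : ℤ) - ((k : ℕ) : ℤ)) := by
        intro h
        exact hk (Finset.mem_filter.mpr ⟨Finset.mem_univ _, h⟩)
      have h5 : Y.coeff (m.1 + ((k : ℕ) : ℤ)) = 0 := by
        by_contra hne
        apply hk'
        have h6 := dCadd m.2.2 (dCneg (dCY _ hne))
        have e5 : m.1 + ((r0 : ℕ) : ℤ) + -(m.1 + ((k : ℕ) : ℤ)) =
            ((r0 : ℕ) : ℤ) - ((k : ℕ) : ℤ) := by ring
        rwa [e5] at h6
      rw [h5, mul_zero]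
    rw [e2, e3, e4, hrec m.1 m.2.1, zero_mul]
  obtain ⟨q, hq, ⟨j0, hj0⟩, hqs⟩ := descend (hdiv (N ⊓ C)) a ha pt hpt hsum
  -- the recurrence over `C`
  have hrec' : ∀ m : ℤ, m0 ≤ m → ∑ j, q j * D.ι (c j) * Y.coeff (m + kk j) = 0 := by
    intro m hm
    by_cases hd : dC (m + ((r0 : ℕ) : ℤ))
    · have h3 := hqs ⟨m, hm, hd⟩
      have e1 : ∑ j, q j * a j ⟨m, hm, hd⟩ = (∑ j, q j * D.ι (c j) * Y.coeff (m + kk j)) *
          D.ι (s (m + ((r0 : ℕ) : ℤ)))⁻¹ := by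
        rw [Finset.sum_mul]
        refine Finset.sum_congr rfl fun j _ => ?_
        show q j * (D.ι (c j) * Y.coeff (m + kk j) * D.ι (s (m + ((r0 : ℕ) : ℤ)))⁻¹) = _
        simp only [mul_assoc]
      rw [e1] at h3
      exact ((D.isUnit_ι _).mul_left_eq_zero).mp h3
    · refine Finset.sum_eq_zero fun j _ => ?_
      have h5 : Y.coeff (m + kk j) = 0 := by
        by_contra hne
        apply hd
        have h6 := dCadd (dCY _ hne) (e j).2
        have e5 : m + kk j + (((r0 : ℕ) : ℤ) - (((e j).1 : ℕ) : ℤ)) = m + ((r0 : ℕ) : ℤ) := by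
          show m + kk j + (((r0 : ℕ) : ℤ) - kk j) = m + ((r0 : ℕ) : ℤ)
          ring
        rwa [e5] at h6
      rw [h5, mul_zero]
  -- the denominator
  have hqc : ∀ j, A4_Cd D N C t (((r0 : ℕ) : ℤ) - kk j) (q j * D.ι (c j)) := by
    intro j
    have h3 := A4_Cd_mul hN hN' (A4_Cd_of (t := t) (hq j)) (A4_Cd_one (hcC j).1 (hcC j).2)
    rwa [zero_add] at h3
  set Q : U := ∑ j, q j * D.ι (c j) with hQ
  set XQ : HahnSeries ℤ U :=
    ∑ j, HahnSeries.single (((r0 : ℕ) : ℤ) - kk j) (q j * D.ι (c j)) with hXQ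
  have hPQQ : PQ (RCs (SN D N)) (D.ι t) Q XQ :=
    A4_PQ_sum _ _ _ fun j _ => A4_Cd_PQ S (hqc j)
  have hQC : Q ∈ RCs (SN D C) := Subring.sum_mem _ fun j _ => A4_Cd_mem (hqc j)
  have hkinj : ∀ j j', kk j = kk j' → j = j' := by
    intro j j' h
    have h3' : (((e j).1 : ℕ) : ℤ) = (((e j').1 : ℕ) : ℤ) := h
    have h3 : ((e j).1 : ℕ) = ((e j').1 : ℕ) := by exact_mod_cast h3'
    exact e.injective (Subtype.ext (Fin.ext h3))
  have hQ0 : Q ≠ 0 := by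
    intro h0
    rw [h0] at hPQQ
    have h3 : XQ = 0 := pq_unique S hall hPQQ PQ_zero_mem
    have h4 : XQ.coeff (((r0 : ℕ) : ℤ) - kk j0) = q j0 * D.ι (c j0) := by
      rw [hXQ, A4_coeff_sum, Finset.sum_eq_single j0]
      · exact HahnSeries.coeff_single_same _ _
      · intro j _ hj
        apply HahnSeries.coeff_single_of_ne
        intro h5
        apply hj
        apply hkinj
        linarith
      · intro h5
        exact absurd (Finset.mem_univ _) h5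
    rw [h3, HahnSeries.coeff_zero] at h4
    exact hj0 (((D.isUnit_ι _).mul_left_eq_zero).mp h4.symm)
  have hQu : IsUnit Q := (hall Q (rcs_mono le_top hQC)).resolve_left hQ0
  -- the numerator
  set Z : HahnSeries ℤ U := XQ * Y with hZ
  have hPQZ : PQ (RCs (SN D N)) (D.ι t) (Q * y) Z := PQ_mul h1 h2 hR hPQQ hy
  have hZc : ∀ n, Z.coeff n = ∑ j, q j * D.ι (c j) * Y.coeff (n - (((r0 : ℕ) : ℤ) - kk j)) := by
    intro n
    rw [hZ, hXQ, Finset.sum_mul, A4_coeff_sum]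
    exact Finset.sum_congr rfl fun j _ => HahnSeries.coeff_single_mul
  have hZcd : ∀ n, A4_Cd D N C t n (Z.coeff n) := by
    intro n
    rw [hZc]
    refine A4_Cd_sum _ _ fun j _ => ?_
    have h3 := A4_Cd_mul hN hN' (hqc j) (hcd (n - (((r0 : ℕ) : ℤ) - kk j)))
    rwa [add_sub_cancel] at h3
  have hZ0 : ∀ n, m0 + ((r0 : ℕ) : ℤ) ≤ n → Z.coeff n = 0 := by
    intro n hn
    rw [hZc, ← hrec' (n - ((r0 : ℕ) : ℤ)) (by linarith)]
    refine Finset.sum_congr rfl fun j _ => ?_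
    congr 2
    ring
  set P : U := ∑ n ∈ Finset.Ico Z.order (m0 + ((r0 : ℕ) : ℤ)), Z.coeff n with hP
  have hZs : Z = ∑ n ∈ Finset.Ico Z.order (m0 + ((r0 : ℕ) : ℤ)),
      HahnSeries.single n (Z.coeff n) := by
    ext n
    rw [A4_coeff_sum]
    by_cases hn : n ∈ Finset.Ico Z.order (m0 + ((r0 : ℕ) : ℤ))
    · rw [Finset.sum_eq_single n]
      · exact (HahnSeries.coeff_single_same _ _).symm
      · intro b _ hb
        exact HahnSeries.coeff_single_of_ne hb.symm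
      · intro h; exact absurd hn h
    · rw [Finset.sum_eq_zero]
      · rw [Finset.mem_Ico, not_and_or, not_le, not_lt] at hn
        rcases hn with hn | hn
        · exact HahnSeries.coeff_eq_zero_of_lt_order hn
        · exact hZ0 n hn
      · intro b hb
        apply HahnSeries.coeff_single_of_ne
        rintro rfl
        exact hn hb
  have hPQP : PQ (RCs (SN D N)) (D.ι t) P Z := by
    have h3 := A4_PQ_sum (Finset.Ico Z.order (m0 + ((r0 : ℕ) : ℤ))) (fun n => Z.coeff n)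
      (fun n => HahnSeries.single n (Z.coeff n)) fun n _ => A4_Cd_PQ S (hZcd n)
    rw [← hZs] at h3
    exact h3
  have hPC : P ∈ RCs (SN D C) := Subring.sum_mem _ fun n _ => A4_Cd_mem (hZcd n)
  have hm1 : PQ (RCs (SN D N)) (D.ι t) (-1 : U) (HahnSeries.C (-1 : U)) :=
    PQ_of_mem (Subring.neg_mem _ (Subring.one_mem _))
  have hdiff : PQ (RCs (SN D N)) (D.ι t) (Q * y + -1 * P) 0 := by
    have h3 := PQ_add hPQZ (PQ_mul h1 h2 hR hm1 hPQP)
    have e1 : Z + HahnSeries.C (-1 : U) * Z = 0 := by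
      rw [map_neg, map_one, neg_one_mul, add_neg_cancel]
    rwa [e1] at h3
  have h0 := PQ_zero S.hUF S.hE h2 hdiff
  have hQy : Q * y = P := by
    rw [neg_one_mul] at h0
    exact add_neg_eq_zero.mp h0
  have hfin : y = Ring.inverse Q * P := by
    rw [← hQy, ← mul_assoc, Ring.inverse_mul_cancel Q hQu, one_mul]
  rw [hfin]
  exact Subring.mul_mem _ (RCs_inverse hQC) hPC

end Pool.Agent.HL
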