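import Pool.Agent.HL.Defs
import Pool.Agent.HL.A1
import Pool.Agent.HL.A4

set_option autoImplicit false
set_option linter.unusedSectionVars false

noncomputable section

open scoped InnerProductSpace ENNReal Topology
open Classical Filter ContinuousLinearMap

namespace Pool.Agent.HL

open Pool.Agent.VN Pool.Agent.LFT Pool.Agent.HI Pool.Agent.HC Pool.Agent.HX

/-- the setup of the expansion along a nontrivial homomorphism to the integers -/
private lemma A5_setup {G κ U : Type} [Group G] [Ring κ] [Ring U] (D : Dat G κ U)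
    (hF : ∀ (H : Subgroup G) (φ : H →* Multiplicative ℤ) (t : H),
      φ t = Multiplicative.ofAdd 1 → ∀ (J : Type) [Fintype J] [DecidableEq J] (M0 M1 : Matrix J J U),
      (∀ i j, M0 i j ∈ SN D (φ.ker.map H.subtype)) → (∀ i j, M1 i j ∈ SN D (φ.ker.map H.subtype)) →
      IsUnit M0 → IsUnit (M0 + Matrix.of fun i j => M1 i j * D.ι (t : G)))
    (hE : ∀ (n : ℕ) (β : Matrix (Fin n) (Fin n) U) (b c v : Fin n → U), IsUnit (1 - β) →
      (∀ i, v i = ∑ j, β i j * v j + b i) → (∀ k : ℕ, ∑ i, c i * (Matrix.mulVec (β ^ k) b) i = 0) →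
      ∑ i, c i * v i = 0)
    (N0 K : Subgroup G) (hNK : N0 ≤ K) (f : K →* Multiplicative ℤ) (hf : f ≠ 1)
    (hf0 : ∀ n : K, (n : G) ∈ N0 → f n = 1) :
    ∃ (N : Subgroup G) (t : G) (dg : G → ℤ), N0 ≤ N ∧ N ≤ K ∧ t ∈ K ∧ Setup D K N t dg ∧
      ∀ n : ℤ, t ^ n ∈ N → n = 0 := by
  obtain ⟨φ, t, ht, hker⟩ := exists_surj f hf
  set N : Subgroup G := φ.ker.map K.subtype with hNdef
  have memN : ∀ g : G, g ∈ N ↔ ∃ h : g ∈ K, φ ⟨g, h⟩ = 1 := by
    intro g
    rw [hNdef, Subgroup.mem_map]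
    constructor
    · rintro ⟨h, h1, rfl⟩
      exact ⟨h.2, h1⟩
    · rintro ⟨h, h1⟩
      exact ⟨⟨g, h⟩, h1, rfl⟩
  set dg : G → ℤ := fun u => if h : u ∈ K then Multiplicative.toAdd (φ ⟨u, h⟩) else 0 with hdg
  have S : Setup D K N (t : G) dg := by
    refine ⟨?_, ?_, ?_, ?_, hE⟩
    · intro n hn
      obtain ⟨h1, h2⟩ := (memN n).mp hn
      rw [memN]
      refine ⟨K.mul_mem (K.mul_mem t.2 h1) (K.inv_mem t.2), ?_⟩
      have : (⟨(t : G) * n * (t : G)⁻¹, K.mul_mem (K.mul_mem t.2 h1) (K.inv_mem t.2)⟩ : K)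
          = t * ⟨n, h1⟩ * t⁻¹ := rfl
      rw [this, map_mul, map_mul, h2, mul_one, ← map_mul, mul_inv_cancel, map_one]
    · intro n hn
      obtain ⟨h1, h2⟩ := (memN n).mp hn
      rw [memN]
      refine ⟨K.mul_mem (K.mul_mem (K.inv_mem t.2) h1) t.2, ?_⟩
      have : (⟨(t : G)⁻¹ * n * (t : G), K.mul_mem (K.mul_mem (K.inv_mem t.2) h1) t.2⟩ : K)
          = t⁻¹ * ⟨n, h1⟩ * t := rfl
      rw [this, map_mul, map_mul, h2, mul_one, ← map_mul, inv_mul_cancel, map_one]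
    · intro u hu
      rw [memN]
      have hm : u * (t : G) ^ (-dg u) ∈ K := K.mul_mem hu (K.zpow_mem t.2 _)
      refine ⟨hm, ?_⟩
      have : (⟨u * (t : G) ^ (-dg u), hm⟩ : K) = ⟨u, hu⟩ * t ^ (-dg u) := by
        apply Subtype.ext
        simp
      rw [this, map_mul, map_zpow, ht]
      have e : dg u = Multiplicative.toAdd (φ ⟨u, hu⟩) := by
        simp only [hdg]
        rw [dif_pos hu]
      rw [e]
      apply Multiplicative.toAdd.injective
      rw [toAdd_mul, toAdd_zpow, toAdd_ofAdd, toAdd_one, smul_eq_mul]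
      ring
    · exact UF_of _ _ fun J _ _ M0 M1 h0 h1 hu => hF K φ t ht J M0 M1 h0 h1 hu
  refine ⟨N, t, dg, ?_, ?_, t.2, S, ?_⟩
  · intro n hn
    rw [memN]
    refine ⟨hNK hn, ?_⟩
    have h1 : (⟨n, hNK hn⟩ : K) ∈ f.ker := hf0 _ hn
    rw [← hker] at h1
    exact h1
  · intro n hn
    exact ((memN n).mp hn).1
  · intro n hn
    obtain ⟨h1, h2⟩ := (memN _).mp hn
    have h3 : (⟨(t : G) ^ n, h1⟩ : K) = t ^ n := by
      apply Subtype.ext
      simp
    rw [h3, map_zpow, ht] at h2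
    have h4 := congrArg Multiplicative.toAdd h2
    rw [toAdd_zpow, toAdd_ofAdd, toAdd_one, smul_eq_mul, mul_one] at h4
    exact h4

/-- inverses of homogeneous elements -/
private lemma A5_inv {G : Type} [Group G] {N : Subgroup G} {t : G}
    (hN : ∀ n ∈ N, t * n * t⁻¹ ∈ N) (hN' : ∀ n ∈ N, t⁻¹ * n * t ∈ N) {a : G} {n0 : ℤ}
    (ha : a * t ^ (-n0) ∈ N) : a⁻¹ * t ^ (-(-n0)) ∈ N := by
  have h1 := zpow_conj hN hN' (-n0) _ (N.inv_mem ha)
  have e : t ^ (-n0) * (a * t ^ (-n0))⁻¹ * t ^ (-(-n0)) = a⁻¹ * t ^ (-(-n0)) := by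
    group
  rwa [e] at h1

/-- quotients of homogeneous elements -/
private lemma A5_quot {G : Type} [Group G] {N : Subgroup G} {t : G}
    (hN : ∀ n ∈ N, t * n * t⁻¹ ∈ N) (hN' : ∀ n ∈ N, t⁻¹ * n * t ∈ N) {a b : G} {n n0 : ℤ}
    (ha : a * t ^ (-n0) ∈ N) (hb : b * t ^ (-(n + n0)) ∈ N) : b * a⁻¹ * t ^ (-n) ∈ N := by
  have h1 := zpow_conj hN hN' n _ (N.inv_mem ha)
  have h2 := N.mul_mem hb h1
  have e : b * t ^ (-(n + n0)) * (t ^ n * (a * t ^ (-n0))⁻¹ * t ^ (-n)) = b * a⁻¹ * t ^ (-n) := by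
    have e1 : t ^ (-(n + n0)) * t ^ n * t ^ n0 = 1 := by
      rw [← zpow_add, ← zpow_add]
      have : -(n + n0) + n + n0 = 0 := by ring
      rw [this, zpow_zero]
    have e2 : (a * t ^ (-n0))⁻¹ = t ^ n0 * a⁻¹ := by
      rw [mul_inv_rev, zpow_neg, inv_inv]
    rw [e2]
    calc b * t ^ (-(n + n0)) * (t ^ n * (t ^ n0 * a⁻¹) * t ^ (-n))
        = b * (t ^ (-(n + n0)) * t ^ n * t ^ n0) * a⁻¹ * t ^ (-n) := by simp only [mul_assoc]
      _ = b * a⁻¹ * t ^ (-n) := by rw [e1, mul_one]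
  rwa [e] at h2

/-- the intersection property at an expansion, from that of the coefficients -/
private lemma A5_step {G κ U : Type} [Group G] [Ring κ] [Ring U] {D : Dat G κ U}
    {K N : Subgroup G} {t : G} {dg : G → ℤ} (S : Setup D K N t dg)
    (htN : ∀ n : ℤ, t ^ n ∈ N → n = 0) (hall : ∀ x ∈ RCs (SN D ⊤), x = 0 ∨ IsUnit x)
    (L L' : Subgroup G) (g : G) {x : U} {X : HahnSeries ℤ U}
    (hX : PQ (RCs (SN D N)) (D.ι t) x X) (hx : x ≠ 0)
    (hc : ∀ n, X.coeff n ≠ 0 → ∃ z ∈ RCs (SN D (N ⊓ (L ⊓ L'))), ∃ l : G, l ∈ L ∧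
      l * g⁻¹ ∈ L' ∧ l * t ^ (-n) ∈ N ∧ X.coeff n = z * D.ι l) :
    ∃ z ∈ RCs (SN D (L ⊓ L')), ∃ l ∈ L, l * g⁻¹ ∈ L' ∧ x = z * D.ι l := by
  have h1 : D.ι t * D.ι t⁻¹ = 1 := D.ι_mul_inv t
  have h2 : D.ι t⁻¹ * D.ι t = 1 := D.ι_inv_mul t
  have hR := fun x hx => (S.conjR x hx).1
  have hX0 : ∃ n0, X.coeff n0 ≠ 0 := by
    by_contra hcon
    push Not at hcon
    have h3 : X = 0 := by
      ext n
      exact hcon n
    rw [h3] at hX
    exact hx (PQ_zero S.hUF S.hE h2 hX)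
  obtain ⟨n0, hn0⟩ := hX0
  obtain ⟨z0, hz0, l0, hl1, hl2, hl3, hl4⟩ := hc n0 hn0
  have hy := PQ_mul h1 h2 hR hX (PQ_ι D S.hN (A5_inv S.hN S.hN' hl3))
  have hser := series S htN hall (L ⊓ L') hy (by
    intro n
    rw [HahnSeries.coeff_mul_single, sub_neg_eq_add]
    by_cases h0 : X.coeff (n + n0) = 0
    · left
      rw [h0, zero_mul]
    · right
      obtain ⟨z, hz, l, k1, k2, k3, k4⟩ := hc _ h0
      refine ⟨z, hz, l * l0⁻¹, ?_, A5_quot S.hN S.hN' hl3 k3, ?_⟩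
      · refine ⟨L.mul_mem k1 (L.inv_mem hl1), ?_⟩
        have h5 := L'.mul_mem k2 (L'.inv_mem hl2)
        have e : l * g⁻¹ * (l0 * g⁻¹)⁻¹ = l * l0⁻¹ := by group
        rwa [e] at h5
      · rw [k4, map_mul, mul_assoc])
  refine ⟨_, hser, l0, hl1, hl2, ?_⟩
  rw [mul_assoc, D.ι_inv_mul, mul_one]

/-- A5: the intersection property follows from that of the subgroups which are finitely generated
over `N0` and have no nontrivial homomorphisms to `ℤ` trivial on `N0` -/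
theorem ip_alg {G κ U : Type} [Group G] [Ring κ] [Ring U] (D : Dat G κ U)
    (hF : ∀ (H : Subgroup G) (φ : H →* Multiplicative ℤ) (t : H),
      φ t = Multiplicative.ofAdd 1 → ∀ (J : Type) [Fintype J] [DecidableEq J] (M0 M1 : Matrix J J U),
      (∀ i j, M0 i j ∈ SN D (φ.ker.map H.subtype)) → (∀ i j, M1 i j ∈ SN D (φ.ker.map H.subtype)) →
      IsUnit M0 → IsUnit (M0 + Matrix.of fun i j => M1 i j * D.ι (t : G)))
    (hE : ∀ (n : ℕ) (β : Matrix (Fin n) (Fin n) U) (b c v : Fin n → U), IsUnit (1 - β) →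
      (∀ i, v i = ∑ j, β i j * v j + b i) → (∀ k : ℕ, ∑ i, c i * (Matrix.mulVec (β ^ k) b) i = 0) →
      ∑ i, c i * v i = 0)
    (hall : ∀ x ∈ RCs (SN D ⊤), x = 0 ∨ IsUnit x)
    (hform : ∀ (L : Subgroup G) (x : U), x ∈ RCs (SN D L) →
      x = 0 ∨ ∃ (E : Ex G κ) (g : G), (∀ u ∈ E.supp, u ∈ L) ∧ g ∈ L ∧ x = E.val D * D.ι g)
    (N0 : Subgroup G) [N0.Normal]
    (hbase : ∀ S : Finset G,
      (∀ f : ↥(N0 ⊔ Subgroup.closure (S : Set G)) →* Multiplicative ℤ,
        (∀ n : ↥(N0 ⊔ Subgroup.closure (S : Set G)), (n : G) ∈ N0 → f n = 1) → f = 1) →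
      IPat D N0 (N0 ⊔ Subgroup.closure (S : Set G))) : IPat D N0 ⊤ := by
  have hall' : ∀ E : Ex G κ, E.val D = 0 ∨ IsUnit (E.val D) := fun E =>
    hall _ (val_mem_RCs D fun u _ => Subgroup.mem_top u)
  obtain ⟨O, ⟨hO⟩⟩ := exists_CxS
  have main : ∀ γ : O, ∀ (L L' : Subgroup G), N0 ≤ L → N0 ≤ L' → ∀ (E1 E2 : Ex G κ),
      (∀ u ∈ E1.supp, u ∈ L) → (∀ u ∈ E2.supp, u ∈ L') → Ex.cy O E1 + Ex.cy O E2 = γ →
      ∀ g : G, E1.val D = E2.val D * D.ι g → E1.val D ≠ 0 →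
      ∃ z ∈ RCs (SN D (L ⊓ L')), ∃ l ∈ L, l * g⁻¹ ∈ L' ∧ E1.val D = z * D.ι l := by
    intro γ
    induction γ using hO.wf.induction with
    | _ γ IH =>
      intro L L' hL hL' E1 E2 hE1 hE2 hγ g hg hne
      have hSf : (E1.supp ∪ E2.supp ∪ {g}).Finite :=
        ((Ex.supp_finite E1).union (Ex.supp_finite E2)).union (Set.finite_singleton g)
      set S0 : Finset G := hSf.toFinset with hS0
      have hS0c : (S0 : Set G) = E1.supp ∪ E2.supp ∪ {g} := hSf.coe_toFinset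
      have hNK : N0 ≤ N0 ⊔ Subgroup.closure (S0 : Set G) := le_sup_left
      have hbS := hbase S0
      set K : Subgroup G := N0 ⊔ Subgroup.closure (S0 : Set G) with hK
      have hSK : ∀ u ∈ S0, u ∈ K := fun u hu =>
        (le_sup_right : Subgroup.closure (S0 : Set G) ≤ K) (Subgroup.subset_closure hu)
      have hE1K : ∀ u ∈ E1.supp, u ∈ K := fun u hu => hSK u (by
        rw [hS0, Set.Finite.mem_toFinset]
        exact Or.inl (Or.inl hu))
      have hE2K : ∀ u ∈ E2.supp, u ∈ K := fun u hu => hSK u (by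
        rw [hS0, Set.Finite.mem_toFinset]
        exact Or.inl (Or.inr hu))
      have hgK : g ∈ K := hSK g (by
        rw [hS0, Set.Finite.mem_toFinset]
        exact Or.inr rfl)
      by_cases hf : ∀ f : K →* Multiplicative ℤ, (∀ n : K, (n : G) ∈ N0 → f n = 1) → f = 1
      · obtain ⟨z, hz, l, hl, hl', he⟩ := hbS hf (L ⊓ K) (L' ⊓ K) (le_inf hL hNK) (le_inf hL' hNK)
          inf_le_right inf_le_right (E1.val D) (val_mem_RCs D fun u hu => ⟨hE1 u hu, hE1K u hu⟩)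
          (E2.val D) (val_mem_RCs D fun u hu => ⟨hE2 u hu, hE2K u hu⟩) g hgK hg hne
        refine ⟨z, rcs_mono ?_ hz, l, hl.1, hl'.1, he⟩
        exact inf_le_inf inf_le_left inf_le_left
      push Not at hf
      obtain ⟨f, hf0, hf1⟩ := hf
      obtain ⟨N, t, dg, hN0, hNK', htK, S, htN⟩ := A5_setup D hF hE N0 K hNK f hf1 hf0
      have h1 : D.ι t * D.ι t⁻¹ = 1 := D.ι_mul_inv t
      have h2 : D.ι t⁻¹ * D.ι t = 1 := D.ι_inv_mul t
      have hR := fun x hx => (S.conjR x hx).1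
      obtain ⟨X1, α1, hX1, hc1, ha1, hd1⟩ := expand (O := O) S hall' (L ⊓ K) inf_le_right E1
        (fun u hu => ⟨hE1 u hu, hE1K u hu⟩)
      obtain ⟨X2, α2, hX2, hc2, ha2, hd2⟩ := expand (O := O) S hall' (L' ⊓ K) inf_le_right E2
        (fun u hu => ⟨hE2 u hu, hE2K u hu⟩)
      have hX2' := PQ_mul h1 h2 hR hX2 (PQ_ι D S.hN (S.hdg g hgK))
      rw [← hg] at hX2'
      have heq : X1 = X2 * HahnSeries.single (dg g) (D.ι g) := pq_unique S hall hX1 hX2'
      have heqc : ∀ n, X1.coeff n = X2.coeff (n - dg g) * D.ι g := by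
        intro n
        rw [heq, HahnSeries.coeff_mul_single]
      have hlt : ∀ n, α1 n + α2 (n - dg g) < γ := by
        intro n
        rw [← hγ]
        rcases hd1 with ⟨k1, k2⟩ | k1
        · rcases hd2 with ⟨k3, k4⟩ | k3
          · exfalso
            have hm : dg g = 0 := by
              by_contra hm
              have h3 := heqc 0
              rw [k2, k4, HahnSeries.C_apply, HahnSeries.coeff_single_same, HahnSeries.C_apply,
                HahnSeries.coeff_single_of_ne (by omega), zero_mul] at h3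
              exact hne h3
            have hgN : g ∈ N := by
              have h3 := S.hdg g hgK
              rw [hm, neg_zero, zpow_zero, mul_one] at h3
              exact h3
            have hKN : K ≤ N := by
              rw [hK]
              refine sup_le hN0 ?_
              rw [Subgroup.closure_le, hS0c]
              rintro u ((hu | hu) | hu)
              · exact k1 u hu
              · exact k3 u hu
              · rw [Set.mem_singleton_iff] at hu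
                rw [hu]
                exact hgN
            have h4 := htN 1 (by
              rw [zpow_one]
              exact hKN htK)
            exact one_ne_zero h4
          · exact add_lt_add_of_le_of_lt (ha1 n) (k3 _)
        · exact add_lt_add_of_lt_of_le (k1 n) (ha2 _)
      refine A5_step S htN hall L L' g hX1 hne ?_
      intro n hn
      obtain ⟨E', h, e1, e2, e3, e4, e5⟩ := (hc1 n).resolve_left hn
      have hn2 : X2.coeff (n - dg g) ≠ 0 := by
        intro h0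
        apply hn
        rw [heqc, h0, zero_mul]
      obtain ⟨E'', h', d1, d2, d3, d4, d5⟩ := (hc2 (n - dg g)).resolve_left hn2
      have hval : E'.val D = E''.val D * D.ι (h' * g * h⁻¹) := by
        have h3 := heqc n
        rw [e5, d5] at h3
        calc E'.val D = E'.val D * D.ι h * D.ι h⁻¹ := by rw [mul_assoc, D.ι_mul_inv, mul_one]
          _ = E''.val D * D.ι h' * D.ι g * D.ι h⁻¹ := by rw [h3]
          _ = _ := by rw [map_mul, map_mul]; simp only [mul_assoc]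
      have hne' : E'.val D ≠ 0 := by
        intro h0
        apply hn
        rw [e5, h0, zero_mul]
      obtain ⟨z, hz, l, hl, hl', hzl⟩ := IH _ (lt_of_le_of_lt (add_le_add e2 d2) (hlt n))
        (N ⊓ (L ⊓ K)) (N ⊓ (L' ⊓ K)) (le_inf hN0 (le_inf hL hNK)) (le_inf hN0 (le_inf hL' hNK))
        E' E'' e1 d1 rfl (h' * g * h⁻¹) hval hne'
      refine ⟨z, rcs_mono ?_ hz, l * h, L.mul_mem hl.2.1 e3.1, ?_, ?_, ?_⟩
      · rintro u ⟨hu1, hu2⟩
        exact ⟨hu1.1, hu1.2.1, hu2.2.1⟩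
      · have h3 := L'.mul_mem hl'.2.1 d3.1
        have e : l * (h' * g * h⁻¹)⁻¹ * h' = l * h * g⁻¹ := by group
        rwa [e] at h3
      · rw [mul_assoc]
        exact N.mul_mem hl.1 e4
      · rw [e5, hzl, map_mul, mul_assoc]
  intro L L' hL hL' _ _ x hx y hy g _ hxy hx0
  rcases hform L x hx with h | ⟨E1, g1, hE1, hg1, hx1⟩
  · exact absurd h hx0
  rcases hform L' y hy with h | ⟨E2, g2, hE2, hg2, hy1⟩
  · exfalso
    apply hx0
    rw [hxy, h, zero_mul]
  have hval : E1.val D = E2.val D * D.ι (g2 * g * g1⁻¹) := by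
    calc E1.val D = E1.val D * D.ι g1 * D.ι g1⁻¹ := by rw [mul_assoc, D.ι_mul_inv, mul_one]
      _ = E2.val D * D.ι g2 * D.ι g * D.ι g1⁻¹ := by rw [← hx1, hxy, hy1]
      _ = _ := by rw [map_mul, map_mul]; simp only [mul_assoc]
  have hne : E1.val D ≠ 0 := by
    intro h0
    apply hx0
    rw [hx1, h0, zero_mul]
  obtain ⟨z, hz, l, hl, hl', he⟩ := main _ L L' hL hL' E1 E2 hE1 hE2 rfl (g2 * g * g1⁻¹) hval hne
  refine ⟨z, hz, l * g1, L.mul_mem hl hg1, ?_, ?_⟩
  · have h3 := L'.mul_mem hl' hg2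
    have e : l * (g2 * g * g1⁻¹)⁻¹ * g2 = l * g1 * g⁻¹ := by group
    rwa [e] at h3
  · rw [hx1, he, map_mul, mul_assoc]

end Pool.Agent.HL
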