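import Pool.Agent.HC.Tree
import Pool.Agent.HX.AtMain

set_option autoImplicit false
set_option linter.unusedSectionVars false

noncomputable section

open scoped InnerProductSpace ENNReal Topology
open Classical Filter ContinuousLinearMap

/-!
The local step: values of rational expressions over subgroups, subspaces over division rings.
-/

namespace Pool.Agent.HL

open Pool.Agent.VN Pool.Agent.LFT Pool.Agent.HI Pool.Agent.HC Pool.Agent.HX

section Alg

variable {G κ U : Type} [Group G] [Ring κ] [Ring U]

/-- coefficients in degree `n` over the subgroup `L`: zero, or the value of an expression over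
`N ⊓ L` of complexity at most `α`, times an element of `L` in `N tⁿ` -/
def CfL (D : Dat G κ U) (O : Type*) [CxS O] (N L : Subgroup G) (t : G) (n : ℤ) (α : O) (y : U) :
    Prop :=
  y = 0 ∨ ∃ (E : Ex G κ) (g : G), (∀ u ∈ E.supp, u ∈ N ⊓ L) ∧ Ex.cy O E ≤ α ∧ g ∈ L ∧
    g * t ^ (-n) ∈ N ∧ y = E.val D * D.ι g

/-- the subgroup `K` has the intersection property: values over `L` which are values over `L'`
times a group element are values over `L ⊓ L'` times a group element -/
def IPat (D : Dat G κ U) (N0 K : Subgroup G) : Prop :=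
  ∀ L L' : Subgroup G, N0 ≤ L → N0 ≤ L' → L ≤ K → L' ≤ K →
    ∀ x ∈ RCs (SN D L), ∀ y ∈ RCs (SN D L'), ∀ g ∈ K, x = y * D.ι g → x ≠ 0 →
      ∃ z ∈ RCs (SN D (L ⊓ L')), ∃ l ∈ L, l * g⁻¹ ∈ L' ∧ x = z * D.ι l

end Alg

section Mdl

/-- a ring with a rank function which describes the kernels of matrices over the group ring of a
group satisfying the conjecture over `k`, and the division ring of its rational values -/
structure Mdl (k : Subring ℂ) (E U F : Type) [Group E] [Ring U] [DivisionRing F] where
  ρ : RankFn U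
  D : Dat E ℂ U
  faith : ρ.Faithful
  unit : ∀ {n : Type} [Fintype n] [DecidableEq n] (A : Matrix n n U),
    ρ.rk A = Fintype.card n → IsUnit A
  rk : ∀ {m n : Type} [Fintype m] [Fintype n] (a : m → n → (E →₀ ℂ)),
    ρ.rk (Matrix.of fun i j => D.gr (a i j)) = (Fintype.card n : ℝ)
      - vdim (Sol (Set.range (colG a)) : Set (L2 n E))
  emb : F →+* U
  inj : Function.Injective emb
  rng : ∀ x : U, x ∈ RCs (SN (D.restrict k) ⊤) ↔ ∃ f : F, emb f = x

variable {k : Subring ℂ} {E U F : Type} [Group E] [Ring U] [DivisionRing F]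

namespace Mdl

variable (M : Mdl k E U F)

/-- the matrix of a family of linear forms -/
def mtx {ι κ : Type} (A : κ → (ι × E →₀ ℂ)) : Matrix κ ι U :=
  Matrix.of fun j i => (A j).sum fun p c => if p.1 = i then M.D.sc c * M.D.ι (p.2)⁻¹ else 0

/-- the same matrix over the division ring of values, if its entries are values -/
def mtK {ι κ : Type} (A : κ → (ι × E →₀ ℂ)) : Matrix κ ι F :=
  Matrix.of fun j i => if h : ∃ f : F, M.emb f = M.mtx A j i then h.choose else 0

/-- matrices act on columns, which form right vector spaces -/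
def mv {ι κ : Type} [Fintype ι] (B : Matrix κ ι F) : (ι → F) →ₗ[Fᵐᵒᵖ] (κ → F) where
  toFun v := B.mulVec v
  map_add' v w := Matrix.mulVec_add _ _ _
  map_smul' c v := by
    funext j
    show ∑ i, B j i * (v i * c.unop) = (∑ i, B j i * v i) * c.unop
    rw [Finset.sum_mul]
    exact Finset.sum_congr rfl fun i _ => (mul_assoc _ _ _).symm

/-- the linear map of a family of linear forms -/
def lin {ι κ : Type} [Fintype ι] (A : κ → (ι × E →₀ ℂ)) : (ι → F) →ₗ[Fᵐᵒᵖ] (κ → F) :=
  mv (M.mtK A)

/-- a rational subspace and the subspace over the division ring of values with the same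
description -/
def RR {X : Type} [MulAction E X] {ι : Type} [Fintype ι] (lab : ι → X)
    (Z : Submodule ℂ (L2 ι E)) (W : Submodule Fᵐᵒᵖ (ι → F)) : Prop :=
  ∃ (κ μ : Type) (_ : Fintype κ) (_ : Fintype μ) (labκ : κ → X) (labμ : μ → X)
    (As : μ → (κ × E →₀ ℂ)) (At : ι → (κ × E →₀ ℂ)),
    (∀ j, CoefIn k (As j)) ∧ (∀ j, ∀ p ∈ (As j).support, p.2⁻¹ • labκ p.1 = labμ j) ∧
    (∀ j, CoefIn k (At j)) ∧ (∀ j, ∀ p ∈ (At j).support, p.2⁻¹ • labκ p.1 = lab j) ∧
    Z = imc (mulR At) (kr (mulR As)) ∧ W = (LinearMap.ker (M.lin As)).map (M.lin At)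

/-- the graph of left multiplication by `x` -/
def gS (x : U) : Submodule Fᵐᵒᵖ (Bool → F) where
  carrier := {w | M.emb (w true) = x * M.emb (w false)}
  add_mem' := by
    intro v w hv hw
    show M.emb (v true + w true) = x * M.emb (v false + w false)
    have hv' : M.emb (v true) = x * M.emb (v false) := hv
    have hw' : M.emb (w true) = x * M.emb (w false) := hw
    rw [map_add, map_add, hv', hw', mul_add]
  zero_mem' := by
    show M.emb 0 = x * M.emb 0
    rw [map_zero, mul_zero]
  smul_mem' := by
    intro c w hw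
    have hw' : M.emb (w true) = x * M.emb (w false) := hw
    show M.emb (w true * c.unop) = x * M.emb (w false * c.unop)
    rw [map_mul, map_mul, hw', mul_assoc]

end Mdl

end Mdl

section LC

/-- all finitely generated subgroups without nontrivial homomorphisms to `ℤ` have the inductive
property -/
def LC (k : Subring ℂ) (Q : Type) [Group Q] : Prop :=
  ∀ H : Subgroup Q, H.FG → (∀ f : H →* Multiplicative ℤ, f = 1) → Pool.Agent.HE.PB k H

end LC

end Pool.Agent.HL
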